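import Mathlib

set_option autoImplicit false

open Finset Filter Topology

namespace Pool.Agent.Descents

/-- number of `n ≤ X` with `f n ≤ t` -/
noncomputable def cnt (f : ℕ → ℝ) (X : ℕ) (t : ℝ) : ℕ := ((Icc 1 X).filter (fun n => f n ≤ t)).card

/-- distribution function of `f` on `[1, X]` -/
noncomputable def F (f : ℕ → ℝ) (X : ℕ) (t : ℝ) : ℝ := (cnt f X t : ℝ) / X

/-- number of descents up to `X` -/
noncomputable def ex (f : ℕ → ℝ) (X : ℕ) : ℕ := ((Icc 1 X).filter (fun n => f (n + 1) < f n)).card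

/-- additive functions -/
def Addi (f : ℕ → ℝ) : Prop :=
  ∀ a b : ℕ, 1 ≤ a → 1 ≤ b → Nat.Coprime a b → f (a * b) = f a + f b

/-- density zero descents -/
def DZ (f : ℕ → ℝ) : Prop := Tendsto (fun X : ℕ => (ex f X : ℝ) / X) atTop (𝓝 0)

/-- primes `p` with `a log X < log p ≤ b log X` -/
noncomputable def PR (X : ℕ) (a b : ℝ) : Finset ℕ :=
  (Icc 1 X).filter (fun p => p.Prime ∧ a * Real.log X < Real.log p ∧ Real.log p ≤ b * Real.log X)

/-- number of `n ≤ X` with `n ≡ c (mod p)` and `f n ≤ t` -/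
noncomputable def cntc (f : ℕ → ℝ) (X : ℕ) (t : ℝ) (p : ℕ) (c : ℤ) : ℕ :=
  ((Icc 1 X).filter (fun n : ℕ => (p : ℤ) ∣ (n : ℤ) - c ∧ f n ≤ t)).card

/-- `∏ (1 + 1/l)` over the primes dividing `n` -/
noncomputable def Bf (n : ℕ) : ℝ := ∏ l ∈ n.primeFactors, (1 + 1 / (l : ℝ))

/-- good primes matching `m` -/
def Pim (G : Finset ℕ) (Y m : ℕ) : Finset ℕ := G.filter (fun p => Y < 256 * (p * m) ∧ p * m ≤ Y)

/-- admissible `m` -/
def Adm (G : Finset ℕ) (Y m : ℕ) : Prop :=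
  1 ≤ m ∧ Real.log m ≤ 0.49 * Real.log Y ∧ (Y : ℝ) ≤ 8 * m * Real.log Y * (Pim G Y m).card

end Pool.Agent.Descents
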