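import Mathlib
import Pool.Agent.Helper564.Desc.Defs

set_option autoImplicit false

open Finset Filter Topology

namespace Pool.Agent.Descents.A2

open Pool.Agent.Descents



/-- indicator of the level set -/
noncomputable def uu (f : ℕ → ℝ) (t : ℝ) (n : ℕ) : ℝ := if f n ≤ t then 1 else 0

theorem uu_nonneg (f : ℕ → ℝ) (t : ℝ) (n : ℕ) : 0 ≤ uu f t n := by
  unfold uu; split_ifs <;> norm_num

theorem uu_le (f : ℕ → ℝ) (t : ℝ) (n : ℕ) : uu f t n ≤ 1 := by
  unfold uu; split_ifs <;> norm_num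

/-- restricted count in a residue class -/
noncomputable def crr (f : ℕ → ℝ) (t : ℝ) (X M b : ℕ) : ℝ :=
  ∑ n ∈ Icc 1 X, if n % M = b % M then uu f t n else 0

theorem cnt_eq (f : ℕ → ℝ) (X : ℕ) (t : ℝ) : (cnt f X t : ℝ) = ∑ n ∈ Icc 1 X, uu f t n := by
  unfold cnt uu
  rw [Finset.card_filter]
  push_cast
  rfl

theorem var_bound (f : ℕ → ℝ) (t : ℝ) (X : ℕ) :
    ∑ n ∈ Icc 1 X, |uu f t (n + 1) - uu f t n| ≤ 2 * (ex f X : ℝ) + uu f t 1 - uu f t (X + 1) := by
  induction X with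
  | zero => simp [ex]
  | succ X ih =>
    rw [Finset.sum_Icc_succ_top (by omega)]
    have h1 : (ex f (X + 1) : ℝ) = ex f X + (if f (X + 1 + 1) < f (X + 1) then 1 else 0) := by
      unfold ex
      rw [Finset.card_filter, Finset.card_filter, Finset.sum_Icc_succ_top (by omega)]
      push_cast
      rfl
    rw [h1]
    have h2 : |uu f t (X + 1 + 1) - uu f t (X + 1)| ≤
        2 * (if f (X + 1 + 1) < f (X + 1) then 1 else 0) - (uu f t (X + 1 + 1) - uu f t (X + 1)) := by
      unfold uu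
      by_cases ha : f (X + 1 + 1) ≤ t
      · by_cases hb : f (X + 1) ≤ t
        · simp only [ha, hb, if_true]
          split_ifs <;> norm_num
        · have hc : f (X + 1 + 1) < f (X + 1) := by
            push Not at hb
            linarith
          simp only [ha, hb, hc, if_true, if_false]
          norm_num
      · by_cases hb : f (X + 1) ≤ t
        · simp only [ha, hb, if_true, if_false]
          split_ifs <;> norm_num
        · simp only [ha, hb, if_false]
          split_ifs <;> norm_num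
    linarith

theorem crr_step (f : ℕ → ℝ) (t : ℝ) (X M b : ℕ) :
    |crr f t X M (b + 1) - crr f t X M b| ≤ 2 + 2 * (ex f X : ℝ) := by
  -- shifted sum
  have hshift : ∀ Y : ℕ, ∑ n ∈ Icc 1 Y, (if n % M = b % M then uu f t (n + 1) else 0) =
      crr f t Y M (b + 1) + (if Y % M = b % M then uu f t (Y + 1) else 0) -
        (if 0 % M = b % M then uu f t 1 else 0) := by
    intro Y
    induction Y with
    | zero =>
      simp only [crr, Nat.lt_irrefl, Finset.Icc_eq_empty_of_lt Nat.zero_lt_one, Finset.sum_empty]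
      ring
    | succ Y ih =>
      rw [Finset.sum_Icc_succ_top (by omega), ih]
      unfold crr
      rw [Finset.sum_Icc_succ_top (by omega : 1 ≤ Y + 1)]
      have h1 : ((Y + 1) % M = (b + 1) % M) ↔ (Y % M = b % M) :=
        ⟨fun h => Nat.ModEq.add_right_cancel' 1 h, fun h => Nat.ModEq.add_right 1 h⟩
      simp only [h1]
      ring
  have hG := hshift X
  have hV := var_bound f t X
  have hd : |(∑ n ∈ Icc 1 X, (if n % M = b % M then uu f t (n + 1) else 0)) - crr f t X M b| ≤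
      ∑ n ∈ Icc 1 X, |uu f t (n + 1) - uu f t n| := by
    unfold crr
    rw [← Finset.sum_sub_distrib]
    refine (Finset.abs_sum_le_sum_abs _ _).trans (Finset.sum_le_sum fun n _ => ?_)
    split_ifs
    · exact le_refl _
    · simp
  have h0 := uu_nonneg f t (X + 1)
  have h1 := uu_le f t (X + 1)
  have h2 := uu_nonneg f t 1
  have h3 := uu_le f t 1
  rw [hG] at hd
  rw [abs_le] at hd ⊢
  obtain ⟨hd1, hd2⟩ := hd
  constructor
  · split_ifs at hd1 hd2 <;> linarith
  · split_ifs at hd1 hd2 <;> linarith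

theorem crr_add (f : ℕ → ℝ) (t : ℝ) (X M b k : ℕ) :
    |crr f t X M (b + k) - crr f t X M b| ≤ k * (2 + 2 * (ex f X : ℝ)) := by
  induction k with
  | zero => simp
  | succ k ih =>
    have h := crr_step f t X M (b + k)
    have h2 : crr f t X M (b + (k + 1)) - crr f t X M b =
        (crr f t X M (b + k + 1) - crr f t X M (b + k)) + (crr f t X M (b + k) - crr f t X M b) := by
      rw [← add_assoc]; ring
    rw [h2]
    refine (abs_add_le _ _).trans ?_
    push_cast
    linarith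

theorem crr_diff (f : ℕ → ℝ) (t : ℝ) (X M b b' : ℕ) (hb : b < M) (hb' : b' < M) :
    |crr f t X M b - crr f t X M b'| ≤ M * (2 + 2 * (ex f X : ℝ)) := by
  have hE : (0 : ℝ) ≤ 2 + 2 * (ex f X : ℝ) := by positivity
  rcases le_total b b' with h | h
  · have h1 := crr_add f t X M b (b' - b)
    rw [Nat.add_sub_cancel' h, abs_sub_comm] at h1
    refine h1.trans (mul_le_mul_of_nonneg_right ?_ hE)
    exact_mod_cast (by omega : b' - b ≤ M)
  · have h1 := crr_add f t X M b' (b - b')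
    rw [Nat.add_sub_cancel' h] at h1
    refine h1.trans (mul_le_mul_of_nonneg_right ?_ hE)
    exact_mod_cast (by omega : b - b' ≤ M)

theorem crr_sum (f : ℕ → ℝ) (t : ℝ) (X M : ℕ) (hM : 0 < M) :
    ∑ b ∈ range M, crr f t X M b = cnt f X t := by
  rw [cnt_eq]
  unfold crr
  rw [Finset.sum_comm]
  refine Finset.sum_congr rfl fun n _ => ?_
  rw [Finset.sum_eq_single (n % M)]
  · simp
  · intro b hb hne
    rw [Finset.mem_range] at hb
    rw [Nat.mod_eq_of_lt hb, if_neg (Ne.symm hne)]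
  · intro h
    exact absurd (Finset.mem_range.mpr (Nat.mod_lt n hM)) h

theorem crr_bound (f : ℕ → ℝ) (t : ℝ) (X M : ℕ) (hM : 0 < M) :
    |(M : ℝ) * crr f t X M 0 - cnt f X t| ≤ M * (M * (2 + 2 * (ex f X : ℝ))) := by
  rw [← crr_sum f t X M hM]
  have h1 : (M : ℝ) * crr f t X M 0 - ∑ b ∈ range M, crr f t X M b =
      ∑ b ∈ range M, (crr f t X M 0 - crr f t X M b) := by
    rw [Finset.sum_sub_distrib, Finset.sum_const, Finset.card_range, nsmul_eq_mul]
  rw [h1]
  refine (Finset.abs_sum_le_sum_abs _ _).trans ?_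
  calc ∑ b ∈ range M, |crr f t X M 0 - crr f t X M b|
      ≤ ∑ _b ∈ range M, (M : ℝ) * (2 + 2 * (ex f X : ℝ)) :=
        Finset.sum_le_sum fun b hb => crr_diff f t X M 0 b hM (Finset.mem_range.mp hb)
    _ = M * (M * (2 + 2 * (ex f X : ℝ))) := by
        rw [Finset.sum_const, Finset.card_range, nsmul_eq_mul]

theorem level_bij (f : ℕ → ℝ) (hf : Addi f) (q a : ℕ) (hq : q.Prime) (X : ℕ) (t : ℝ) :
    crr f t X (q ^ a) 0 - crr f t X (q * q ^ a) 0 =
      cnt f (X / q ^ a) (t - f (q ^ a)) - crr f (t - f (q ^ a)) (X / q ^ a) q 0 := by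
  have hr : 0 < q ^ a := pow_pos hq.pos a
  have hL : crr f t X (q ^ a) 0 - crr f t X (q * q ^ a) 0 =
      ∑ n ∈ (Icc 1 X).filter (fun n => q ^ a ∣ n ∧ ¬ q * q ^ a ∣ n), uu f t n := by
    rw [Finset.sum_filter]
    unfold crr
    rw [← Finset.sum_sub_distrib]
    refine Finset.sum_congr rfl fun n _ => ?_
    have e1 : (n % (q ^ a) = 0 % (q ^ a)) ↔ q ^ a ∣ n := by
      rw [Nat.zero_mod, Nat.dvd_iff_mod_eq_zero]
    have e2 : (n % (q * q ^ a) = 0 % (q * q ^ a)) ↔ q * q ^ a ∣ n := by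
      rw [Nat.zero_mod, Nat.dvd_iff_mod_eq_zero]
    simp only [e1, e2]
    by_cases h1 : q * q ^ a ∣ n
    · have h2 : q ^ a ∣ n := (Dvd.intro_left q rfl).trans h1
      simp [h1, h2]
    · by_cases h2 : q ^ a ∣ n
      · simp [h1, h2]
      · simp [h1, h2]
  have hR : (cnt f (X / q ^ a) (t - f (q ^ a)) : ℝ) - crr f (t - f (q ^ a)) (X / q ^ a) q 0 =
      ∑ m ∈ (Icc 1 (X / q ^ a)).filter (fun m => ¬ q ∣ m), uu f (t - f (q ^ a)) m := by
    rw [Finset.sum_filter, cnt_eq]
    unfold crr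
    rw [← Finset.sum_sub_distrib]
    refine Finset.sum_congr rfl fun n _ => ?_
    have e1 : (n % q = 0 % q) ↔ q ∣ n := by
      rw [Nat.zero_mod, Nat.dvd_iff_mod_eq_zero]
    simp only [e1]
    by_cases h1 : q ∣ n
    · simp [h1]
    · simp [h1]
  rw [hL, hR]
  refine Finset.sum_nbij' (fun n => n / q ^ a) (fun m => q ^ a * m) ?_ ?_ ?_ ?_ ?_
  · intro n hn
    rw [Finset.mem_filter, Finset.mem_Icc] at hn ⊢
    obtain ⟨⟨h1, h2⟩, ⟨m, rfl⟩, h4⟩ := hn
    rw [Nat.mul_div_cancel_left _ hr]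
    refine ⟨⟨?_, ?_⟩, ?_⟩
    · rcases Nat.eq_zero_or_pos m with h | h
      · subst h; simp at h1
      · exact h
    · rw [Nat.le_div_iff_mul_le hr, mul_comm]
      exact h2
    · intro h
      apply h4
      rw [mul_comm q]
      exact Nat.mul_dvd_mul_left _ h
  · intro m hm
    rw [Finset.mem_filter, Finset.mem_Icc] at hm ⊢
    obtain ⟨⟨h1, h2⟩, h3⟩ := hm
    refine ⟨⟨Nat.mul_pos hr h1, ?_⟩, Dvd.intro _ rfl, ?_⟩
    · rw [Nat.le_div_iff_mul_le hr, mul_comm] at h2
      exact h2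
    · intro h
      apply h3
      rw [mul_comm q] at h
      exact Nat.dvd_of_mul_dvd_mul_left hr h
  · intro n hn
    rw [Finset.mem_filter] at hn
    exact Nat.mul_div_cancel' hn.2.1
  · intro m _
    exact Nat.mul_div_cancel_left _ hr
  · intro n hn
    rw [Finset.mem_filter, Finset.mem_Icc] at hn
    obtain ⟨⟨h1, h2⟩, ⟨m, rfl⟩, h4⟩ := hn
    rw [Nat.mul_div_cancel_left _ hr]
    have hm : 1 ≤ m := by
      rcases Nat.eq_zero_or_pos m with h | h
      · subst h; simp at h1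
      · exact h
    have hqm : ¬ q ∣ m := by
      intro h
      apply h4
      rw [mul_comm q]
      exact Nat.mul_dvd_mul_left _ h
    have hcop : Nat.Coprime (q ^ a) m := Nat.Coprime.pow_left a ((Nat.Prime.coprime_iff_not_dvd hq).mpr hqm)
    have hfe := hf (q ^ a) m hr hm hcop
    unfold uu
    rw [hfe]
    congr 1
    rw [eq_iff_iff]
    constructor <;> intro h <;> linarith

theorem ex_mono (f : ℕ → ℝ) {X Y : ℕ} (h : X ≤ Y) : ex f X ≤ ex f Y := by
  unfold ex
  apply Finset.card_le_card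
  apply Finset.filter_subset_filter
  exact Finset.Icc_subset_Icc_right h

/-- TARGET -/
theorem prime_pow_rel (f : ℕ → ℝ) (hf : Addi f) (q a : ℕ) (hq : q.Prime) (ha : 1 ≤ a) :
    ∃ C : ℝ, 0 ≤ C ∧ ∀ (X : ℕ) (t : ℝ),
      |(cnt f X t : ℝ) - ((q ^ a : ℕ) : ℝ) * (cnt f (X / q ^ a) (t - f (q ^ a)) : ℝ)| ≤
        C * (1 + ex f X) := by
  have hr : 0 < q ^ a := pow_pos hq.pos a
  set r : ℕ := q ^ a with hrdef
  refine ⟨4 * r * (r + q * r + q), by positivity, ?_⟩
  intro X t
  have hb := level_bij f hf q a hq X t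
  rw [← hrdef] at hb
  have h1 := crr_bound f t X r hr
  have h2 := crr_bound f t X (q * r) (Nat.mul_pos hq.pos hr)
  have h3 := crr_bound f (t - f r) (X / r) q hq.pos
  have hex : (ex f (X / r) : ℝ) ≤ ex f X := by
    exact_mod_cast ex_mono f (Nat.div_le_self X r)
  set A : ℝ := (cnt f X t : ℝ)
  set B : ℝ := (cnt f (X / r) (t - f r) : ℝ)
  set c1 := crr f t X r 0
  set c2 := crr f t X (q * r) 0
  set c3 := crr f (t - f r) (X / r) q 0
  set E : ℝ := (ex f X : ℝ)
  set E' : ℝ := (ex f (X / r) : ℝ)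
  have hE' : 0 ≤ E' := Nat.cast_nonneg _
  have hq2 : (2 : ℝ) ≤ q := by exact_mod_cast hq.two_le
  have hr1 : (1 : ℝ) ≤ r := by exact_mod_cast hr
  push_cast at h2
  -- (q - 1) A - r (q - 1) B = q (A - r c1) - (A - q r c2) + r (q B ... )
  have key : ((q : ℝ) - 1) * (A - r * B) =
      - (q : ℝ) * ((r : ℝ) * c1 - A) + ((q : ℝ) * r * c2 - A) - r * ((q : ℝ) * c3 - B) := by
    have : (q : ℝ) * r * c1 - q * r * c2 = q * r * B - q * r * c3 := by
      rw [← mul_sub, ← mul_sub, hb]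
    linarith
  have habs : ((q : ℝ) - 1) * |A - r * B| ≤
      q * (r * (r * (2 + 2 * E))) + (q * r) * ((q * r) * (2 + 2 * E)) +
        r * (q * (q * (2 + 2 * E))) := by
    have h4 : ((q : ℝ) - 1) * |A - r * B| = |((q : ℝ) - 1) * (A - r * B)| := by
      rw [abs_mul, abs_of_nonneg (by linarith : (0 : ℝ) ≤ (q : ℝ) - 1)]
    rw [h4, key]
    have h5 : |- (q : ℝ) * ((r : ℝ) * c1 - A) + ((q : ℝ) * r * c2 - A) - r * ((q : ℝ) * c3 - B)| ≤
        q * |(r : ℝ) * c1 - A| + |(q : ℝ) * r * c2 - A| + r * |(q : ℝ) * c3 - B| := by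
      have e1 := abs_sub (- (q : ℝ) * ((r : ℝ) * c1 - A) + ((q : ℝ) * r * c2 - A))
        (r * ((q : ℝ) * c3 - B))
      have e2 := abs_add_le (- (q : ℝ) * ((r : ℝ) * c1 - A)) ((q : ℝ) * r * c2 - A)
      have e3 : |- (q : ℝ) * ((r : ℝ) * c1 - A)| = q * |(r : ℝ) * c1 - A| := by
        rw [abs_mul, abs_neg, abs_of_nonneg (by linarith : (0 : ℝ) ≤ (q : ℝ))]
      have e4 : |(r : ℝ) * ((q : ℝ) * c3 - B)| = r * |(q : ℝ) * c3 - B| := by
        rw [abs_mul, abs_of_nonneg (by linarith : (0 : ℝ) ≤ (r : ℝ))]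
      linarith
    refine h5.trans ?_
    have g1 : (q : ℝ) * |(r : ℝ) * c1 - A| ≤ q * (r * (r * (2 + 2 * E))) :=
      mul_le_mul_of_nonneg_left h1 (by linarith)
    have g3 : (r : ℝ) * |(q : ℝ) * c3 - B| ≤ r * (q * (q * (2 + 2 * E))) := by
      apply mul_le_mul_of_nonneg_left _ (by linarith)
      refine h3.trans ?_
      apply mul_le_mul_of_nonneg_left _ (by linarith)
      apply mul_le_mul_of_nonneg_left _ (by linarith)
      linarith
    linarith
  -- divide by q - 1 ≥ q / 2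
  have hE : 0 ≤ E := Nat.cast_nonneg _
  have hhalf : (q : ℝ) / 2 * |A - r * B| ≤ ((q : ℝ) - 1) * |A - r * B| :=
    mul_le_mul_of_nonneg_right (by linarith) (abs_nonneg _)
  have h6 : (q : ℝ) / 2 * |A - r * B| ≤ (q : ℝ) / 2 * (4 * r * (r + q * r + q) * (1 + E)) := by
    refine hhalf.trans (habs.trans (le_of_eq ?_))
    ring
  exact le_of_mul_le_mul_left h6 (by linarith)

end Pool.Agent.Descents.A2
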