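import Mathlib
import Pool.Agent.Helper564.Desc.Defs
import Pool.Agent.Helper564.Desc.A2

set_option autoImplicit false

open Finset Filter Topology

namespace Pool.Agent.Descents.A4

open Pool.Agent.Descents
open Pool.Agent.Descents.A2





theorem sp_cnt_mono (f : ℕ → ℝ) (X : ℕ) {t u : ℝ} (h : t ≤ u) : cnt f X t ≤ cnt f X u := by
  unfold cnt
  refine Finset.card_le_card fun n hn => ?_
  rw [Finset.mem_filter] at hn ⊢
  exact ⟨hn.1, hn.2.trans h⟩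

theorem sp_cnt_le (f : ℕ → ℝ) (X : ℕ) (t : ℝ) : cnt f X t ≤ X := by
  unfold cnt
  refine (Finset.card_filter_le _ _).trans ?_
  simp

theorem sp_cnt_monoX (f : ℕ → ℝ) {Y Z : ℕ} (h : Y ≤ Z) (t : ℝ) : cnt f Y t ≤ cnt f Z t := by
  unfold cnt
  refine Finset.card_le_card fun n hn => ?_
  rw [Finset.mem_filter, Finset.mem_Icc] at hn ⊢
  exact ⟨⟨hn.1.1, hn.1.2.trans h⟩, hn.2⟩

theorem sp_cnt_sub (f : ℕ → ℝ) {Y Z : ℕ} (h : Y ≤ Z) (t : ℝ) : cnt f Z t ≤ cnt f Y t + (Z - Y) := by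
  classical
  unfold cnt
  have h1 : (Icc 1 Z).filter (fun n => f n ≤ t) ⊆
      ((Icc 1 Y).filter (fun n => f n ≤ t)) ∪ Ioc Y Z := by
    intro n hn
    rw [Finset.mem_filter, Finset.mem_Icc] at hn
    rw [Finset.mem_union, Finset.mem_filter, Finset.mem_Icc, Finset.mem_Ioc]
    by_cases hY : n ≤ Y
    · exact Or.inl ⟨⟨hn.1.1, hY⟩, hn.2⟩
    · exact Or.inr ⟨by omega, hn.1.2⟩
  refine (Finset.card_le_card h1).trans ((Finset.card_union_le _ _).trans ?_)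
  rw [Nat.card_Ioc]

theorem sp_ex_mono (f : ℕ → ℝ) {Y Z : ℕ} (h : Y ≤ Z) : ex f Y ≤ ex f Z := by
  unfold ex
  refine Finset.card_le_card fun n hn => ?_
  rw [Finset.mem_filter, Finset.mem_Icc] at hn ⊢
  exact ⟨⟨hn.1.1, hn.1.2.trans h⟩, hn.2⟩

theorem sp_iter (f : ℕ → ℝ) (r : ℕ) (c : ℝ)
    (h : ∃ C : ℝ, 0 ≤ C ∧ ∀ (X : ℕ) (t : ℝ),
      |(cnt f X t : ℝ) - (r : ℝ) * (cnt f (X / r) (t - c) : ℝ)| ≤ C * (1 + ex f X)) (k : ℕ) :
    ∃ C : ℝ, 0 ≤ C ∧ ∀ (X : ℕ) (t : ℝ),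
      |(cnt f X t : ℝ) - ((r ^ k : ℕ) : ℝ) * (cnt f (X / r ^ k) (t - k * c) : ℝ)| ≤
        C * (1 + ex f X) := by
  obtain ⟨C, hC, h⟩ := h
  induction k with
  | zero =>
    refine ⟨0, le_rfl, fun X t => ?_⟩
    simp
  | succ k ih =>
    obtain ⟨D, hD, ih⟩ := ih
    refine ⟨D + ((r ^ k : ℕ) : ℝ) * C, by positivity, fun X t => ?_⟩
    have h1 := ih X t
    have h2 := h (X / r ^ k) (t - k * c)
    have h3 : (ex f (X / r ^ k) : ℝ) ≤ ex f X := by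
      exact_mod_cast sp_ex_mono f (Nat.div_le_self _ _)
    have h4 : X / r ^ (k + 1) = X / r ^ k / r := by
      rw [pow_succ, Nat.div_div_eq_div_mul]
    have h5 : t - ((k + 1 : ℕ) : ℝ) * c = t - k * c - c := by push_cast; ring
    rw [h4, h5]
    have h6 : (cnt f X t : ℝ) - ((r ^ (k + 1) : ℕ) : ℝ) * (cnt f (X / r ^ k / r) (t - k * c - c) : ℝ) =
        ((cnt f X t : ℝ) - ((r ^ k : ℕ) : ℝ) * (cnt f (X / r ^ k) (t - k * c) : ℝ)) +
        ((r ^ k : ℕ) : ℝ) * ((cnt f (X / r ^ k) (t - k * c) : ℝ) -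
          (r : ℝ) * (cnt f (X / r ^ k / r) (t - k * c - c) : ℝ)) := by
      push_cast
      ring
    rw [h6]
    refine (abs_add_le _ _).trans ?_
    rw [abs_mul, abs_of_nonneg (show (0 : ℝ) ≤ ((r ^ k : ℕ) : ℝ) from Nat.cast_nonneg _)]
    have h7 : ((r ^ k : ℕ) : ℝ) * |(cnt f (X / r ^ k) (t - k * c) : ℝ) -
          (r : ℝ) * (cnt f (X / r ^ k / r) (t - k * c - c) : ℝ)| ≤
        ((r ^ k : ℕ) : ℝ) * (C * (1 + ex f X)) := by
      refine mul_le_mul_of_nonneg_left (h2.trans ?_) (Nat.cast_nonneg _)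
      refine mul_le_mul_of_nonneg_left ?_ hC
      linarith
    calc _ ≤ D * (1 + ex f X) + ((r ^ k : ℕ) : ℝ) * (C * (1 + ex f X)) := add_le_add h1 h7
      _ = _ := by ring

theorem sp_core (f : ℕ → ℝ) (hd : DZ f) (A B : ℕ) (u1 u2 C1 C2 δ : ℝ) (hA : 1 ≤ A) (hAB : A ≤ B)
    (hδ : 0 < δ) (hB : (B : ℝ) ≤ (1 + 2 * δ) * A)
    (h1 : ∀ (X : ℕ) (t : ℝ), |(cnt f X t : ℝ) - (A : ℝ) * (cnt f (X / A) (t - u1) : ℝ)| ≤
        C1 * (1 + ex f X))
    (h2 : ∀ (X : ℕ) (t : ℝ), |(cnt f X t : ℝ) - (B : ℝ) * (cnt f (X / B) (t - u2) : ℝ)| ≤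
        C2 * (1 + ex f X)) :
    ∃ Z0 : ℕ, ∀ Z : ℕ, Z0 ≤ Z → ∀ t : ℝ, |F f Z t - F f Z (t + (u1 - u2))| ≤ 6 * δ := by
  have hA0 : (0 : ℝ) < A := by exact_mod_cast hA
  have hB0 : (0 : ℝ) < B := by exact_mod_cast (lt_of_lt_of_le hA hAB)
  have hlim : Tendsto (fun Z : ℕ => (C1 + C2) * (1 / ((A * Z : ℕ) : ℝ) +
      (ex f (A * Z) : ℝ) / ((A * Z : ℕ) : ℝ))) atTop (𝓝 0) := by
    have ht : Tendsto (fun Z : ℕ => A * Z) atTop atTop :=
      Filter.tendsto_id.const_mul_atTop' hA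
    have h3 : Tendsto (fun Z : ℕ => (ex f (A * Z) : ℝ) / ((A * Z : ℕ) : ℝ)) atTop (𝓝 0) := hd.comp ht
    have h4 : Tendsto (fun Z : ℕ => (1 : ℝ) / ((A * Z : ℕ) : ℝ)) atTop (𝓝 0) :=
      tendsto_one_div_atTop_nhds_zero_nat.comp ht
    have h5 := (h4.add h3).const_mul (C1 + C2)
    simpa using h5
  obtain ⟨Z1, hZ1⟩ := Filter.eventually_atTop.mp (hlim.eventually_le_const (show (0:ℝ) < δ from hδ))
  obtain ⟨Z2, hZ2⟩ := exists_nat_gt (1 / δ)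
  refine ⟨max Z1 (Z2 + 1), fun Z hZ t => ?_⟩
  have hZa : Z1 ≤ Z := (le_max_left _ _).trans hZ
  have hZb : Z2 + 1 ≤ Z := (le_max_right _ _).trans hZ
  have hZpos : (0 : ℝ) < Z := by
    have : 0 < Z := by omega
    exact_mod_cast this
  have hZδ : 1 ≤ δ * Z := by
    have h3 : (Z2 : ℝ) ≤ Z := by
      have : Z2 ≤ Z := by omega
      exact_mod_cast this
    have h4 : 1 / δ ≤ Z := by linarith
    rw [div_le_iff₀ hδ] at h4
    linarith
  set X := A * Z with hX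
  have hXA : X / A = Z := Nat.mul_div_cancel_left Z hA
  set Y := X / B with hY
  have hYZ : Y ≤ Z := by
    rw [hY, hX]
    calc A * Z / B ≤ B * Z / B := Nat.div_le_div_right (Nat.mul_le_mul_right Z hAB)
      _ = Z := Nat.mul_div_cancel_left Z (by omega)
  have hYl : (Z : ℝ) - Y ≤ 2 * δ * Z + 1 := by
    have h3 : (X : ℝ) / B < Y + 1 := by
      have h4 : X < B * (Y + 1) := by
        rw [hY]
        exact Nat.lt_mul_div_succ X (by omega)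
      rw [div_lt_iff₀ hB0]
      have h5 : (X : ℝ) < B * (Y + 1) := by exact_mod_cast h4
      linarith
    have h4 : (Z : ℝ) * (1 - 2 * δ) ≤ (X : ℝ) / B := by
      rw [le_div_iff₀ hB0, hX]
      push_cast
      have h5 : (Z : ℝ) * (1 - 2 * δ) * B ≤ (Z : ℝ) * A := by
        rcases le_or_gt (1 - 2 * δ) 0 with h6 | h6
        · have : (Z : ℝ) * (1 - 2 * δ) * B ≤ 0 :=
            mul_nonpos_of_nonpos_of_nonneg (mul_nonpos_of_nonneg_of_nonpos hZpos.le h6) hB0.le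
          have : 0 ≤ (Z : ℝ) * A := by positivity
          linarith
        · have h7 : (1 - 2 * δ) * B ≤ (1 - 2 * δ) * ((1 + 2 * δ) * A) :=
            mul_le_mul_of_nonneg_left hB h6.le
          have h8 : (1 - 2 * δ) * ((1 + 2 * δ) * A) ≤ A := by nlinarith [sq_nonneg δ]
          have h9 := mul_le_mul_of_nonneg_left (h7.trans h8) hZpos.le
          linarith
      linarith
    linarith
  have h3 := h1 X (t + u1)
  have h4 := h2 X (t + u1)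
  rw [hXA, add_sub_cancel_right] at h3
  rw [show t + u1 - u2 = t + (u1 - u2) by ring] at h4
  set v := u1 - u2 with hv
  -- comparison at level Y and Z
  have h5 : |(A : ℝ) * (cnt f Z (t + v) : ℝ) - B * (cnt f Y (t + v) : ℝ)| ≤ A * (4 * δ * Z + 1) := by
    have e1 : (cnt f Y (t + v) : ℝ) ≤ cnt f Z (t + v) := by exact_mod_cast sp_cnt_monoX f hYZ _
    have e2 : (cnt f Z (t + v) : ℝ) ≤ cnt f Y (t + v) + ((Z : ℝ) - Y) := by
      have := sp_cnt_sub f hYZ (t + v)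
      have h6 : ((Z - Y : ℕ) : ℝ) = (Z : ℝ) - Y := Nat.cast_sub hYZ
      rw [← h6]
      exact_mod_cast this
    have e3 : (cnt f Y (t + v) : ℝ) ≤ Z := by
      have := (sp_cnt_le f Y (t + v)).trans hYZ
      exact_mod_cast this
    have e4 : (A : ℝ) ≤ B := by exact_mod_cast hAB
    have e5 : (0 : ℝ) ≤ cnt f Y (t + v) := Nat.cast_nonneg _
    rw [abs_le]
    constructor
    · have e6 : (B - A) * (cnt f Y (t + v) : ℝ) ≤ (2 * δ * A) * Z :=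
        mul_le_mul (by linarith) e3 e5 (by positivity)
      have e7 : (A : ℝ) * cnt f Y (t + v) ≤ A * cnt f Z (t + v) := mul_le_mul_of_nonneg_left e1 hA0.le
      have e8 : 0 ≤ (A : ℝ) * δ * Z := by positivity
      nlinarith
    · have e6 : (A : ℝ) * cnt f Y (t + v) ≤ B * cnt f Y (t + v) := mul_le_mul_of_nonneg_right e4 e5
      have e7 : (A : ℝ) * (cnt f Z (t + v) - cnt f Y (t + v)) ≤ A * (2 * δ * Z + 1) :=
        mul_le_mul_of_nonneg_left (by linarith) hA0.le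
      have e8 : 0 ≤ (A : ℝ) * δ * Z := by positivity
      nlinarith
  have h6 : |(A : ℝ) * (cnt f Z t : ℝ) - A * (cnt f Z (t + v) : ℝ)| ≤
      A * (4 * δ * Z + 1) + (C1 + C2) * (1 + ex f X) := by
    have e1 : (A : ℝ) * (cnt f Z t : ℝ) - A * (cnt f Z (t + v) : ℝ) =
        -((cnt f X (t + u1) : ℝ) - A * (cnt f Z t : ℝ)) +
        ((cnt f X (t + u1) : ℝ) - B * (cnt f Y (t + v) : ℝ)) -
        ((A : ℝ) * (cnt f Z (t + v) : ℝ) - B * (cnt f Y (t + v) : ℝ)) := by ring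
    rw [e1]
    refine (abs_sub _ _).trans ?_
    have e2 := abs_add_le (-((cnt f X (t + u1) : ℝ) - A * (cnt f Z t : ℝ)))
      ((cnt f X (t + u1) : ℝ) - B * (cnt f Y (t + v) : ℝ))
    rw [abs_neg] at e2
    linarith
  have h7 := hZ1 Z hZa
  have hXr : ((A * Z : ℕ) : ℝ) = A * Z := by push_cast; ring
  have hAZ : (0 : ℝ) < A * Z := by positivity
  have h8 : (C1 + C2) * (1 + ex f X) ≤ δ * (A * Z) := by
    have e1 : (C1 + C2) * (1 / ((A * Z : ℕ) : ℝ) + (ex f (A * Z) : ℝ) / ((A * Z : ℕ) : ℝ)) =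
        ((C1 + C2) * (1 + ex f X)) / (A * Z) := by
      rw [hXr, ← hX]
      ring
    rw [e1, div_le_iff₀ hAZ] at h7
    exact h7
  have h9 : |F f Z t - F f Z (t + v)| =
      |(A : ℝ) * (cnt f Z t : ℝ) - A * (cnt f Z (t + v) : ℝ)| / (A * Z) := by
    unfold F
    rw [← sub_div, abs_div, abs_of_pos hZpos, ← mul_sub, abs_mul, abs_of_pos hA0]
    field_simp
  rw [h9, div_le_iff₀ hAZ]
  have h10 : (A : ℝ) * 1 ≤ A * (δ * Z) := mul_le_mul_of_nonneg_left hZδ hA0.le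
  nlinarith

theorem sp_F_mono (f : ℕ → ℝ) (X : ℕ) {t u : ℝ} (h : t ≤ u) : F f X t ≤ F f X u := by
  unfold F
  refine div_le_div_of_nonneg_right ?_ (Nat.cast_nonneg _)
  exact_mod_cast sp_cnt_mono f X h

theorem sp_fin (f : ℕ → ℝ) (s v ε : ℝ) (hv : s ≤ |v|) (Z : ℕ)
    (h : ∀ t : ℝ, |F f Z t - F f Z (t + v)| ≤ ε) (t : ℝ) : F f Z (t + s) - F f Z t ≤ ε := by
  rcases le_or_gt 0 v with h0 | h0
  · rw [abs_of_nonneg h0] at hv
    have h1 := h t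
    have h2 := sp_F_mono f Z (show t + s ≤ t + v by linarith)
    rw [abs_le] at h1
    linarith [h1.1]
  · rw [abs_of_neg h0] at hv
    have h1 := h (t - v)
    rw [sub_add_cancel] at h1
    have h2 := sp_F_mono f Z (show t + s ≤ t - v by linarith)
    rw [abs_le] at h1
    linarith [h1.2]

theorem sp_exp (δ : ℝ) (h0 : 0 ≤ δ) (h1 : δ ≤ 1) : Real.exp δ ≤ 1 + 2 * δ := by
  have h2 := Real.abs_exp_sub_one_sub_id_le (x := δ) (by rw [abs_of_nonneg h0]; exact h1)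
  rw [abs_le] at h2
  nlinarith [h2.2]

theorem sp_close (A B : ℕ) (hA : 1 ≤ A) (hB : 1 ≤ B) (δ : ℝ) (h0 : 0 ≤ δ) (h1 : δ ≤ 1)
    (h : |Real.log A - Real.log B| ≤ δ) : (B : ℝ) ≤ (1 + 2 * δ) * A := by
  have hA0 : (0 : ℝ) < A := by exact_mod_cast hA
  have hB0 : (0 : ℝ) < B := by exact_mod_cast hB
  rw [abs_le] at h
  have h2 : Real.log B ≤ δ + Real.log A := by linarith [h.1]
  have h3 : (B : ℝ) ≤ Real.exp (δ + Real.log A) := by
    rw [← Real.log_le_iff_le_exp hB0]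
    exact h2
  rw [Real.exp_add, Real.exp_log hA0] at h3
  exact h3.trans (mul_le_mul_of_nonneg_right (sp_exp δ h0 h1) hA0.le)

theorem sp_dirichlet (L1 L2 p1 p2 s δ : ℝ) (hL1 : 0 < L1) (hL2 : 0 < L2) (hδ : 0 < δ)
    (hD : p1 * L2 ≠ p2 * L1) :
    ∃ a b : ℕ, 1 ≤ a ∧ 1 ≤ b ∧ |a * L1 - b * L2| ≤ δ ∧ s ≤ |a * p1 - b * p2| := by
  set D := p1 * L2 - p2 * L1 with hDdef
  have hD0 : 0 < |D| := abs_pos.mpr (sub_ne_zero.mpr hD)
  obtain ⟨k, hk⟩ := exists_nat_gt (max 1 (s * (2 * L2) / |D|))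
  have hk1 : (1 : ℝ) < k := (le_max_left _ _).trans_lt hk
  have hk2 : s * (2 * L2) / |D| < k := (le_max_right _ _).trans_lt hk
  have hk0 : (0 : ℝ) < k := by linarith
  -- theta
  set θ := min (δ / k) (|D| / (2 * (|p2| + 1))) with hθ
  have hθ0 : 0 < θ := lt_min (by positivity) (by positivity)
  obtain ⟨N, hN⟩ := exists_nat_gt (max (L2 / θ) (L2 / L1))
  have hN1 : L2 / θ < N := (le_max_left _ _).trans_lt hN
  have hN2 : L2 / L1 < N := (le_max_right _ _).trans_lt hN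
  have hN0 : (0 : ℝ) < N := lt_trans (by positivity) hN1
  have hNpos : 0 < N := by exact_mod_cast hN0
  obtain ⟨j, a, ha0, haN, haj⟩ := Real.exists_int_int_abs_mul_sub_le (L1 / L2) hNpos
  have hN3 : (1 : ℝ) / (N + 1) < 1 / N := one_div_lt_one_div_of_lt hN0 (by linarith)
  have hN4 : (1 : ℝ) / N < L1 / L2 := by
    rw [div_lt_iff₀ hL1] at hN2
    rw [div_lt_div_iff₀ hN0 hL2]
    linarith
  have ha1 : (1 : ℝ) ≤ a := by exact_mod_cast ha0
  have hj0 : 0 < j := by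
    have h1 := (abs_le.mp haj).2
    have h2 : L1 / L2 ≤ a * (L1 / L2) := le_mul_of_one_le_left (by positivity) ha1
    have h3 : (0 : ℝ) < j := by linarith
    exact_mod_cast h3
  obtain ⟨a', rfl⟩ := Int.eq_ofNat_of_zero_le ha0.le
  obtain ⟨b', rfl⟩ := Int.eq_ofNat_of_zero_le hj0.le
  have ha' : 1 ≤ a' := by exact_mod_cast ha0
  have hb' : 1 ≤ b' := by exact_mod_cast hj0
  have hkn : 1 ≤ k := by exact_mod_cast hk1.le
  have hclose : |(a' : ℝ) * L1 - b' * L2| ≤ θ := by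
    have h1 : (a' : ℝ) * L1 - b' * L2 = L2 * (((a' : ℤ) : ℝ) * (L1 / L2) - ((b' : ℤ) : ℝ)) := by
      push_cast
      field_simp
    rw [h1, abs_mul, abs_of_pos hL2]
    have h2 : L2 * |((a' : ℤ) : ℝ) * (L1 / L2) - ((b' : ℤ) : ℝ)| ≤ L2 * (1 / (N + 1)) :=
      mul_le_mul_of_nonneg_left haj hL2.le
    have h3 : L2 * (1 / ((N : ℝ) + 1)) ≤ L2 * (1 / N) := mul_le_mul_of_nonneg_left hN3.le hL2.le
    have h4 : L2 * (1 / (N : ℝ)) ≤ θ := by
      rw [div_lt_iff₀ hθ0] at hN1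
      rw [mul_one_div, div_le_iff₀ hN0]
      linarith
    linarith
  refine ⟨k * a', k * b', Nat.one_le_iff_ne_zero.mpr (by positivity),
    Nat.one_le_iff_ne_zero.mpr (by positivity), ?_, ?_⟩
  · have h1 : ((k * a' : ℕ) : ℝ) * L1 - ((k * b' : ℕ) : ℝ) * L2 = k * ((a' : ℝ) * L1 - b' * L2) := by
      push_cast; ring
    rw [h1, abs_mul, abs_of_pos hk0]
    have h2 : θ ≤ δ / k := min_le_left _ _
    calc (k : ℝ) * |(a' : ℝ) * L1 - b' * L2| ≤ k * (δ / k) :=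
          mul_le_mul_of_nonneg_left (hclose.trans h2) hk0.le
      _ = δ := by field_simp
  · have h1 : ((k * a' : ℕ) : ℝ) * p1 - ((k * b' : ℕ) : ℝ) * p2 = k * ((a' : ℝ) * p1 - b' * p2) := by
      push_cast; ring
    rw [h1, abs_mul, abs_of_pos hk0]
    have h2 : L2 * ((a' : ℝ) * p1 - b' * p2) = a' * D + p2 * (a' * L1 - b' * L2) := by
      rw [hDdef]; ring
    have h3 : |D| / 2 ≤ L2 * |(a' : ℝ) * p1 - b' * p2| := by
      have h20 : L2 * |(a' : ℝ) * p1 - b' * p2| = |L2 * ((a' : ℝ) * p1 - b' * p2)| := by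
        rw [abs_mul, abs_of_pos hL2]
      rw [h20, h2]
      have h4 : |p2 * ((a' : ℝ) * L1 - b' * L2)| ≤ |D| / 2 := by
        rw [abs_mul]
        have h5 : θ ≤ |D| / (2 * (|p2| + 1)) := min_le_right _ _
        have h6 : |p2| * |(a' : ℝ) * L1 - b' * L2| ≤ (|p2| + 1) * (|D| / (2 * (|p2| + 1))) :=
          mul_le_mul (by linarith) (hclose.trans h5) (abs_nonneg _) (by positivity)
        have h7 : (|p2| + 1) * (|D| / (2 * (|p2| + 1))) = |D| / 2 := by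
          have : |p2| + 1 ≠ 0 := by positivity
          field_simp
        linarith
      have h8 : |D| ≤ |(a' : ℝ) * D| := by
        rw [abs_mul, abs_of_nonneg (show (0 : ℝ) ≤ (a' : ℝ) from Nat.cast_nonneg a')]
        have : (1 : ℝ) ≤ a' := by exact_mod_cast ha'
        exact le_mul_of_one_le_left (abs_nonneg _) this
      have h9 := abs_sub_abs_le_abs_sub ((a' : ℝ) * D) (-(p2 * ((a' : ℝ) * L1 - b' * L2)))
      rw [abs_neg, sub_neg_eq_add] at h9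
      linarith
    have h10 : s * (2 * L2) < k * |D| := by
      rw [div_lt_iff₀ hD0] at hk2
      exact hk2
    have h11 : s * (2 * L2) ≤ (k * |(a' : ℝ) * p1 - b' * p2|) * (2 * L2) := by nlinarith
    exact le_of_mul_le_mul_right h11 (by positivity)

/-- TARGET: the law of `f` on `[1, X]` is spread out at bounded scale -/
theorem spread (f : ℕ → ℝ) (hf : Addi f) (hd : DZ f)
    (hne : ∃ r₁ r₂ : ℕ, IsPrimePow r₁ ∧ IsPrimePow r₂ ∧
      f r₁ * Real.log r₂ ≠ f r₂ * Real.log r₁) (s ε : ℝ) (hε : 0 < ε) :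
    ∃ X0 : ℕ, ∀ X : ℕ, X0 ≤ X → ∀ t : ℝ, F f X (t + s) - F f X t ≤ ε := by
  obtain ⟨r₁, r₂, hr₁, hr₂, hne⟩ := hne
  set δ := min 1 (ε / 6) with hδdef
  have hδ0 : 0 < δ := lt_min one_pos (by positivity)
  have hδ1 : δ ≤ 1 := min_le_left _ _
  have hδε : 6 * δ ≤ ε := by
    have : δ ≤ ε / 6 := min_le_right _ _
    linarith
  have h2₁ : 2 ≤ r₁ := hr₁.two_le
  have h2₂ : 2 ≤ r₂ := hr₂.two_le
  have hL₁ : 0 < Real.log r₁ := Real.log_pos (by exact_mod_cast (by omega : 1 < r₁))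
  have hL₂ : 0 < Real.log r₂ := Real.log_pos (by exact_mod_cast (by omega : 1 < r₂))
  obtain ⟨a, b, ha, hb, hab, hs⟩ := sp_dirichlet (Real.log r₁) (Real.log r₂) (f r₁) (f r₂) s δ
    hL₁ hL₂ hδ0 hne
  have hrel : ∀ r : ℕ, IsPrimePow r → ∃ C : ℝ, 0 ≤ C ∧ ∀ (X : ℕ) (t : ℝ),
      |(cnt f X t : ℝ) - (r : ℝ) * (cnt f (X / r) (t - f r) : ℝ)| ≤ C * (1 + ex f X) := by
    intro r hr
    rw [isPrimePow_nat_iff] at hr
    obtain ⟨q, k, hq, hk, rfl⟩ := hr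
    exact prime_pow_rel f hf q k hq hk
  obtain ⟨C₁, -, h₁⟩ := sp_iter f r₁ (f r₁) (hrel r₁ hr₁) a
  obtain ⟨C₂, -, h₂⟩ := sp_iter f r₂ (f r₂) (hrel r₂ hr₂) b
  have hA : 1 ≤ r₁ ^ a := Nat.one_le_pow _ _ (by omega)
  have hB : 1 ≤ r₂ ^ b := Nat.one_le_pow _ _ (by omega)
  have hlog : |Real.log ((r₁ ^ a : ℕ) : ℝ) - Real.log ((r₂ ^ b : ℕ) : ℝ)| ≤ δ := by
    push_cast
    rw [Real.log_pow, Real.log_pow]
    exact hab
  rcases le_total (r₁ ^ a) (r₂ ^ b) with hAB | hAB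
  · obtain ⟨Z0, hZ0⟩ := sp_core f hd (r₁ ^ a) (r₂ ^ b) (a * f r₁) (b * f r₂) C₁ C₂ δ hA hAB hδ0
      (sp_close _ _ hA hB δ hδ0.le hδ1 hlog) h₁ h₂
    exact ⟨Z0, fun Z hZ t => sp_fin f s _ ε hs Z (fun t => (hZ0 Z hZ t).trans hδε) t⟩
  · rw [abs_sub_comm] at hlog
    obtain ⟨Z0, hZ0⟩ := sp_core f hd (r₂ ^ b) (r₁ ^ a) (b * f r₂) (a * f r₁) C₂ C₁ δ hB hAB hδ0
      (sp_close _ _ hB hA δ hδ0.le hδ1 hlog) h₂ h₁
    rw [abs_sub_comm] at hs
    exact ⟨Z0, fun Z hZ t => sp_fin f s _ ε hs Z (fun t => (hZ0 Z hZ t).trans hδε) t⟩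


end Pool.Agent.Descents.A4
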