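import Mathlib
import Pool.Agent.Helper564.Desc.Defs
import Pool.Agent.Helper564.Desc.A2

set_option autoImplicit false

open Finset Filter Topology

namespace Pool.Agent.Descents.A5

open Pool.Agent.Descents
open Pool.Agent.Descents.A2





theorem slow_cnt_mono (f : ℕ → ℝ) (X : ℕ) {s t : ℝ} (h : s ≤ t) : cnt f X s ≤ cnt f X t := by
  unfold cnt
  apply Finset.card_le_card
  intro n hn
  rw [Finset.mem_filter] at hn ⊢
  exact ⟨hn.1, hn.2.trans h⟩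

theorem slow_cnt_le (f : ℕ → ℝ) (X : ℕ) (t : ℝ) : cnt f X t ≤ X := by
  unfold cnt
  refine (Finset.card_filter_le _ _).trans ?_
  rw [Nat.card_Icc]; omega

theorem slow_cnt_mono' (f : ℕ → ℝ) {X Y : ℕ} (h : X ≤ Y) (t : ℝ) : cnt f X t ≤ cnt f Y t := by
  unfold cnt
  apply Finset.card_le_card
  intro n hn
  rw [Finset.mem_filter, Finset.mem_Icc] at hn ⊢
  exact ⟨⟨hn.1.1, hn.1.2.trans h⟩, hn.2⟩

theorem slow_cnt_diff (f : ℕ → ℝ) {X Y : ℕ} (h : X ≤ Y) (t : ℝ) :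
    cnt f Y t ≤ cnt f X t + (Y - X) := by
  unfold cnt
  have hsub : (Icc 1 Y).filter (fun n => f n ≤ t) ⊆
      (Icc 1 X).filter (fun n => f n ≤ t) ∪ Icc (X + 1) Y := by
    intro n hn
    rw [Finset.mem_filter, Finset.mem_Icc] at hn
    rw [Finset.mem_union, Finset.mem_filter, Finset.mem_Icc, Finset.mem_Icc]
    by_cases hx : n ≤ X
    · exact Or.inl ⟨⟨hn.1.1, hx⟩, hn.2⟩
    · exact Or.inr ⟨by omega, hn.1.2⟩
  refine (Finset.card_le_card hsub).trans ((Finset.card_union_le _ _).trans ?_)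
  rw [Nat.card_Icc]; omega

theorem slow_F_mono (f : ℕ → ℝ) (X : ℕ) {s t : ℝ} (h : s ≤ t) : F f X s ≤ F f X t := by
  unfold F
  have := slow_cnt_mono f X h
  gcongr

theorem slow_F_diff (f : ℕ → ℝ) {X Y : ℕ} (hX : 1 ≤ X) (h : X ≤ Y) (t : ℝ) :
    |F f Y t - F f X t| ≤ ((Y : ℝ) - X) / Y := by
  have h1 : (cnt f X t : ℝ) ≤ X := by exact_mod_cast slow_cnt_le f X t
  have h2 : (cnt f X t : ℝ) ≤ cnt f Y t := by exact_mod_cast slow_cnt_mono' f h t
  have h3 : (cnt f Y t : ℝ) ≤ cnt f X t + (Y - X) := by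
    have := slow_cnt_diff f h t
    have h4 : ((cnt f Y t : ℕ) : ℝ) ≤ ((cnt f X t + (Y - X) : ℕ) : ℝ) := by exact_mod_cast this
    rw [Nat.cast_add, Nat.cast_sub h] at h4
    exact h4
  have h0 : (0 : ℝ) ≤ cnt f X t := Nat.cast_nonneg _
  have hX' : (0 : ℝ) < X := by exact_mod_cast hX
  have hXY : (X : ℝ) ≤ Y := by exact_mod_cast h
  have hY' : (0 : ℝ) < Y := hX'.trans_le hXY
  unfold F
  have e1 : (cnt f Y t : ℝ) / Y - (cnt f X t : ℝ) / X =
      ((cnt f Y t - cnt f X t : ℝ) - (cnt f X t / X) * (Y - X)) / Y := by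
    field_simp
    ring
  rw [e1, abs_div, abs_of_pos hY']
  apply div_le_div_of_nonneg_right _ hY'.le
  have hr : (cnt f X t : ℝ) / X ≤ 1 := (div_le_one hX').2 h1
  have hr0 : 0 ≤ (cnt f X t : ℝ) / X := by positivity
  rw [abs_le]
  constructor <;> nlinarith

theorem slow_shift (f : ℕ → ℝ)
    (hsp : ∀ s ε : ℝ, 0 < ε → ∃ X0 : ℕ, ∀ X : ℕ, X0 ≤ X → ∀ t : ℝ, F f X (t + s) - F f X t ≤ ε)
    (s ε : ℝ) (hε : 0 < ε) :
    ∃ X0 : ℕ, ∀ X : ℕ, X0 ≤ X → ∀ t : ℝ, |F f X (t - s) - F f X t| ≤ ε := by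
  obtain ⟨X0, h0⟩ := hsp |s| ε hε
  refine ⟨X0, fun X hX t => ?_⟩
  rcases le_total 0 s with hs | hs
  · have h1 := h0 X hX (t - s)
    rw [abs_of_nonneg hs, sub_add_cancel] at h1
    have h2 : F f X (t - s) ≤ F f X t := slow_F_mono f X (by linarith)
    rw [abs_le]; constructor <;> linarith
  · have h1 := h0 X hX t
    rw [abs_of_nonpos hs, ← sub_eq_add_neg] at h1
    have h2 : F f X t ≤ F f X (t - s) := slow_F_mono f X (by linarith)
    rw [abs_le]; constructor <;> linarith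

theorem slow_prime (f : ℕ → ℝ) (hf : Addi f) (hd : DZ f)
    (hsp : ∀ s ε : ℝ, 0 < ε → ∃ X0 : ℕ, ∀ X : ℕ, X0 ≤ X → ∀ t : ℝ, F f X (t + s) - F f X t ≤ ε)
    (q : ℕ) (hq : q.Prime) (ε : ℝ) (hε : 0 < ε) :
    ∃ Z0 : ℕ, ∀ Z : ℕ, Z0 ≤ Z → ∀ t : ℝ, |F f (q * Z) t - F f Z t| ≤ ε := by
  obtain ⟨C, hC, hrel⟩ := prime_pow_rel f hf q 1 hq le_rfl
  obtain ⟨X1, hX1⟩ := slow_shift f hsp (f q) (ε / 2) (by positivity)
  have hd' : Tendsto (fun X : ℕ => C * ((1 : ℝ) / X + (ex f X : ℝ) / X)) atTop (𝓝 0) := by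
    have h1 : Tendsto (fun X : ℕ => (1 : ℝ) / X) atTop (𝓝 0) := tendsto_one_div_atTop_nhds_zero_nat
    have h2 : Tendsto (fun X : ℕ => (ex f X : ℝ) / X) atTop (𝓝 0) := hd
    have h3 := (h1.add h2).const_mul C
    simpa using h3
  have hev := hd'.eventually (gt_mem_nhds (show (0 : ℝ) < ε / 2 by positivity))
  obtain ⟨X2, hX2⟩ := Filter.eventually_atTop.1 hev
  refine ⟨max 1 (max X1 X2), fun Z hZ t => ?_⟩
  have hZ1 : 1 ≤ Z := (le_max_left _ _).trans hZ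
  have hZX1 : X1 ≤ Z := ((le_max_left _ _).trans (le_max_right _ _)).trans hZ
  have hZX2 : X2 ≤ Z := ((le_max_right _ _).trans (le_max_right _ _)).trans hZ
  have hq1 : 1 ≤ q := hq.one_lt.le
  have hqZ : Z ≤ q * Z := Nat.le_mul_of_pos_left Z hq1
  have h1 := hrel (q * Z) t
  rw [pow_one, Nat.mul_div_cancel_left Z hq1] at h1
  have h2 := hX2 (q * Z) (hZX2.trans hqZ)
  have h3 := hX1 Z hZX1 t
  have hq' : (0 : ℝ) < q := by exact_mod_cast hq1
  have hZ' : (0 : ℝ) < Z := by exact_mod_cast hZ1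
  have hqZ' : (0 : ℝ) < ((q * Z : ℕ) : ℝ) := by push_cast; positivity
  have h4 : |F f (q * Z) t - F f Z (t - f q)| ≤ ε / 2 := by
    have e1 : F f (q * Z) t - F f Z (t - f q) =
        ((cnt f (q * Z) t : ℝ) - (q : ℝ) * (cnt f Z (t - f q) : ℝ)) / ((q * Z : ℕ) : ℝ) := by
      unfold F
      push_cast
      field_simp
    rw [e1, abs_div, abs_of_pos hqZ']
    refine (div_le_div_of_nonneg_right h1 hqZ'.le).trans ?_
    have e2 : C * (1 + (ex f (q * Z) : ℝ)) / ((q * Z : ℕ) : ℝ) =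
        C * ((1 : ℝ) / ((q * Z : ℕ) : ℝ) + (ex f (q * Z) : ℝ) / ((q * Z : ℕ) : ℝ)) := by ring
    rw [e2]
    exact h2.le
  calc |F f (q * Z) t - F f Z t|
      = |(F f (q * Z) t - F f Z (t - f q)) + (F f Z (t - f q) - F f Z t)| := by congr 1; ring
    _ ≤ |F f (q * Z) t - F f Z (t - f q)| + |F f Z (t - f q) - F f Z t| := abs_add_le _ _
    _ ≤ ε := by linarith

theorem slow_mul (f : ℕ → ℝ) (hf : Addi f) (hd : DZ f)
    (hsp : ∀ s ε : ℝ, 0 < ε → ∃ X0 : ℕ, ∀ X : ℕ, X0 ≤ X → ∀ t : ℝ, F f X (t + s) - F f X t ≤ ε)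
    (j : ℕ) : 1 ≤ j → ∀ ε : ℝ, 0 < ε →
    ∃ Z0 : ℕ, ∀ Z : ℕ, Z0 ≤ Z → ∀ t : ℝ, |F f (j * Z) t - F f Z t| ≤ ε := by
  induction j using induction_on_primes with
  | zero => intro h; omega
  | one =>
    intro _ ε hε
    refine ⟨0, fun Z _ t => ?_⟩
    rw [one_mul, sub_self, abs_zero]; exact hε.le
  | prime_mul p a hp ih =>
    intro hpa ε hε
    have ha : 1 ≤ a := by
      rcases Nat.eq_zero_or_pos a with h | h
      · rw [h, mul_zero] at hpa; omega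
      · exact h
    obtain ⟨Z1, h1⟩ := ih ha (ε / 2) (by positivity)
    obtain ⟨Z2, h2⟩ := slow_prime f hf hd hsp p hp (ε / 2) (by positivity)
    refine ⟨max Z1 Z2, fun Z hZ t => ?_⟩
    have h3 := h1 Z ((le_max_left _ _).trans hZ) t
    have h4 := h2 (a * Z) ((le_max_right Z1 Z2).trans (hZ.trans (Nat.le_mul_of_pos_left Z ha))) t
    rw [mul_assoc]
    calc |F f (p * (a * Z)) t - F f Z t|
        = |(F f (p * (a * Z)) t - F f (a * Z) t) + (F f (a * Z) t - F f Z t)| := by congr 1; ring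
      _ ≤ |F f (p * (a * Z)) t - F f (a * Z) t| + |F f (a * Z) t - F f Z t| := abs_add_le _ _
      _ ≤ ε := by linarith

/-- TARGET: the law of `f` on `[1, X]` changes slowly with `X` -/
theorem slow (f : ℕ → ℝ) (hf : Addi f) (hd : DZ f)
    (hsp : ∀ s ε : ℝ, 0 < ε → ∃ X0 : ℕ, ∀ X : ℕ, X0 ≤ X → ∀ t : ℝ, F f X (t + s) - F f X t ≤ ε)
    (K : ℕ) (ε : ℝ) (hε : 0 < ε) :
    ∃ X0 : ℕ, ∀ X Y : ℕ, X0 ≤ X → X0 ≤ Y → X ≤ K * Y → Y ≤ K * X → ∀ t : ℝ,
      |F f X t - F f Y t| ≤ ε := by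
  rcases Nat.eq_zero_or_pos K with hK | hK
  · refine ⟨1, fun X Y hX hY h1 h2 t => ?_⟩
    rw [hK, zero_mul] at h1; omega
  obtain ⟨k0, hk0⟩ := exists_nat_ge (16 * (K : ℝ) / ε)
  set k : ℕ := max k0 K with hk
  have hkK : K ≤ k := le_max_right _ _
  have hk1 : 1 ≤ k := le_trans hK hkK
  have hkR : 16 * (K : ℝ) / ε ≤ k := hk0.trans (by exact_mod_cast le_max_left _ _)
  have hmul := slow_mul f hf hd hsp
  choose! Z0 hZ0 using fun j (hj : 1 ≤ j) => hmul j hj (ε / 8) (by positivity)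
  set ZZ : ℕ := max 1 ((Finset.Icc 1 (2 * K * k)).sup Z0) with hZZ
  obtain ⟨N, hN⟩ := exists_nat_ge (8 * (k : ℝ) / ε)
  refine ⟨max N (k * ZZ), fun X Y hX hY hXY hYX t => ?_⟩
  have hXN : N ≤ X := (le_max_left _ _).trans hX
  have hXk : k * ZZ ≤ X := (le_max_right _ _).trans hX
  set Z := X / k with hZ
  have hZge : ZZ ≤ Z := by rw [hZ, Nat.le_div_iff_mul_le hk1, mul_comm]; exact hXk
  have hZ1 : 1 ≤ Z := (le_max_left _ _).trans hZge
  set j := Y / Z with hj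
  have hkZ : k * Z ≤ X := Nat.mul_div_le X k
  have hXlt : X < k * (Z + 1) := Nat.lt_mul_div_succ X hk1
  have hZY : Z ≤ Y := by
    have h1 : k * Z ≤ k * Y := hkZ.trans (hXY.trans (Nat.mul_le_mul_right Y hkK))
    exact Nat.le_of_mul_le_mul_left h1 hk1
  have hj1 : 1 ≤ j := Nat.div_pos hZY hZ1
  have hjZ : j * Z ≤ Y := Nat.div_mul_le_self Y Z
  have hYlt : Y < Z * (j + 1) := Nat.lt_mul_div_succ Y hZ1
  have hjle : j ≤ 2 * K * k := by
    have h1 : j * Z ≤ (2 * K * k) * Z := by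
      calc j * Z ≤ Y := hjZ
        _ ≤ K * X := hYX
        _ ≤ K * (k * (Z + 1)) := Nat.mul_le_mul_left K hXlt.le
        _ ≤ K * (k * (Z + Z)) := by gcongr
        _ = (2 * K * k) * Z := by ring
    exact Nat.le_of_mul_le_mul_right h1 hZ1
  have hkle : k ≤ 2 * K * k := by nlinarith [Nat.mul_le_mul_right k hK]
  have hZj : Z0 j ≤ Z := by
    refine le_trans ?_ hZge
    rw [hZZ]
    exact le_trans (Finset.le_sup (f := Z0) (Finset.mem_Icc.2 ⟨hj1, hjle⟩)) (le_max_right _ _)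
  have hZk : Z0 k ≤ Z := by
    refine le_trans ?_ hZge
    rw [hZZ]
    exact le_trans (Finset.le_sup (f := Z0) (Finset.mem_Icc.2 ⟨hk1, hkle⟩)) (le_max_right _ _)
  have h1 := hZ0 j hj1 Z hZj t
  have h2 := hZ0 k hk1 Z hZk t
  have hY1 : 1 ≤ Y := hZ1.trans hZY
  have hX1 : 1 ≤ X := le_trans (Nat.mul_le_mul hk1 hZ1) hkZ
  have h3 := slow_F_diff f (Nat.mul_le_mul hj1 hZ1) hjZ t
  have h4 := slow_F_diff f (Nat.mul_le_mul hk1 hZ1) hkZ t
  have hXr : (0 : ℝ) < X := by exact_mod_cast hX1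
  have hYr : (0 : ℝ) < Y := by exact_mod_cast hY1
  have hkr : (0 : ℝ) < k := by exact_mod_cast hk1
  have h5 : ((Y : ℝ) - ((j * Z : ℕ) : ℝ)) / Y ≤ ε / 16 := by
    rw [div_le_iff₀ hYr]
    have e1 : (Y : ℝ) < Z * (j + 1) := by exact_mod_cast hYlt
    have e2 : (k : ℝ) * Z ≤ K * Y := by exact_mod_cast hkZ.trans hXY
    have e3 : 16 * (K : ℝ) ≤ k * ε := by rwa [div_le_iff₀ hε] at hkR
    have e4 : (Z : ℝ) ≤ ε / 16 * Y := by
      have : (k : ℝ) * Z ≤ k * (ε / 16 * Y) := by nlinarith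
      exact le_of_mul_le_mul_left this hkr
    push_cast
    linarith
  have h6 : ((X : ℝ) - ((k * Z : ℕ) : ℝ)) / X ≤ ε / 8 := by
    rw [div_le_iff₀ hXr]
    have e1 : (X : ℝ) < k * (Z + 1) := by exact_mod_cast hXlt
    have e2 : 8 * (k : ℝ) ≤ X * ε := by
      have : 8 * (k : ℝ) / ε ≤ X := hN.trans (by exact_mod_cast hXN)
      rwa [div_le_iff₀ hε] at this
    push_cast
    linarith
  calc |F f X t - F f Y t|
      = |(F f X t - F f (k * Z) t) + (F f (k * Z) t - F f Z t) - (F f (j * Z) t - F f Z t)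
          - (F f Y t - F f (j * Z) t)| := by congr 1; ring
    _ ≤ |F f X t - F f (k * Z) t| + |F f (k * Z) t - F f Z t| + |F f (j * Z) t - F f Z t|
          + |F f Y t - F f (j * Z) t| := by
        refine (abs_sub _ _).trans (add_le_add_left ((abs_sub _ _).trans
          (add_le_add_left (abs_add_le _ _) _)) _)
    _ ≤ ε := by linarith

end Pool.Agent.Descents.A5
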