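import Mathlib
import Pool.Agent.Helper564.Desc.Defs

set_option autoImplicit false

open Finset Filter Topology

namespace Pool.Agent.Descents.B1

open Pool.Agent.Descents



theorem tk_modcount (X r v : ℕ) (hr : 0 < r) :
    |(((Icc 1 X).filter (fun n => n ≡ v [MOD r])).card : ℝ) - (X : ℝ) / r| ≤ 1 := by
  have h0 : Icc 1 X = Ioc 0 X := by
    ext n; simp [Nat.succ_le_iff]
  have h1 := Nat.Ioc_filter_modEq_card 0 X hr v
  rw [← h0] at h1
  have hr' : (0 : ℚ) < r := by exact_mod_cast hr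
  have key : |(((Icc 1 X).filter (fun n => n ≡ v [MOD r])).card : ℚ) - (X : ℚ) / r| ≤ 1 := by
    have h2 : (((Icc 1 X).filter (fun n => n ≡ v [MOD r])).card : ℚ) =
        max (((⌊((X : ℚ) - v) / (r : ℚ)⌋ : ℤ) : ℚ) - ((⌊(((0 : ℕ) : ℚ) - v) / (r : ℚ)⌋ : ℤ) : ℚ)) 0 := by
      have := congrArg (Int.cast : ℤ → ℚ) h1
      push_cast at this ⊢
      exact this
    rw [h2]
    have f1 := Int.floor_le (((X : ℚ) - v) / (r : ℚ))
    have f2 := Int.lt_floor_add_one (((X : ℚ) - v) / (r : ℚ))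
    have f3 := Int.floor_le ((((0 : ℕ) : ℚ) - v) / (r : ℚ))
    have f4 := Int.lt_floor_add_one ((((0 : ℕ) : ℚ) - v) / (r : ℚ))
    have e : (X : ℚ) / r = ((X : ℚ) - v) / r - (((0 : ℕ) : ℚ) - v) / r := by
      rw [← sub_div]; congr 1; push_cast; ring
    have hX : 0 ≤ (X : ℚ) / r := by positivity
    rw [abs_le]
    rcases max_cases (((⌊((X : ℚ) - v) / (r : ℚ)⌋ : ℤ) : ℚ) -
      ((⌊(((0 : ℕ) : ℚ) - v) / (r : ℚ)⌋ : ℤ) : ℚ)) 0 with ⟨h, _⟩ | ⟨h, h'⟩
    · rw [h, e]
      constructor <;> linarith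
    · rw [h]
      rw [e] at hX ⊢
      constructor <;> linarith
  have h3 : ((((((Icc 1 X).filter (fun n => n ≡ v [MOD r])).card : ℚ) - (X : ℚ) / r) : ℚ) : ℝ) =
      (((Icc 1 X).filter (fun n => n ≡ v [MOD r])).card : ℝ) - (X : ℝ) / r := by
    push_cast; rfl
  rw [← h3]
  exact_mod_cast key

theorem tk_count (d e : ℕ) (hd : 1 ≤ d) (he : 1 ≤ e) (hco : Nat.Coprime e d) (c : ℤ) (X : ℕ) :
    |(((Icc 1 X).filter (fun n : ℕ => (d : ℤ) ∣ (n : ℤ) - c ∧ e ∣ n)).card : ℝ) -
      (X : ℝ) / (d * e)| ≤ 1 := by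
  obtain ⟨c', hc'⟩ : ∃ c' : ℕ, (c' : ℤ) = c % d :=
    ⟨(c % d).toNat, Int.toNat_of_nonneg (Int.emod_nonneg _ (by positivity))⟩
  obtain ⟨v, hv1, hv2⟩ := Nat.chineseRemainder hco.symm c' 0
  have hiff : ∀ n : ℕ, ((d : ℤ) ∣ (n : ℤ) - c ∧ e ∣ n) ↔ n ≡ v [MOD (d * e)] := by
    intro n
    rw [← Nat.modEq_and_modEq_iff_modEq_mul hco.symm]
    have h1 : (d : ℤ) ∣ (n : ℤ) - c ↔ n ≡ c' [MOD d] := by
      rw [← Int.natCast_modEq_iff, hc', dvd_sub_comm, ← Int.modEq_iff_dvd]
      constructor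
      · intro h
        exact h.trans (Int.mod_modEq c d).symm
      · intro h
        exact h.trans (Int.mod_modEq c d)
    have h2 : e ∣ n ↔ n ≡ 0 [MOD e] := (Nat.modEq_zero_iff_dvd).symm
    rw [h1, h2]
    constructor
    · rintro ⟨a, b⟩
      exact ⟨a.trans hv1.symm, b.trans hv2.symm⟩
    · rintro ⟨a, b⟩
      exact ⟨a.trans hv1, b.trans hv2⟩
  have h3 : (Icc 1 X).filter (fun n : ℕ => (d : ℤ) ∣ (n : ℤ) - c ∧ e ∣ n) =
      (Icc 1 X).filter (fun n => n ≡ v [MOD (d * e)]) := by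
    apply Finset.filter_congr
    intro n _
    exact hiff n
  rw [h3]
  have := tk_modcount X (d * e) v (Nat.mul_pos hd he)
  push_cast at this
  exact this

/-- TARGET: Turan-Kubilius inequality in an arithmetic progression -/
theorem tk (I : Finset ℕ) (hI : ∀ q ∈ I, q.Prime) (d : ℕ) (hd : 1 ≤ d)
    (hcop : ∀ q ∈ I, Nat.Coprime q d) (c : ℤ) (X : ℕ) :
    ∑ n ∈ (Icc 1 X).filter (fun n : ℕ => (d : ℤ) ∣ (n : ℤ) - c),
      (((I.filter (fun q => q ∣ n)).card : ℝ) - ∑ q ∈ I, 1 / (q : ℝ)) ^ 2 ≤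
      (∑ q ∈ I, 1 / (q : ℝ)) * X / d + 5 * (I.card : ℝ) ^ 2 := by
  classical
  set A := (Icc 1 X).filter (fun n : ℕ => (d : ℤ) ∣ (n : ℤ) - c) with hA
  set S := ∑ q ∈ I, 1 / (q : ℝ) with hS
  set k : ℝ := (I.card : ℝ) with hk
  have hd' : (0 : ℝ) < d := by exact_mod_cast hd
  have hq0 : ∀ q ∈ I, (0 : ℝ) < q := fun q hq => by exact_mod_cast (hI q hq).pos
  have hS0 : 0 ≤ S := Finset.sum_nonneg fun q hq => by positivity
  have hSk : S ≤ k := by
    rw [hS, hk]
    calc ∑ q ∈ I, 1 / (q : ℝ) ≤ ∑ q ∈ I, (1 : ℝ) := by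
          apply Finset.sum_le_sum
          intro q hq
          rw [div_le_one (hq0 q hq)]
          exact_mod_cast (hI q hq).one_lt.le
      _ = (I.card : ℝ) := by simp
  have hcard : ∀ e : ℕ, (A.filter (fun n => e ∣ n)).card =
      ((Icc 1 X).filter (fun n : ℕ => (d : ℤ) ∣ (n : ℤ) - c ∧ e ∣ n)).card := by
    intro e
    rw [hA, Finset.filter_filter]
  -- bound on counts
  have hN : ∀ e : ℕ, 1 ≤ e → Nat.Coprime e d →
      |((A.filter (fun n => e ∣ n)).card : ℝ) - (X : ℝ) / (d * e)| ≤ 1 := by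
    intro e he hco
    rw [hcard]
    exact tk_count d e hd he hco c X
  have hA1 : (A.card : ℝ) ≤ X / d + 1 := by
    have h := hN 1 le_rfl (Nat.coprime_one_left d)
    have h2 : A.filter (fun n => 1 ∣ n) = A := by
      apply Finset.filter_true_of_mem
      intro n _
      exact one_dvd n
    rw [h2] at h
    have := (abs_le.1 h).2
    push_cast at this
    rw [mul_one] at this
    linarith
  have hom : ∀ n, ((I.filter (fun q => q ∣ n)).card : ℝ) = ∑ q ∈ I, if q ∣ n then (1 : ℝ) else 0 := by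
    intro n
    rw [Finset.sum_boole]
  have hind : ∀ (P : ℕ → Prop) [DecidablePred P], ∑ n ∈ A, (if P n then (1 : ℝ) else 0) =
      ((A.filter P).card : ℝ) := by
    intro P _
    rw [Finset.sum_boole]
  -- first moment
  have hsum1 : S * X / d - k ≤ ∑ n ∈ A, ((I.filter (fun q => q ∣ n)).card : ℝ) := by
    simp_rw [hom]
    rw [Finset.sum_comm]
    have h1 : ∀ q ∈ I, 1 / (q : ℝ) * (X / d) - 1 ≤ ∑ n ∈ A, (if q ∣ n then (1 : ℝ) else 0) := by
      intro q hq
      rw [hind (fun n => q ∣ n)]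
      have h2 := (abs_le.1 (hN q (hI q hq).one_lt.le (hcop q hq))).1
      have h3 : 1 / (q : ℝ) * (X / d) = X / (d * q) := by
        have := (hq0 q hq).ne'
        field_simp
      rw [h3]
      linarith
    refine le_trans ?_ (Finset.sum_le_sum h1)
    rw [Finset.sum_sub_distrib, ← Finset.sum_mul, ← hS]
    simp only [Finset.sum_const, nsmul_eq_mul, mul_one]
    rw [← hk, mul_div_assoc]
  -- second moment
  have hsum2 : ∑ n ∈ A, ((I.filter (fun q => q ∣ n)).card : ℝ) ^ 2 ≤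
      S ^ 2 * (X / d) + k ^ 2 + S * (X / d) := by
    have h1 : ∀ n, ((I.filter (fun q => q ∣ n)).card : ℝ) ^ 2 =
        ∑ q ∈ I, ∑ q' ∈ I, if q ∣ n ∧ q' ∣ n then (1 : ℝ) else 0 := by
      intro n
      rw [sq, hom, Finset.sum_mul_sum]
      apply Finset.sum_congr rfl
      intro q _
      apply Finset.sum_congr rfl
      intro q' _
      by_cases h : q ∣ n <;> by_cases h' : q' ∣ n <;> simp [h, h']
    simp_rw [h1]
    rw [Finset.sum_comm]
    have h2 : ∀ q ∈ I, ∑ n ∈ A, ∑ q' ∈ I, (if q ∣ n ∧ q' ∣ n then (1 : ℝ) else 0) ≤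
        ∑ q' ∈ I, ((1 / (q : ℝ)) * (1 / (q' : ℝ)) * (X / d) + 1 +
          if q' = q then 1 / (q : ℝ) * (X / d) else 0) := by
      intro q hq
      rw [Finset.sum_comm]
      apply Finset.sum_le_sum
      intro q' hq'
      rw [hind (fun n => q ∣ n ∧ q' ∣ n)]
      have hqp := hq0 q hq
      have hqp' := hq0 q' hq'
      by_cases hqq : q' = q
      · subst hqq
        rw [if_pos rfl]
        have h4 : A.filter (fun n => q' ∣ n ∧ q' ∣ n) = A.filter (fun n => q' ∣ n) := by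
          apply Finset.filter_congr
          intro n _
          exact and_self_iff
        rw [h4]
        have h5 := (abs_le.1 (hN q' (hI q' hq).one_lt.le (hcop q' hq))).2
        have h6 : 1 / (q' : ℝ) * (X / d) = X / (d * q') := by
          field_simp
        have h7 : 0 ≤ (1 / (q' : ℝ)) * (1 / (q' : ℝ)) * (X / d) := by positivity
        rw [h6]
        linarith
      · rw [if_neg hqq, add_zero]
        have hcc : Nat.Coprime q q' := (Nat.coprime_primes (hI q hq) (hI q' hq')).2 (Ne.symm hqq)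
        have h4 : A.filter (fun n => q ∣ n ∧ q' ∣ n) = A.filter (fun n => q * q' ∣ n) := by
          apply Finset.filter_congr
          intro n _
          constructor
          · rintro ⟨a, b⟩
            exact hcc.mul_dvd_of_dvd_of_dvd a b
          · intro h
            exact ⟨(dvd_mul_right q q').trans h, (dvd_mul_left q' q).trans h⟩
        rw [h4]
        have hco : Nat.Coprime (q * q') d := (hcop q hq).mul_left (hcop q' hq')
        have h5 := (abs_le.1 (hN (q * q')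
          (Nat.mul_pos (hI q hq).pos (hI q' hq').pos) hco)).2
        have h6 : (1 / (q : ℝ)) * (1 / (q' : ℝ)) * (X / d) = X / (d * ((q * q' : ℕ) : ℝ)) := by
          push_cast
          field_simp
        rw [h6]
        linarith
    refine (Finset.sum_le_sum h2).trans ?_
    have h3 : ∀ q ∈ I, ∑ q' ∈ I, ((1 / (q : ℝ)) * (1 / (q' : ℝ)) * (X / d) + 1 +
          if q' = q then 1 / (q : ℝ) * (X / d) else 0) =
        (1 / (q : ℝ)) * (S * (X / d)) + k + 1 / (q : ℝ) * (X / d) := by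
      intro q hq
      rw [Finset.sum_add_distrib, Finset.sum_add_distrib, Finset.sum_ite_eq' I q, if_pos hq]
      congr 1
      congr 1
      · rw [hS, Finset.sum_mul, Finset.mul_sum]
        apply Finset.sum_congr rfl
        intro q' _
        ring
      · simp [hk]
    rw [Finset.sum_congr rfl h3, Finset.sum_add_distrib, Finset.sum_add_distrib,
      ← Finset.sum_mul, ← Finset.sum_mul, ← hS]
    simp only [Finset.sum_const, nsmul_eq_mul]
    rw [← hk]
    apply le_of_eq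
    ring
  have hexp : ∑ n ∈ A, (((I.filter (fun q => q ∣ n)).card : ℝ) - S) ^ 2 =
      ∑ n ∈ A, ((I.filter (fun q => q ∣ n)).card : ℝ) ^ 2 -
        2 * S * ∑ n ∈ A, ((I.filter (fun q => q ∣ n)).card : ℝ) + S ^ 2 * A.card := by
    have : ∀ n ∈ A, (((I.filter (fun q => q ∣ n)).card : ℝ) - S) ^ 2 =
        ((I.filter (fun q => q ∣ n)).card : ℝ) ^ 2 -
          2 * S * ((I.filter (fun q => q ∣ n)).card : ℝ) + S ^ 2 := by
      intro n _; ring
    rw [Finset.sum_congr rfl this, Finset.sum_add_distrib, Finset.sum_sub_distrib,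
      ← Finset.mul_sum]
    simp only [Finset.sum_const, nsmul_eq_mul]
    ring
  rw [hexp]
  have h7 : 2 * S * (S * X / d - k) ≤ 2 * S * ∑ n ∈ A, ((I.filter (fun q => q ∣ n)).card : ℝ) :=
    mul_le_mul_of_nonneg_left hsum1 (by positivity)
  have h8 : S ^ 2 * (A.card : ℝ) ≤ S ^ 2 * (X / d + 1) :=
    mul_le_mul_of_nonneg_left hA1 (by positivity)
  have h9 : S * X / d = S * (X / d) := by ring
  rw [h9] at h7 ⊢
  have hk0 : 0 ≤ k := hS0.trans hSk
  have h10 : S * k ≤ k * k := mul_le_mul_of_nonneg_right hSk hk0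
  have h11 : S ^ 2 ≤ k ^ 2 := pow_le_pow_left₀ hS0 hSk 2
  nlinarith [sq_nonneg k]

end Pool.Agent.Descents.B1
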