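import Mathlib
import Pool.Agent.Helper564.Desc.Defs

set_option autoImplicit false

open Finset Filter Topology

namespace Pool.Agent.Descents.B2

open Pool.Agent.Descents




lemma dsp_count (M d v : ℕ) (hd : 0 < d) :
    |(((Icc 1 M).filter (fun m => m ≡ v [MOD d])).card : ℝ) - (M : ℝ) / d| ≤ 1 := by
  have h0 : Icc 1 M = Ioc 0 M := by
    ext m; simp [Nat.succ_le_iff]
  have h1 := Nat.Ioc_filter_modEq_card 0 M hd v
  rw [h0]
  have hdR : (0:ℝ) < d := by exact_mod_cast hd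
  set F1 := ⌊((M:ℚ) - v) / d⌋ with hF1
  set F2 := ⌊(((0:ℕ):ℚ) - v) / d⌋ with hF2
  have hle : F2 ≤ F1 := by
    apply Int.floor_mono
    have hdQ : (0:ℚ) < d := by exact_mod_cast hd
    gcongr
    positivity
  rw [max_eq_left (by omega)] at h1
  have h2 : ((((Ioc 0 M).filter (fun m => m ≡ v [MOD d])).card : ℤ) : ℝ) = (F1 : ℝ) - F2 := by
    rw [h1]; push_cast; ring
  have h3 : (((Ioc 0 M).filter (fun m => m ≡ v [MOD d])).card : ℝ) = (F1 : ℝ) - F2 := by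
    exact_mod_cast h2
  rw [h3]
  have a1 : ((F1 : ℤ) : ℚ) ≤ ((M:ℚ) - v) / d := Int.floor_le _
  have a2 : ((M:ℚ) - v) / d < F1 + 1 := Int.lt_floor_add_one _
  have a3 : ((F2 : ℤ) : ℚ) ≤ (((0:ℕ):ℚ) - v) / d := Int.floor_le _
  have a4 : (((0:ℕ):ℚ) - v) / d < F2 + 1 := Int.lt_floor_add_one _
  have b1 : (F1 : ℝ) ≤ ((M:ℝ) - v) / d := by exact_mod_cast a1
  have b2 : ((M:ℝ) - v) / d < F1 + 1 := by exact_mod_cast a2
  have b3 : (F2 : ℝ) ≤ (((0:ℕ):ℝ) - v) / d := by exact_mod_cast a3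
  have b4 : (((0:ℕ):ℝ) - v) / d < F2 + 1 := by exact_mod_cast a4
  have e : (M:ℝ) / d = ((M:ℝ) - v) / d - (((0:ℕ):ℝ) - v) / d := by
    rw [← sub_div]; push_cast; ring_nf
  rw [e, abs_le]
  constructor <;> linarith

/-- indicator of divisibility -/
noncomputable def dspI (c : ℤ) (p q m : ℕ) : ℝ := if (p : ℤ) ∣ (q : ℤ) * m - c then (1:ℝ) else 0

lemma dspI_nonneg (c : ℤ) (p q m : ℕ) : 0 ≤ dspI c p q m := by
  unfold dspI; split_ifs <;> norm_num

lemma dspI_sq (c : ℤ) (p q m : ℕ) : dspI c p q m * dspI c p q m = dspI c p q m := by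
  unfold dspI; split_ifs <;> norm_num

lemma dsp_class (c : ℤ) (p q : ℕ) (hp : p.Prime) (hq : q.Prime) (hlt : q < p) :
    ∃ v : ℕ, ∀ m : ℕ, (p : ℤ) ∣ (q : ℤ) * m - c ↔ m ≡ v [MOD p] := by
  have := Fact.mk hp
  refine ⟨((q : ZMod p)⁻¹ * (c : ZMod p)).val, fun m => ?_⟩
  have hq0 : (q : ZMod p) ≠ 0 := by
    rw [Ne, ZMod.natCast_eq_zero_iff]
    exact Nat.not_dvd_of_pos_of_lt hq.pos hlt
  rw [← ZMod.intCast_zmod_eq_zero_iff_dvd, ← ZMod.natCast_eq_natCast_iff, ZMod.natCast_zmod_val]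
  push_cast
  rw [sub_eq_zero]
  constructor
  · intro h; rw [← h, inv_mul_cancel_left₀ hq0]
  · intro h; rw [h, mul_inv_cancel_left₀ hq0]

lemma dsp_N (c : ℤ) (M p q : ℕ) (hp : p.Prime) (hq : q.Prime) (hlt : q < p) :
    |∑ m ∈ Icc 1 M, dspI c p q m - (M : ℝ) / p| ≤ 1 := by
  obtain ⟨v, hv⟩ := dsp_class c p q hp hq hlt
  have : ∑ m ∈ Icc 1 M, dspI c p q m = (((Icc 1 M).filter (fun m => m ≡ v [MOD p])).card : ℝ) := by
    unfold dspI
    rw [Finset.sum_boole]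
    congr 2
    exact Finset.filter_congr fun m _ => hv m
  rw [this]
  exact dsp_count M p v hp.pos

lemma dsp_N2 (c : ℤ) (M p q p' q' : ℕ) (hp : p.Prime) (hq : q.Prime) (hlt : q < p)
    (hp' : p'.Prime) (hq' : q'.Prime) (hlt' : q' < p') (hne : p ≠ p') :
    |∑ m ∈ Icc 1 M, dspI c p q m * dspI c p' q' m - (M : ℝ) / (p * p')| ≤ 1 := by
  obtain ⟨v, hv⟩ := dsp_class c p q hp hq hlt
  obtain ⟨v', hv'⟩ := dsp_class c p' q' hp' hq' hlt'
  have hcop : p.Coprime p' := (Nat.coprime_primes hp hp').2 hne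
  obtain ⟨w, hw1, hw2⟩ := Nat.chineseRemainder hcop v v'
  have : ∑ m ∈ Icc 1 M, dspI c p q m * dspI c p' q' m
      = (((Icc 1 M).filter (fun m => m ≡ w [MOD (p * p')])).card : ℝ) := by
    rw [← Finset.sum_boole]
    refine Finset.sum_congr rfl fun m _ => ?_
    unfold dspI
    have key : m ≡ w [MOD (p * p')] ↔ ((p : ℤ) ∣ (q : ℤ) * m - c ∧ (p' : ℤ) ∣ (q' : ℤ) * m - c) := by
      rw [← Nat.modEq_and_modEq_iff_modEq_mul hcop, hv, hv']
      constructor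
      · rintro ⟨h1, h2⟩; exact ⟨h1.trans hw1, h2.trans hw2⟩
      · rintro ⟨h1, h2⟩; exact ⟨h1.trans hw1.symm, h2.trans hw2.symm⟩
    by_cases h1 : (p : ℤ) ∣ (q : ℤ) * m - c <;> by_cases h2 : (p' : ℤ) ∣ (q' : ℤ) * m - c <;>
      simp [key, h1, h2]
  rw [this]
  have := dsp_count M (p * p') w (Nat.mul_pos hp.pos hp'.pos)
  push_cast at this
  exact this

lemma dsp_expand (c : ℤ) (M p q p' q' : ℕ) :
    ∑ m ∈ Icc 1 M, (dspI c p q m - 1 / p) * (dspI c p' q' m - 1 / p')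
      = ∑ m ∈ Icc 1 M, dspI c p q m * dspI c p' q' m - (∑ m ∈ Icc 1 M, dspI c p q m) * (1 / p')
        - (∑ m ∈ Icc 1 M, dspI c p' q' m) * (1 / p) + (M : ℝ) * (1 / p * (1 / p')) := by
  have : ∀ m ∈ Icc 1 M, (dspI c p q m - 1 / p) * (dspI c p' q' m - 1 / p')
      = dspI c p q m * dspI c p' q' m - dspI c p q m * (1 / p') - dspI c p' q' m * (1 / p)
        + 1 / p * (1 / p') := fun m _ => by ring
  rw [Finset.sum_congr rfl this, Finset.sum_add_distrib, Finset.sum_sub_distrib,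
    Finset.sum_sub_distrib, ← Finset.sum_mul, ← Finset.sum_mul, Finset.sum_const, Nat.card_Icc,
    nsmul_eq_mul]
  simp

lemma dsp_Ga (c : ℤ) (M p q p' q' : ℕ) (hp : p.Prime) (hq : q.Prime) (hlt : q < p)
    (hp' : p'.Prime) (hq' : q'.Prime) (hlt' : q' < p') (hne : p ≠ p') :
    |∑ m ∈ Icc 1 M, (dspI c p q m - 1 / p) * (dspI c p' q' m - 1 / p')| ≤ 2 := by
  rw [dsp_expand]
  have h1 := dsp_N c M p q hp hq hlt
  have h2 := dsp_N c M p' q' hp' hq' hlt'
  have h3 := dsp_N2 c M p q p' q' hp hq hlt hp' hq' hlt' hne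
  have hpR : (2:ℝ) ≤ p := by exact_mod_cast hp.two_le
  have hpR' : (2:ℝ) ≤ p' := by exact_mod_cast hp'.two_le
  set A := ∑ m ∈ Icc 1 M, dspI c p q m
  set B := ∑ m ∈ Icc 1 M, dspI c p' q' m
  set C := ∑ m ∈ Icc 1 M, dspI c p q m * dspI c p' q' m
  have hp0 : (0:ℝ) < p := by linarith
  have hp0' : (0:ℝ) < p' := by linarith
  have e : C - A * (1 / p') - B * (1 / p) + (M : ℝ) * (1 / p * (1 / p'))
      = (C - (M : ℝ) / (p * p')) - (A - (M : ℝ) / p) * (1 / p') - (B - (M : ℝ) / p') * (1 / p) := by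
    field_simp
    ring
  rw [e]
  have i1 : (1:ℝ) / p ≤ 1 / 2 := one_div_le_one_div_of_le (by norm_num) hpR
  have i2 : (1:ℝ) / p' ≤ 1 / 2 := one_div_le_one_div_of_le (by norm_num) hpR'
  have j1 : |(A - (M : ℝ) / p) * (1 / p')| ≤ 1 * (1 / 2) := by
    rw [abs_mul, abs_of_pos (by positivity : (0:ℝ) < 1 / p')]
    exact mul_le_mul h1 i2 (by positivity) (by norm_num)
  have j2 : |(B - (M : ℝ) / p') * (1 / p)| ≤ 1 * (1 / 2) := by
    rw [abs_mul, abs_of_pos (by positivity : (0:ℝ) < 1 / p)]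
    exact mul_le_mul h2 i1 (by positivity) (by norm_num)
  have k1 := abs_le.1 j1
  have k2 := abs_le.1 j2
  have k3 := abs_le.1 h3
  rw [abs_le]
  constructor <;> linarith [k1.1, k1.2, k2.1, k2.2, k3.1, k3.2]

lemma dsp_Gb (c : ℤ) (M p q : ℕ) (hp : p.Prime) (hq : q.Prime) (hlt : q < p) :
    ∑ m ∈ Icc 1 M, (dspI c p q m - 1 / p) * (dspI c p q m - 1 / p)
      ≤ (M : ℝ) / p + 1 + (M : ℝ) / (p : ℝ) ^ 2 := by
  rw [dsp_expand]
  simp only [dspI_sq]
  have h1 := (abs_le.1 (dsp_N c M p q hp hq hlt)).2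
  have h0 : 0 ≤ ∑ m ∈ Icc 1 M, dspI c p q m := Finset.sum_nonneg fun m _ => dspI_nonneg c p q m
  have hp0 : (0:ℝ) < p := by exact_mod_cast hp.pos
  have h2 : 0 ≤ (∑ m ∈ Icc 1 M, dspI c p q m) * (1 / p) := mul_nonneg h0 (by positivity)
  have e : (M : ℝ) * (1 / p * (1 / p)) = (M : ℝ) / (p : ℝ) ^ 2 := by field_simp
  rw [e]
  linarith

lemma dsp_Gc (c : ℤ) (hc : c = 1 ∨ c = -1) (M p q q' : ℕ) (hp : p.Prime)
    (hlt : q < p) (hlt' : q' < p) (hne : q ≠ q') :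
    ∑ m ∈ Icc 1 M, (dspI c p q m - 1 / p) * (dspI c p q' m - 1 / p)
      ≤ (M : ℝ) / (p : ℝ) ^ 2 := by
  rw [dsp_expand]
  have hp0 : (0:ℝ) < p := by exact_mod_cast hp.pos
  have hz : ∑ m ∈ Icc 1 M, dspI c p q m * dspI c p q' m = 0 := by
    refine Finset.sum_eq_zero fun m _ => ?_
    unfold dspI
    by_cases h1 : (p : ℤ) ∣ (q : ℤ) * m - c
    · by_cases h2 : (p : ℤ) ∣ (q' : ℤ) * m - c
      · exfalso
        have h3 : (p : ℤ) ∣ ((q : ℤ) - q') * m := by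
          have := dvd_sub h1 h2
          have e : (q : ℤ) * m - c - ((q' : ℤ) * m - c) = ((q : ℤ) - q') * m := by ring
          rwa [e] at this
        have hpI : Prime (p : ℤ) := Nat.prime_iff_prime_int.1 hp
        rcases hpI.dvd_or_dvd h3 with h4 | h4
        · have h5 := Int.le_of_dvd (a := (p : ℤ)) (b := |(q : ℤ) - q'|) (by
            rw [abs_pos, sub_ne_zero]; exact_mod_cast hne) ((dvd_abs _ _).2 h4)
          have h6 : |(q : ℤ) - q'| < p := by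
            rw [abs_lt]; constructor <;> omega
          omega
        · have h5 : (p : ℤ) ∣ c := by
            have h6 : (p : ℤ) ∣ (q : ℤ) * m := Dvd.dvd.mul_left h4 _
            have h7 := dvd_sub h6 h1
            have e : (q : ℤ) * m - ((q : ℤ) * m - c) = c := by ring
            rwa [e] at h7
          have h8 : (p : ℤ) ∣ 1 := by
            rcases hc with rfl | rfl
            · exact h5
            · exact (dvd_neg.1 h5)
          exact hpI.not_isUnit (isUnit_of_dvd_one h8)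
      · rw [if_neg h2, mul_zero]
    · rw [if_neg h1, zero_mul]
  have h0 : 0 ≤ (∑ m ∈ Icc 1 M, dspI c p q m) * (1 / p) :=
    mul_nonneg (Finset.sum_nonneg fun m _ => dspI_nonneg c p q m) (by positivity)
  have h0' : 0 ≤ (∑ m ∈ Icc 1 M, dspI c p q' m) * (1 / p) :=
    mul_nonneg (Finset.sum_nonneg fun m _ => dspI_nonneg c p q' m) (by positivity)
  have e : (M : ℝ) * (1 / p * (1 / p)) = (M : ℝ) / (p : ℝ) ^ 2 := by field_simp
  rw [hz, e]
  linarith

/-- TARGET: dispersion estimate -/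
theorem disp (U P : Finset ℕ) (hU : ∀ q ∈ U, q.Prime) (hP : ∀ p ∈ P, p.Prime)
    (hlt : ∀ q ∈ U, ∀ p ∈ P, q < p) (c : ℤ) (hc : c = 1 ∨ c = -1) (M : ℕ) (b : ℕ → ℝ)
    (hb : ∀ m, |b m| ≤ 1) :
    (∑ p ∈ P, |∑ q ∈ U, ∑ m ∈ Icc 1 M,
        b m * ((if (p : ℤ) ∣ (q : ℤ) * m - c then (1 : ℝ) else 0) - 1 / p)|) ^ 2 ≤
      M * (2 * (P.card : ℝ) ^ 2 * (U.card : ℝ) ^ 2 + U.card * ∑ p ∈ P, ((M : ℝ) / p + 1) +
        (U.card : ℝ) ^ 2 * ∑ p ∈ P, (M : ℝ) / (p : ℝ) ^ 2) := by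
  set T : ℕ → ℕ → ℝ := fun p m => ∑ q ∈ U, (dspI c p q m - 1 / p) with hT
  set D : ℕ → ℝ := fun p => ∑ q ∈ U, ∑ m ∈ Icc 1 M, b m * (dspI c p q m - 1 / p) with hD
  set s : ℕ → ℝ := fun p => if 0 ≤ D p then 1 else -1 with hs
  have hss : ∀ p, s p * s p = 1 := by
    intro p; simp only [hs]; split_ifs <;> norm_num
  have habs : ∀ p, |s p| = 1 := by
    intro p; simp only [hs]; split_ifs <;> norm_num
  have hsD : ∀ p, |D p| = s p * D p := by
    intro p; simp only [hs]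
    split_ifs with h
    · rw [abs_of_nonneg h, one_mul]
    · rw [abs_of_neg (not_le.1 h)]; ring
  have hDT : ∀ p, D p = ∑ m ∈ Icc 1 M, b m * T p m := by
    intro p
    simp only [hD, hT]
    rw [Finset.sum_comm]
    refine Finset.sum_congr rfl fun m _ => ?_
    rw [Finset.mul_sum]
  set W : ℕ → ℝ := fun m => ∑ p ∈ P, s p * T p m with hW
  have hlhs : (∑ p ∈ P, |D p|) = ∑ m ∈ Icc 1 M, b m * W m := by
    calc (∑ p ∈ P, |D p|) = ∑ p ∈ P, ∑ m ∈ Icc 1 M, s p * (b m * T p m) := by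
          refine Finset.sum_congr rfl fun p _ => ?_
          rw [hsD, hDT, Finset.mul_sum]
      _ = ∑ m ∈ Icc 1 M, ∑ p ∈ P, s p * (b m * T p m) := Finset.sum_comm
      _ = _ := by
          refine Finset.sum_congr rfl fun m _ => ?_
          simp only [hW]
          rw [Finset.mul_sum]
          refine Finset.sum_congr rfl fun p _ => ?_
          ring
  have hbM : ∑ m ∈ Icc 1 M, b m ^ 2 ≤ M := by
    calc ∑ m ∈ Icc 1 M, b m ^ 2 ≤ ∑ m ∈ Icc 1 M, (1:ℝ) := by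
          refine Finset.sum_le_sum fun m _ => ?_
          rw [← sq_abs]
          have := hb m
          have h0 := abs_nonneg (b m)
          nlinarith
      _ = M := by simp
  set A : ℕ → ℝ := fun p => (U.card : ℝ) * ((M : ℝ) / p + 1) + (U.card : ℝ) ^ 2 * ((M : ℝ) / (p : ℝ) ^ 2)
    with hA
  set B : ℝ := 2 * (U.card : ℝ) ^ 2 with hB
  have hB0 : 0 ≤ B := by positivity
  have hA0 : ∀ p, 0 ≤ A p := by intro p; simp only [hA]; positivity
  -- H
  have hTT : ∀ p p', ∑ m ∈ Icc 1 M, T p m * T p' m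
      = ∑ q ∈ U, ∑ q' ∈ U, ∑ m ∈ Icc 1 M, (dspI c p q m - 1 / p) * (dspI c p' q' m - 1 / p') := by
    intro p p'
    simp only [hT, Finset.sum_mul_sum]
    rw [Finset.sum_comm]
    refine Finset.sum_congr rfl fun q _ => ?_
    rw [Finset.sum_comm]
  have hoff : ∀ p ∈ P, ∀ p' ∈ P, p ≠ p' → |∑ m ∈ Icc 1 M, T p m * T p' m| ≤ B := by
    intro p hp p' hp' hne
    rw [hTT]
    refine (Finset.abs_sum_le_sum_abs _ _).trans ?_
    calc ∑ q ∈ U, |∑ q' ∈ U, ∑ m ∈ Icc 1 M, (dspI c p q m - 1 / p) * (dspI c p' q' m - 1 / p')|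
        ≤ ∑ q ∈ U, ∑ q' ∈ U, (2:ℝ) := by
          refine Finset.sum_le_sum fun q hq => ?_
          refine (Finset.abs_sum_le_sum_abs _ _).trans ?_
          refine Finset.sum_le_sum fun q' hq' => ?_
          exact dsp_Ga c M p q p' q' (hP p hp) (hU q hq) (hlt q hq p hp) (hP p' hp') (hU q' hq')
            (hlt q' hq' p' hp') hne
      _ = B := by
          simp only [Finset.sum_const, nsmul_eq_mul, hB]; ring
  have hdiag : ∀ p ∈ P, ∑ m ∈ Icc 1 M, T p m * T p m ≤ A p := by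
    intro p hp
    rw [hTT]
    calc ∑ q ∈ U, ∑ q' ∈ U, ∑ m ∈ Icc 1 M, (dspI c p q m - 1 / p) * (dspI c p q' m - 1 / p)
        ≤ ∑ q ∈ U, ∑ q' ∈ U, ((if q = q' then (M : ℝ) / p + 1 else 0) + (M : ℝ) / (p : ℝ) ^ 2) := by
          refine Finset.sum_le_sum fun q hq => ?_
          refine Finset.sum_le_sum fun q' hq' => ?_
          by_cases h : q = q'
          · subst h
            rw [if_pos rfl]
            exact dsp_Gb c M p q (hP p hp) (hU q hq) (hlt q hq p hp)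
          · rw [if_neg h, zero_add]
            exact dsp_Gc c hc M p q q' (hP p hp) (hlt q hq p hp) (hlt q' hq' p hp) h
      _ = A p := by
          simp only [Finset.sum_add_distrib, Finset.sum_ite_eq, Finset.sum_const, nsmul_eq_mul, hA]
          rw [Finset.sum_ite_mem, Finset.inter_self, Finset.sum_const, nsmul_eq_mul]
          ring
  have hWsum : ∑ m ∈ Icc 1 M, W m ^ 2 ≤ ∑ p ∈ P, A p + (P.card : ℝ) ^ 2 * B := by
    have e1 : ∑ m ∈ Icc 1 M, W m ^ 2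
        = ∑ p ∈ P, ∑ p' ∈ P, s p * s p' * ∑ m ∈ Icc 1 M, T p m * T p' m := by
      have : ∀ m ∈ Icc 1 M, W m ^ 2 = ∑ p ∈ P, ∑ p' ∈ P, s p * s p' * (T p m * T p' m) := by
        intro m _
        simp only [hW]
        rw [pow_two, Finset.sum_mul_sum]
        refine Finset.sum_congr rfl fun p _ => Finset.sum_congr rfl fun p' _ => ?_
        ring
      rw [Finset.sum_congr rfl this, Finset.sum_comm]
      refine Finset.sum_congr rfl fun p _ => ?_
      rw [Finset.sum_comm]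
      refine Finset.sum_congr rfl fun p' _ => ?_
      rw [Finset.mul_sum]
    rw [e1]
    calc ∑ p ∈ P, ∑ p' ∈ P, s p * s p' * ∑ m ∈ Icc 1 M, T p m * T p' m
        ≤ ∑ p ∈ P, ∑ p' ∈ P, ((if p = p' then A p else 0) + B) := by
          refine Finset.sum_le_sum fun p hp => ?_
          refine Finset.sum_le_sum fun p' hp' => ?_
          by_cases h : p = p'
          · subst h
            rw [if_pos rfl, hss, one_mul]
            linarith [hdiag p hp]
          · rw [if_neg h, zero_add]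
            refine (le_abs_self _).trans ?_
            rw [abs_mul, abs_mul, habs, habs, one_mul, one_mul]
            exact hoff p hp p' hp' h
      _ = _ := by
          simp only [Finset.sum_add_distrib, Finset.sum_ite_eq, Finset.sum_const, nsmul_eq_mul]
          rw [Finset.sum_ite_mem, Finset.inter_self]
          ring
  have hcs : (∑ m ∈ Icc 1 M, b m * W m) ^ 2 ≤ (∑ m ∈ Icc 1 M, b m ^ 2) * ∑ m ∈ Icc 1 M, W m ^ 2 :=
    Finset.sum_mul_sq_le_sq_mul_sq _ _ _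
  have hlhs' : (∑ p ∈ P, |∑ q ∈ U, ∑ m ∈ Icc 1 M,
        b m * ((if (p : ℤ) ∣ (q : ℤ) * m - c then (1 : ℝ) else 0) - 1 / p)|) = ∑ p ∈ P, |D p| := rfl
  rw [hlhs', hlhs]
  calc (∑ m ∈ Icc 1 M, b m * W m) ^ 2 ≤ (∑ m ∈ Icc 1 M, b m ^ 2) * ∑ m ∈ Icc 1 M, W m ^ 2 := hcs
    _ ≤ M * ∑ m ∈ Icc 1 M, W m ^ 2 :=
        mul_le_mul_of_nonneg_right hbM (Finset.sum_nonneg fun m _ => sq_nonneg _)
    _ ≤ M * (∑ p ∈ P, A p + (P.card : ℝ) ^ 2 * B) :=
        mul_le_mul_of_nonneg_left hWsum (by positivity)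
    _ = _ := by
        simp only [hA, hB, Finset.sum_add_distrib, ← Finset.mul_sum]
        ring

end Pool.Agent.Descents.B2
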