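import Mathlib
import Pool.Agent.Helper564.Desc.Defs

set_option autoImplicit false

open Finset Filter Topology

namespace Pool.Agent.Descents.B3a

open Pool.Agent.Descents



/-- TARGET: grouping of the sets `A_q = {m ≤ X/q : f m ≤ t - f q}` into few classes -/
theorem classes (f : ℕ → ℝ) (t : ℝ) (X : ℕ) (I : Finset ℕ) (hI : ∀ q ∈ I, 1 ≤ q ∧ q ≤ X)
    (δ : ℝ) (hδ : 0 < δ) (hδ1 : δ ≤ 1) (R : ℕ) (hR : 1 ≤ R) :
    ∃ (K : Finset (ℕ × ℕ)) (cl : ℕ → ℕ × ℕ) (L V : ℕ × ℕ → Finset ℕ) (M : ℕ × ℕ → ℕ),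
      (K.card : ℝ) ≤ (Real.log X / Real.log (1 + δ) + 1) * (R + 1) ∧
      (∀ q ∈ I, cl q ∈ K) ∧
      (∀ q ∈ I, L (cl q) ⊆ (Icc 1 (X / q)).filter (fun m => f m ≤ t - f q)) ∧
      (∀ q ∈ I, (Icc 1 (X / q)).filter (fun m => f m ≤ t - f q) ⊆ V (cl q)) ∧
      (∀ q ∈ I, V (cl q) ⊆ Icc 1 (M (cl q))) ∧
      (∀ q ∈ I, (q : ℝ) * M (cl q) ≤ (1 + δ) * X) ∧
      (∀ q ∈ I, ∀ q' ∈ I, cl q = cl q' → (q' : ℝ) ≤ (1 + δ) * q) ∧
      ∑ q ∈ I, (((V (cl q)).card : ℝ) - (L (cl q)).card) ≤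
        (1 + δ) * (1 / R + δ) * X * (∑ q ∈ I, 1 / (q : ℝ)) + 2 * I.card := by
  classical
  -- basic facts
  have h1δ : (1:ℝ) < 1 + δ := by linarith
  have h1δ0 : (0:ℝ) < 1 + δ := by linarith
  have hlogδ : 0 < Real.log (1 + δ) := Real.log_pos h1δ
  set k : ℕ → ℕ := fun q => ⌊Real.log q / Real.log (1 + δ)⌋₊ with hk
  set M' : ℕ → ℕ := fun j => ⌊(X:ℝ) / (1 + δ) ^ j⌋₊ with hM'
  set M0 : ℕ → ℕ := fun j => ⌊(X:ℝ) / (1 + δ) ^ (j + 1)⌋₊ with hM0
  set A0 : ℕ → ℝ → Finset ℕ := fun j s => (Icc 1 (M0 j)).filter (fun m => f m ≤ t - s) with hA0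
  set r : ℕ → ℕ := fun q => (R * (A0 (k q) (f q)).card) / (M0 (k q) + 1) with hr
  set cl : ℕ → ℕ × ℕ := fun q => (k q, r q) with hcl
  have hklow : ∀ q : ℕ, 1 ≤ q → (1 + δ) ^ (k q) ≤ (q : ℝ) := by
    intro q hq
    have hq0 : (0:ℝ) < q := by exact_mod_cast hq
    have hlq : 0 ≤ Real.log q := Real.log_nonneg (by exact_mod_cast hq)
    have h1 : ((k q : ℕ) : ℝ) ≤ Real.log q / Real.log (1 + δ) := Nat.floor_le (by positivity)
    have h2 : (k q : ℝ) * Real.log (1 + δ) ≤ Real.log q := by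
      rwa [le_div_iff₀ hlogδ] at h1
    have h3 : Real.log ((1 + δ) ^ (k q)) ≤ Real.log q := by
      rw [Real.log_pow]; exact h2
    exact (Real.log_le_log_iff (by positivity) hq0).1 h3
  have hkup : ∀ q : ℕ, 1 ≤ q → (q : ℝ) < (1 + δ) ^ (k q + 1) := by
    intro q hq
    have hq0 : (0:ℝ) < q := by exact_mod_cast hq
    have h1 : Real.log q / Real.log (1 + δ) < (k q : ℝ) + 1 := Nat.lt_floor_add_one _
    have h2 : Real.log q < ((k q : ℝ) + 1) * Real.log (1 + δ) := by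
      rwa [div_lt_iff₀ hlogδ] at h1
    have h3 : Real.log q < Real.log ((1 + δ) ^ (k q + 1)) := by
      rw [Real.log_pow]; push_cast; exact h2
    exact (Real.log_lt_log_iff hq0 (by positivity)).1 h3
  have hM0M' : ∀ j, M0 j ≤ M' j := by
    intro j
    apply Nat.floor_le_floor
    apply div_le_div_of_nonneg_left (by positivity) (by positivity)
    exact pow_le_pow_right₀ h1δ.le (Nat.le_succ j)
  have hM0le : ∀ j, (M0 j : ℝ) ≤ (X:ℝ) / (1 + δ) ^ (j + 1) := fun j => Nat.floor_le (by positivity)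
  have hM'le : ∀ j, (M' j : ℝ) ≤ (X:ℝ) / (1 + δ) ^ j := fun j => Nat.floor_le (by positivity)
  have hM0gt : ∀ j, (X:ℝ) / (1 + δ) ^ (j + 1) < (M0 j : ℝ) + 1 := fun j => Nat.lt_floor_add_one _
  have hA0card : ∀ j s, (A0 j s).card ≤ M0 j := by
    intro j s
    refine (card_filter_le _ _).trans ?_
    simp
  have hA0mono : ∀ j s s', s ≤ s' → A0 j s' ⊆ A0 j s := by
    intro j s s' hss m hm
    simp only [hA0, mem_filter] at hm ⊢
    exact ⟨hm.1, by linarith [hm.2]⟩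
  -- the classes
  have key : ∀ κ : ℕ × ℕ, ∃ (Lk Vk : Finset ℕ),
      ∀ q ∈ I, cl q = κ →
        (Lk ⊆ (Icc 1 (X / q)).filter (fun m => f m ≤ t - f q)) ∧
        ((Icc 1 (X / q)).filter (fun m => f m ≤ t - f q) ⊆ Vk) ∧
        (Vk ⊆ Icc 1 (M' κ.1)) ∧
        ((Vk.card : ℝ) - Lk.card ≤ (1 + δ) * (1 / R + δ) * X * (1 / (q : ℝ)) + 2) := by
    intro κ
    by_cases hne : (I.filter (fun q => cl q = κ)).Nonempty
    · obtain ⟨lo, hlo, hlo2⟩ := exists_max_image (I.filter (fun q => cl q = κ)) f hne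
      obtain ⟨hi, hhi, hhi2⟩ := exists_min_image (I.filter (fun q => cl q = κ)) f hne
      rw [mem_filter] at hlo hhi
      have hklo : k lo = κ.1 := by rw [← hlo.2]
      have hkhi : k hi = κ.1 := by rw [← hhi.2]
      have hrlo : r lo = κ.2 := by rw [← hlo.2]
      have hrhi : r hi = κ.2 := by rw [← hhi.2]
      refine ⟨A0 κ.1 (f lo), A0 κ.1 (f hi) ∪ Ioc (M0 κ.1) (M' κ.1), ?_⟩
      intro q hqI hqκ
      have hq1 : 1 ≤ q := (hI q hqI).1
      have hq0 : (0:ℝ) < q := by exact_mod_cast hq1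
      have hkq : k q = κ.1 := by rw [← hqκ]
      have hmem : q ∈ I.filter (fun q => cl q = κ) := mem_filter.2 ⟨hqI, hqκ⟩
      have hflo := hlo2 q hmem
      have hfhi := hhi2 q hmem
      have hqlow := hklow q hq1
      have hqup := hkup q hq1
      rw [hkq] at hqlow hqup
      refine ⟨?_, ?_, ?_, ?_⟩
      · intro m hm
        have hm2 := hA0mono κ.1 _ _ hflo hm
        simp only [hA0, mem_filter, mem_Icc] at hm2
        rw [mem_filter, mem_Icc]
        refine ⟨⟨hm2.1.1, ?_⟩, hm2.2⟩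
        rw [Nat.le_div_iff_mul_le hq1]
        have h1 : (m:ℝ) ≤ (X:ℝ) / (1 + δ) ^ (κ.1 + 1) :=
          le_trans (by exact_mod_cast hm2.1.2) (hM0le κ.1)
        rw [le_div_iff₀ (by positivity)] at h1
        have h2 : (m:ℝ) * q ≤ X :=
          le_trans (mul_le_mul_of_nonneg_left hqup.le (by positivity)) h1
        exact_mod_cast h2
      · intro m hm
        rw [mem_filter, mem_Icc] at hm
        rw [mem_union]
        by_cases hmM : m ≤ M0 κ.1
        · left
          apply hA0mono κ.1 _ _ hfhi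
          simp only [hA0, mem_filter, mem_Icc]
          exact ⟨⟨hm.1.1, hmM⟩, hm.2⟩
        · right
          rw [mem_Ioc]
          refine ⟨by omega, ?_⟩
          apply Nat.le_floor
          rw [le_div_iff₀ (by positivity)]
          have h1 : m * q ≤ X := by
            rw [← Nat.le_div_iff_mul_le hq1]; exact hm.1.2
          have h2 : (m:ℝ) * q ≤ X := by exact_mod_cast h1
          exact le_trans (mul_le_mul_of_nonneg_left hqlow (by positivity)) h2
      · intro m hm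
        rw [mem_union] at hm
        rw [mem_Icc]
        rcases hm with hm | hm
        · simp only [hA0, mem_filter, mem_Icc] at hm
          exact ⟨hm.1.1, hm.1.2.trans (hM0M' κ.1)⟩
        · rw [mem_Ioc] at hm
          exact ⟨by omega, hm.2⟩
      · have hc1 : ((A0 κ.1 (f hi) ∪ Ioc (M0 κ.1) (M' κ.1)).card : ℝ) ≤
            (A0 κ.1 (f hi)).card + ((M' κ.1 : ℝ) - M0 κ.1) := by
          have := card_union_le (A0 κ.1 (f hi)) (Ioc (M0 κ.1) (M' κ.1))
          rw [Nat.card_Ioc] at this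
          have h2 : ((A0 κ.1 (f hi) ∪ Ioc (M0 κ.1) (M' κ.1)).card : ℝ) ≤
            (((A0 κ.1 (f hi)).card + (M' κ.1 - M0 κ.1) : ℕ) : ℝ) := by exact_mod_cast this
          rw [Nat.cast_add, Nat.cast_sub (hM0M' κ.1)] at h2
          exact h2
        have hR0 : (0:ℝ) < R := by exact_mod_cast hR
        have hd1 : ((A0 κ.1 (f hi)).card : ℝ) - (A0 κ.1 (f lo)).card ≤ ((M0 κ.1 : ℝ) + 1) / R := by
          have e1 : (R * (A0 κ.1 (f hi)).card) / (M0 κ.1 + 1) = κ.2 := by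
            rw [← hrhi]; simp only [hr, hkhi]
          have e2 : (R * (A0 κ.1 (f lo)).card) / (M0 κ.1 + 1) = κ.2 := by
            rw [← hrlo]; simp only [hr, hklo]
          have g1 : R * (A0 κ.1 (f hi)).card < (κ.2 + 1) * (M0 κ.1 + 1) := by
            rw [← Nat.div_lt_iff_lt_mul (Nat.succ_pos _), e1]; exact Nat.lt_succ_self _
          have g2 : κ.2 * (M0 κ.1 + 1) ≤ R * (A0 κ.1 (f lo)).card := by
            rw [← e2]; exact Nat.div_mul_le_self _ _
          have g1' : (R:ℝ) * (A0 κ.1 (f hi)).card < ((κ.2:ℝ) + 1) * ((M0 κ.1:ℝ) + 1) := by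
            exact_mod_cast g1
          have g2' : (κ.2:ℝ) * ((M0 κ.1:ℝ) + 1) ≤ R * (A0 κ.1 (f lo)).card := by
            exact_mod_cast g2
          rw [le_div_iff₀ hR0]
          nlinarith
        have hd2 : ((M0 κ.1 : ℝ) + 1) / R ≤ ((X:ℝ) / (1 + δ) ^ κ.1) * (1 / R) + 1 := by
          have h1 : (M0 κ.1 : ℝ) ≤ (X:ℝ) / (1 + δ) ^ κ.1 :=
            le_trans (by exact_mod_cast hM0M' κ.1) (hM'le κ.1)
          have h2 : (1:ℝ) / R ≤ 1 := by
            rw [div_le_one hR0]; exact_mod_cast hR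
          have h3 : ((M0 κ.1 : ℝ) + 1) / R = (M0 κ.1 : ℝ) * (1 / R) + 1 / R := by ring
          rw [h3]
          have h4 : (M0 κ.1 : ℝ) * (1 / R) ≤ ((X:ℝ) / (1 + δ) ^ κ.1) * (1 / R) :=
            mul_le_mul_of_nonneg_right h1 (by positivity)
          linarith
        have hd3 : (M' κ.1 : ℝ) - M0 κ.1 ≤ ((X:ℝ) / (1 + δ) ^ κ.1) * δ + 1 := by
          have h1 := hM'le κ.1
          have h2 := hM0gt κ.1
          have h3 : (X:ℝ) / (1 + δ) ^ κ.1 - (X:ℝ) / (1 + δ) ^ (κ.1 + 1) ≤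
              ((X:ℝ) / (1 + δ) ^ κ.1) * δ := by
            have e : (X:ℝ) / (1 + δ) ^ κ.1 - (X:ℝ) / (1 + δ) ^ (κ.1 + 1) =
              ((X:ℝ) / (1 + δ) ^ κ.1) * (δ / (1 + δ)) := by
              field_simp
              ring
            rw [e]
            apply mul_le_mul_of_nonneg_left _ (by positivity)
            exact div_le_self hδ.le h1δ.le
          linarith
        have hX : (X:ℝ) / (1 + δ) ^ κ.1 ≤ (1 + δ) * X * (1 / (q:ℝ)) := by
          rw [mul_one_div, div_le_div_iff₀ (by positivity) hq0]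
          have : (q:ℝ) ≤ (1 + δ) ^ κ.1 * (1 + δ) := by
            rw [← pow_succ]; exact hqup.le
          calc (X:ℝ) * q ≤ X * ((1 + δ) ^ κ.1 * (1 + δ)) :=
                mul_le_mul_of_nonneg_left this (by positivity)
            _ = (1 + δ) * X * (1 + δ) ^ κ.1 := by ring
        have hfin : ((X:ℝ) / (1 + δ) ^ κ.1) * (1 / R + δ) ≤
            (1 + δ) * (1 / R + δ) * X * (1 / (q : ℝ)) := by
          calc ((X:ℝ) / (1 + δ) ^ κ.1) * (1 / R + δ) ≤
              ((1 + δ) * X * (1 / (q:ℝ))) * (1 / R + δ) :=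
                mul_le_mul_of_nonneg_right hX (by positivity)
            _ = _ := by ring
        have hexp : ((X:ℝ) / (1 + δ) ^ κ.1) * (1 / R + δ) =
            ((X:ℝ) / (1 + δ) ^ κ.1) * (1 / R) + ((X:ℝ) / (1 + δ) ^ κ.1) * δ := by ring
        linarith
    · refine ⟨∅, ∅, ?_⟩
      intro q hqI hqκ
      exact absurd ⟨q, mem_filter.2 ⟨hqI, hqκ⟩⟩ hne
  choose L V hLV using key
  refine ⟨range (⌊Real.log X / Real.log (1 + δ)⌋₊ + 1) ×ˢ range (R + 1), cl, L, V,
    fun κ => M' κ.1, ?_, ?_, ?_, ?_, ?_, ?_, ?_, ?_⟩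
  · rw [card_product, card_range, card_range]
    push_cast
    apply mul_le_mul_of_nonneg_right _ (by positivity)
    have : (0:ℝ) ≤ Real.log X / Real.log (1 + δ) :=
      div_nonneg (Real.log_natCast_nonneg X) hlogδ.le
    linarith [Nat.floor_le this]
  · intro q hq
    have hq1 := (hI q hq).1
    rw [mem_product, mem_range, mem_range]
    constructor
    · apply Nat.lt_succ_of_le
      apply Nat.floor_le_floor
      apply div_le_div_of_nonneg_right _ hlogδ.le
      apply Real.log_le_log (by exact_mod_cast hq1)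
      exact_mod_cast (hI q hq).2
    · apply Nat.lt_succ_of_le
      show (R * (A0 (k q) (f q)).card) / (M0 (k q) + 1) ≤ R
      apply Nat.div_le_of_le_mul
      have := hA0card (k q) (f q)
      calc R * (A0 (k q) (f q)).card ≤ R * (M0 (k q) + 1) :=
            Nat.mul_le_mul_left _ (by omega)
        _ = (M0 (k q) + 1) * R := by ring
  · intro q hq
    exact (hLV (cl q) q hq rfl).1
  · intro q hq
    exact (hLV (cl q) q hq rfl).2.1
  · intro q hq
    exact (hLV (cl q) q hq rfl).2.2.1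
  · intro q hq
    have hq1 := (hI q hq).1
    have h1 := hM'le (k q)
    have h2 := hkup q hq1
    have h3 : (q:ℝ) * M' (k q) ≤ ((1 + δ) ^ (k q + 1)) * ((X:ℝ) / (1 + δ) ^ (k q)) :=
      mul_le_mul h2.le h1 (by positivity) (by positivity)
    have h4 : ((1 + δ) ^ (k q + 1)) * ((X:ℝ) / (1 + δ) ^ (k q)) = (1 + δ) * X := by
      rw [pow_succ]; field_simp
    calc (q:ℝ) * M' (cl q).1 ≤ _ := h3
      _ = _ := h4
  · intro q hq q' hq' hqq
    have hk2 : k q = k q' := congrArg Prod.fst hqq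
    have h1 := hklow q (hI q hq).1
    have h2 := hkup q' (hI q' hq').1
    rw [← hk2, pow_succ] at h2
    nlinarith
  · calc ∑ q ∈ I, (((V (cl q)).card : ℝ) - (L (cl q)).card)
        ≤ ∑ q ∈ I, ((1 + δ) * (1 / R + δ) * X * (1 / (q : ℝ)) + 2) :=
          sum_le_sum (fun q hq => (hLV (cl q) q hq rfl).2.2.2)
      _ = (1 + δ) * (1 / R + δ) * X * (∑ q ∈ I, 1 / (q : ℝ)) + 2 * I.card := by
          rw [sum_add_distrib, ← mul_sum, sum_const, nsmul_eq_mul]
          ring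

end Pool.Agent.Descents.B3a
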