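import Mathlib
import Pool.Agent.Helper564.Desc.Defs
import Pool.Agent.Helper564.Desc.B2

set_option autoImplicit false

open Finset Filter Topology

namespace Pool.Agent.Descents.B3b

open Pool.Agent.Descents
open Pool.Agent.Descents.B2




theorem aux663_final (x L γ M u P0 S1 S2 : ℝ) (hx : 1 ≤ x) (hL : 0 ≤ L) (hγ : 0 < γ)
    (hγ1 : γ ≤ 0.05) (hu0 : 0 ≤ u) (hM0 : 0 ≤ M) (hP0 : 0 ≤ P0) (hS10 : 0 ≤ S1) (hS20 : 0 ≤ S2)
    (huM : u * M ≤ 4 * x) (hM : M ≤ 2 * x ^ (1 - γ)) (hu : u ≤ 2 * x ^ (0.05 : ℝ))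
    (hP : P0 ≤ x ^ (0.45 : ℝ)) (hS1 : S1 ≤ 1 + L) (hS2 : S2 ≤ x ^ (-0.15 : ℝ) * (1 + L)) :
    M * (2 * P0 ^ 2 * u ^ 2 + u * (M * S1 + P0) + u ^ 2 * (M * S2)) ≤
      (8 * (1 + L) * x ^ (1 - γ / 2)) ^ 2 := by
  have hx0 : 0 < x := by linarith
  set T := x ^ (2 - γ) with hT
  have hT0 : 0 < T := Real.rpow_pos_of_pos hx0 _
  have e1 : x * x ^ (0.05 : ℝ) * (x ^ (0.45 : ℝ)) ^ 2 ≤ T := by
    have : x * x ^ (0.05 : ℝ) * (x ^ (0.45 : ℝ)) ^ 2 = x ^ (1.95 : ℝ) := by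
      rw [← Real.rpow_natCast (x ^ (0.45 : ℝ)) 2, ← Real.rpow_mul hx0.le]
      nth_rewrite 1 [← Real.rpow_one x]
      rw [← Real.rpow_add hx0, ← Real.rpow_add hx0]
      congr 1; norm_num
    rw [this]
    exact Real.rpow_le_rpow_of_exponent_le hx (by linarith)
  have e2 : x * x ^ (1 - γ) = T := by
    nth_rewrite 1 [← Real.rpow_one x]
    rw [← Real.rpow_add hx0, hT]
    congr 1; ring
  have e3 : x * x ^ (0.45 : ℝ) ≤ T := by
    have : x * x ^ (0.45 : ℝ) = x ^ (1.45 : ℝ) := by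
      nth_rewrite 1 [← Real.rpow_one x]
      rw [← Real.rpow_add hx0]
      congr 1; norm_num
    rw [this]
    exact Real.rpow_le_rpow_of_exponent_le hx (by linarith)
  have e4 : x ^ 2 * x ^ (-0.15 : ℝ) ≤ T := by
    have : x ^ 2 * x ^ (-0.15 : ℝ) = x ^ (1.85 : ℝ) := by
      rw [← Real.rpow_natCast x 2, ← Real.rpow_add hx0]
      congr 1; norm_num
    rw [this]
    exact Real.rpow_le_rpow_of_exponent_le hx (by linarith)
  have e5 : (x ^ (1 - γ / 2)) ^ 2 = T := by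
    rw [← Real.rpow_natCast (x ^ (1 - γ / 2)) 2, ← Real.rpow_mul hx0.le, hT]
    congr 1; push_cast; ring
  have p05 : 0 < x ^ (0.05 : ℝ) := Real.rpow_pos_of_pos hx0 _
  have p45 : 0 < x ^ (0.45 : ℝ) := Real.rpow_pos_of_pos hx0 _
  have p15 : 0 < x ^ (-0.15 : ℝ) := Real.rpow_pos_of_pos hx0 _
  have pg : 0 < x ^ (1 - γ) := Real.rpow_pos_of_pos hx0 _
  have t1 : M * (2 * P0 ^ 2 * u ^ 2) ≤ 16 * T := by
    calc M * (2 * P0 ^ 2 * u ^ 2) = 2 * (u * M) * u * P0 ^ 2 := by ring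
      _ ≤ 2 * (4 * x) * (2 * x ^ (0.05 : ℝ)) * (x ^ (0.45 : ℝ)) ^ 2 := by gcongr
      _ = 16 * (x * x ^ (0.05 : ℝ) * (x ^ (0.45 : ℝ)) ^ 2) := by ring
      _ ≤ 16 * T := by linarith
  have t2 : M * (u * (M * S1 + P0)) ≤ 12 * ((1 + L) * T) := by
    calc M * (u * (M * S1 + P0)) = (u * M) * (M * S1 + P0) := by ring
      _ ≤ (4 * x) * ((2 * x ^ (1 - γ)) * (1 + L) + x ^ (0.45 : ℝ)) := by gcongr
      _ = 8 * (1 + L) * (x * x ^ (1 - γ)) + 4 * (x * x ^ (0.45 : ℝ)) := by ring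
      _ ≤ 8 * (1 + L) * T + 4 * T := by rw [e2]; linarith
      _ ≤ 12 * ((1 + L) * T) := by nlinarith
  have t3 : M * (u ^ 2 * (M * S2)) ≤ 16 * ((1 + L) * T) := by
    calc M * (u ^ 2 * (M * S2)) = (u * M) ^ 2 * S2 := by ring
      _ ≤ (4 * x) ^ 2 * (x ^ (-0.15 : ℝ) * (1 + L)) := by gcongr
      _ = 16 * (1 + L) * (x ^ 2 * x ^ (-0.15 : ℝ)) := by ring
      _ ≤ 16 * (1 + L) * T := by gcongr
      _ = 16 * ((1 + L) * T) := by ring
  have e6 : (8 * (1 + L) * x ^ (1 - γ / 2)) ^ 2 = 64 * (1 + L) ^ 2 * T := by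
    rw [mul_pow, e5]; ring
  rw [e6]
  have h1 : T ≤ (1 + L) ^ 2 * T := by nlinarith [mul_nonneg hL hT0.le, mul_nonneg (mul_nonneg hL hL) hT0.le]
  have h2 : (1 + L) * T ≤ (1 + L) ^ 2 * T := by nlinarith [mul_nonneg hL hT0.le, mul_nonneg (mul_nonneg hL hL) hT0.le]
  calc M * (2 * P0 ^ 2 * u ^ 2 + u * (M * S1 + P0) + u ^ 2 * (M * S2))
      = M * (2 * P0 ^ 2 * u ^ 2) + M * (u * (M * S1 + P0)) + M * (u ^ 2 * (M * S2)) := by ring
    _ ≤ 64 * (1 + L) ^ 2 * T := by linarith [mul_pos (show (0:ℝ) < (1 + L) ^ 2 by positivity) hT0]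

/-- TARGET: power saving on average over `p` -/
theorem class_err (γ : ℝ) (hγ : 0 < γ) (hγ1 : γ ≤ 0.05) :
    ∃ C : ℝ, 0 ≤ C ∧ ∃ X0 : ℕ, ∀ X : ℕ, X0 ≤ X → ∀ U : Finset ℕ, U ⊆ PR X γ 0.05 →
      (∀ q ∈ U, ∀ q' ∈ U, (q' : ℝ) ≤ 2 * q) → ∀ M : ℕ, (∀ q ∈ U, (q : ℝ) * M ≤ 2 * X) →
      ∀ W : Finset ℕ, W ⊆ Icc 1 M → ∀ c : ℤ, (c = 1 ∨ c = -1) →
      ∑ p ∈ PR X 0.15 0.45, |∑ q ∈ U,
        (((W.filter (fun m : ℕ => (p : ℤ) ∣ (q : ℤ) * m - c)).card : ℝ) - (W.card : ℝ) / p)| ≤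
        C * (1 + Real.log X) * (X : ℝ) ^ (1 - γ / 2) := by
  refine ⟨8, by norm_num, 3, fun X hX U hU hU2 M hM W hW c hc => ?_⟩
  have hx3 : (3 : ℝ) ≤ X := by exact_mod_cast hX
  have hx1 : (1 : ℝ) ≤ X := by linarith
  have hx0 : (0 : ℝ) < X := by linarith
  have hL0 : 0 < Real.log X := Real.log_pos (by linarith)
  have hR0 : 0 ≤ 8 * (1 + Real.log X) * (X : ℝ) ^ (1 - γ / 2) := by positivity
  rcases U.eq_empty_or_nonempty with rfl | hne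
  · simpa using hR0
  have hPmem : ∀ p ∈ PR X 0.15 0.45, (1 ≤ p ∧ p ≤ X) ∧ p.Prime ∧
      0.15 * Real.log X < Real.log p ∧ Real.log p ≤ 0.45 * Real.log X := by
    intro p hp
    simpa [PR] using hp
  have hUmem : ∀ p ∈ U, (1 ≤ p ∧ p ≤ X) ∧ p.Prime ∧
      γ * Real.log X < Real.log p ∧ Real.log p ≤ 0.05 * Real.log X := by
    intro p hp
    simpa [PR] using hU hp
  have hd := disp U (PR X 0.15 0.45) (fun q hq => (hUmem q hq).2.1) (fun p hp => (hPmem p hp).2.1)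
    (by
      intro q hq p hp
      have h1 := (hUmem q hq).2.2.2
      have h2 := (hPmem p hp).2.2.1
      have h3 : Real.log q < Real.log p := by nlinarith
      have hq0 : (0:ℝ) < q := by exact_mod_cast (hUmem q hq).1.1
      have hp0 : (0:ℝ) < p := by exact_mod_cast (hPmem p hp).1.1
      exact_mod_cast (Real.log_lt_log_iff hq0 hp0).1 h3) c hc M
    (fun m => if m ∈ W then 1 else 0) (fun m => by
      by_cases h : m ∈ W <;> simp [h])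
  have hin : ∀ p q : ℕ, ∑ m ∈ Icc 1 M, (if m ∈ W then (1:ℝ) else 0) *
      ((if (p : ℤ) ∣ (q : ℤ) * m - c then (1 : ℝ) else 0) - 1 / p) =
      ((W.filter (fun m : ℕ => (p : ℤ) ∣ (q : ℤ) * m - c)).card : ℝ) - (W.card : ℝ) / p := by
    intro p q
    have h1 : ∑ m ∈ Icc 1 M, (if m ∈ W then (1:ℝ) else 0) *
      ((if (p : ℤ) ∣ (q : ℤ) * m - c then (1 : ℝ) else 0) - 1 / p) =
      ∑ m ∈ W, ((if (p : ℤ) ∣ (q : ℤ) * m - c then (1 : ℝ) else 0) - 1 / p) := by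
      simp only [ite_mul, one_mul, zero_mul]
      rw [← Finset.sum_filter]
      congr 1
      ext m
      simp only [Finset.mem_filter]
      exact ⟨fun h => h.2, fun h => ⟨hW h, h⟩⟩
    rw [h1, Finset.sum_sub_distrib, Finset.sum_boole, Finset.sum_const, nsmul_eq_mul]
    ring
  simp only [hin] at hd
  -- the bounds
  have hPcard : ((PR X 0.15 0.45).card : ℝ) ≤ (X : ℝ) ^ (0.45 : ℝ) := by
    have hsub : PR X 0.15 0.45 ⊆ Icc 1 ⌊(X : ℝ) ^ (0.45 : ℝ)⌋₊ := by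
      intro p hp
      have h := hPmem p hp
      rw [Finset.mem_Icc]
      exact ⟨h.1.1, Nat.le_floor (Real.le_rpow_of_log_le hx0 h.2.2.2)⟩
    have h1 := Finset.card_le_card hsub
    rw [Nat.card_Icc, Nat.add_sub_cancel] at h1
    calc ((PR X 0.15 0.45).card : ℝ) ≤ (⌊(X : ℝ) ^ (0.45 : ℝ)⌋₊ : ℝ) := by exact_mod_cast h1
      _ ≤ (X : ℝ) ^ (0.45 : ℝ) := Nat.floor_le (by positivity)
  have hS1 : ∑ p ∈ PR X 0.15 0.45, (1 : ℝ) / p ≤ 1 + Real.log X := by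
    have h1 : ∑ p ∈ PR X 0.15 0.45, (1 : ℝ) / p ≤ ∑ p ∈ Icc 1 X, (1 : ℝ) / p :=
      Finset.sum_le_sum_of_subset_of_nonneg (Finset.filter_subset _ _)
        (fun _ _ _ => by positivity)
    have h2 : ∑ p ∈ Icc 1 X, (1 : ℝ) / p = ((harmonic X : ℚ) : ℝ) := by
      rw [harmonic_eq_sum_Icc]
      push_cast
      exact Finset.sum_congr rfl fun i _ => by rw [one_div]
    rw [h2] at h1
    exact h1.trans (harmonic_le_one_add_log X)
  have hS2 : ∑ p ∈ PR X 0.15 0.45, (1 : ℝ) / (p : ℝ) ^ 2 ≤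
      (X : ℝ) ^ (-0.15 : ℝ) * (1 + Real.log X) := by
    calc ∑ p ∈ PR X 0.15 0.45, (1 : ℝ) / (p : ℝ) ^ 2 ≤
        ∑ p ∈ PR X 0.15 0.45, (X : ℝ) ^ (-0.15 : ℝ) * (1 / p) := by
          refine Finset.sum_le_sum fun p hp => ?_
          have h := hPmem p hp
          have hp0 : (0:ℝ) < p := by exact_mod_cast h.1.1
          have h1 : (X : ℝ) ^ (0.15 : ℝ) < p := by
            rw [← Real.log_lt_log_iff (by positivity) hp0, Real.log_rpow hx0]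
            exact h.2.2.1
          have h2 : (X : ℝ) ^ (-0.15 : ℝ) = ((X : ℝ) ^ (0.15 : ℝ))⁻¹ := by
            rw [← Real.rpow_neg hx0.le]
          have h3 : (1 : ℝ) / (p : ℝ) ^ 2 = (p : ℝ)⁻¹ * (1 / p) := by
            field_simp
          rw [h2, h3]
          have h4 : 0 < (X : ℝ) ^ (0.15 : ℝ) := by positivity
          gcongr
      _ = (X : ℝ) ^ (-0.15 : ℝ) * ∑ p ∈ PR X 0.15 0.45, (1 : ℝ) / p := by rw [Finset.mul_sum]
      _ ≤ _ := by gcongr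
  -- minimum of U
  set Q := U.min' hne with hQdef
  have hQ : Q ∈ U := Finset.min'_mem U hne
  have hQmin : ∀ q ∈ U, Q ≤ q := fun q hq => Finset.min'_le U q hq
  have hQ1 := hUmem Q hQ
  have hQ0 : (0:ℝ) < Q := by exact_mod_cast hQ1.1.1
  have hQge1 : (1:ℝ) ≤ Q := by exact_mod_cast hQ1.1.1
  have hQle : (Q : ℝ) ≤ (X : ℝ) ^ (0.05 : ℝ) := Real.le_rpow_of_log_le hx0 hQ1.2.2.2
  have hQge : (X : ℝ) ^ γ < Q := by
    rw [← Real.log_lt_log_iff (by positivity) hQ0, Real.log_rpow hx0]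
    exact hQ1.2.2.1
  have hUcard : (U.card : ℝ) ≤ 2 * Q := by
    have hsub : U ⊆ Icc Q (2 * Q) := by
      intro q hq
      rw [Finset.mem_Icc]
      exact ⟨hQmin q hq, by exact_mod_cast hU2 Q hQ q hq⟩
    have h1 := Finset.card_le_card hsub
    rw [Nat.card_Icc] at h1
    have h2 : U.card ≤ 2 * Q := by
      have : 1 ≤ Q := hQ1.1.1
      omega
    exact_mod_cast h2
  have hQM : (Q : ℝ) * M ≤ 2 * X := hM Q hQ
  have hM0 : (0:ℝ) ≤ M := Nat.cast_nonneg M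
  have huM : (U.card : ℝ) * M ≤ 4 * X := by
    calc (U.card : ℝ) * M ≤ 2 * Q * M := by gcongr
      _ = 2 * (Q * M) := by ring
      _ ≤ 4 * X := by linarith
  have hMle : (M : ℝ) ≤ 2 * (X : ℝ) ^ (1 - γ) := by
    have hg : 0 < (X : ℝ) ^ γ := by positivity
    have h1 : (X : ℝ) ^ γ * M ≤ 2 * X := by
      calc (X : ℝ) ^ γ * M ≤ Q * M := by gcongr
        _ ≤ 2 * X := hQM
    have h2 : 2 * (X : ℝ) ^ (1 - γ) = 2 * X / (X : ℝ) ^ γ := by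
      rw [Real.rpow_sub hx0, Real.rpow_one]; ring
    rw [h2, le_div_iff₀ hg]
    linarith
  have hfin := aux663_final (X : ℝ) (Real.log X) γ M U.card ((PR X 0.15 0.45).card)
    (∑ p ∈ PR X 0.15 0.45, (1 : ℝ) / p) (∑ p ∈ PR X 0.15 0.45, (1 : ℝ) / (p : ℝ) ^ 2)
    hx1 hL0.le hγ hγ1 (Nat.cast_nonneg _) hM0 (Nat.cast_nonneg _)
    (Finset.sum_nonneg fun _ _ => by positivity) (Finset.sum_nonneg fun _ _ => by positivity)
    huM hMle (by linarith) hPcard hS1 hS2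
  have hs1 : ∑ p ∈ PR X 0.15 0.45, ((M : ℝ) / p + 1) =
      (M : ℝ) * (∑ p ∈ PR X 0.15 0.45, (1 : ℝ) / p) + (PR X 0.15 0.45).card := by
    rw [Finset.sum_add_distrib, Finset.mul_sum, Finset.sum_const, nsmul_eq_mul, mul_one]
    congr 1
    exact Finset.sum_congr rfl fun p _ => by ring
  have hs2 : ∑ p ∈ PR X 0.15 0.45, (M : ℝ) / (p : ℝ) ^ 2 =
      (M : ℝ) * (∑ p ∈ PR X 0.15 0.45, (1 : ℝ) / (p : ℝ) ^ 2) := by
    rw [Finset.mul_sum]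
    exact Finset.sum_congr rfl fun p _ => by ring
  rw [hs1, hs2] at hd
  exact (sq_le_sq₀ (Finset.sum_nonneg fun _ _ => abs_nonneg _) hR0).1 (hd.trans hfin)

end Pool.Agent.Descents.B3b
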