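import Mathlib
import Pool.Agent.Helper564.Desc.Defs
import Pool.Agent.Helper559.Mertens

set_option autoImplicit false

open Finset Filter Topology

namespace Pool.Agent.Descents.J1

open Pool.Agent.Descents
open Pool.Agent.Helper559 (A1 A1_le le_A1)








lemma log_floor_ge (z : ℝ) (hz : 1 ≤ z) : Real.log z - 1 ≤ Real.log (⌊z⌋₊ : ℝ) := by
  have h1 : (1 : ℝ) ≤ (⌊z⌋₊ : ℝ) := by
    exact_mod_cast (Nat.one_le_floor_iff z).mpr hz
  have h2 : z / 2 ≤ (⌊z⌋₊ : ℝ) := by
    have := Nat.lt_floor_add_one z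
    linarith
  have h3 : Real.log (z / 2) ≤ Real.log (⌊z⌋₊ : ℝ) :=
    Real.log_le_log (by linarith) h2
  rw [Real.log_div (by linarith) (by norm_num)] at h3
  have h4 : Real.log 2 < 1 := by
    have := Real.log_two_lt_d9
    linarith
  linarith

/-- TARGET 1 -/
theorem PR_lower (a b η : ℝ) (ha : 0 < a) (hab : a < b) (hb : b ≤ 1) (hη : 0 < η) :
    ∃ X0 : ℕ, ∀ X : ℕ, X0 ≤ X → (b - a) / b - η ≤ ∑ p ∈ PR X a b, 1 / (p : ℝ) := by
  have hb0 : 0 < b := ha.trans hab
  refine ⟨⌈Real.exp (10 / (b * η))⌉₊ + 2, fun X hX => ?_⟩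
  have hX2 : 2 ≤ X := by omega
  have hXpos : (0 : ℝ) < X := by exact_mod_cast (by omega : 0 < X)
  have hX1 : (1 : ℝ) < X := by exact_mod_cast (by omega : 1 < X)
  have hXe : Real.exp (10 / (b * η)) ≤ X := by
    have h1 := Nat.le_ceil (Real.exp (10 / (b * η)))
    have h2 : ((⌈Real.exp (10 / (b * η))⌉₊ : ℕ) : ℝ) ≤ X := by
      exact_mod_cast (by omega : ⌈Real.exp (10 / (b * η))⌉₊ ≤ X)
    linarith
  set L := Real.log X with hL
  have hL0 : 0 < L := Real.log_pos hX1
  have hLη : 10 / (b * η) ≤ L := by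
    rw [hL, Real.le_log_iff_exp_le hXpos]
    exact hXe
  have hexpL : Real.exp L = X := Real.exp_log hXpos
  set x := ⌊Real.exp (b * L)⌋₊ with hx
  set y := ⌊Real.exp (a * L)⌋₊ with hy
  have hzx : 1 ≤ Real.exp (b * L) := Real.one_le_exp (by positivity)
  have hzy : 1 ≤ Real.exp (a * L) := Real.one_le_exp (by positivity)
  have hx1 : 1 ≤ x := (Nat.one_le_floor_iff _).mpr hzx
  have hy1 : 1 ≤ y := (Nat.one_le_floor_iff _).mpr hzy
  have hyx : y ≤ x := by
    apply Nat.floor_le_floor
    apply Real.exp_le_exp.mpr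
    exact mul_le_mul_of_nonneg_right hab.le hL0.le
  have hlogx : b * L - 1 ≤ Real.log x := by
    have := log_floor_ge (Real.exp (b * L)) hzx
    rwa [Real.log_exp] at this
  have hlogy : Real.log y ≤ a * L := by
    have h1 : (y : ℝ) ≤ Real.exp (a * L) := Nat.floor_le (by positivity)
    have h2 : Real.log y ≤ Real.log (Real.exp (a * L)) :=
      Real.log_le_log (by exact_mod_cast hy1) h1
    rwa [Real.log_exp] at h2
  have hA : A1 x - A1 y ≤ ∑ p ∈ PR X a b, Real.log p / p := by
    have h1 : A1 x - A1 y = ∑ p ∈ (Icc 1 x).filter Nat.Prime \ (Icc 1 y).filter Nat.Prime,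
        Real.log p / p := by
      have hsub : (Icc 1 y).filter Nat.Prime ⊆ (Icc 1 x).filter Nat.Prime := by
        apply Finset.filter_subset_filter
        exact Finset.Icc_subset_Icc_right hyx
      have := Finset.sum_sdiff (f := fun p : ℕ => Real.log p / (p : ℝ)) hsub
      unfold A1
      linarith
    rw [h1]
    apply Finset.sum_le_sum_of_subset_of_nonneg
    · intro p hp
      simp only [Finset.mem_sdiff, Finset.mem_filter, Finset.mem_Icc, not_and] at hp
      obtain ⟨⟨⟨hp1, hpx⟩, hpp⟩, hnot⟩ := hp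
      have hpy : y < p := by
        by_contra h
        exact hnot ⟨hp1, by omega⟩ hpp
      have hp0 : (0 : ℝ) < p := by exact_mod_cast hp1
      have h2 : (p : ℝ) ≤ Real.exp (b * L) := by
        have : (x : ℝ) ≤ Real.exp (b * L) := Nat.floor_le (by positivity)
        have h3 : (p : ℝ) ≤ x := by exact_mod_cast hpx
        linarith
      have h3 : Real.exp (a * L) < p := by
        exact (Nat.floor_lt (by positivity)).mp hpy
      simp only [PR, Finset.mem_filter, Finset.mem_Icc]
      refine ⟨⟨hp1, ?_⟩, hpp, ?_, ?_⟩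
      · have h4 : (p : ℝ) ≤ X := by
          rw [← hexpL]
          refine h2.trans ?_
          apply Real.exp_le_exp.mpr
          nlinarith
        exact_mod_cast h4
      · rw [Real.lt_log_iff_exp_lt hp0]
        exact h3
      · rw [Real.log_le_iff_le_exp hp0]
        exact h2
    · intro p hp _
      simp only [PR, Finset.mem_filter, Finset.mem_Icc] at hp
      have : (1 : ℝ) ≤ p := by exact_mod_cast hp.1.1
      have := Real.log_nonneg this
      positivity
  have hlow : (b - a) * L - 10 ≤ ∑ p ∈ PR X a b, Real.log p / p := by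
    have h1 := le_A1 x hx1
    have h2 := A1_le y hy1
    have h4 : Real.log 4 < 2 := by
      have h5 : (4 : ℝ) = 2 ^ 2 := by norm_num
      rw [h5, Real.log_pow]
      have := Real.log_two_lt_d9
      push_cast
      linarith
    linarith
  have hcmp : (∑ p ∈ PR X a b, Real.log p / p) / (b * L) ≤ ∑ p ∈ PR X a b, 1 / (p : ℝ) := by
    rw [Finset.sum_div]
    apply Finset.sum_le_sum
    intro p hp
    simp only [PR, Finset.mem_filter, Finset.mem_Icc] at hp
    have hp0 : (0 : ℝ) < p := by exact_mod_cast hp.1.1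
    have hbL : 0 < b * L := by positivity
    rw [div_div, div_le_div_iff₀ (by positivity) hp0, one_mul]
    have := hp.2.2.2
    nlinarith
  refine le_trans ?_ hcmp
  rw [le_div_iff₀ (by positivity)]
  refine le_trans ?_ hlow
  have h1 : 10 ≤ L * (b * η) := by
    rwa [div_le_iff₀ (by positivity)] at hLη
  have h2 : ((b - a) / b - η) * (b * L) = (b - a) * L - L * (b * η) := by
    field_simp
  rw [h2]
  linarith

/-- TARGET 2 -/
theorem PR_large (b S : ℝ) (hb : 0 < b) (hb1 : b ≤ 1) :
    ∃ a : ℝ, 0 < a ∧ a < b ∧ ∃ X0 : ℕ, ∀ X : ℕ, X0 ≤ X → S ≤ ∑ p ∈ PR X a b, 1 / (p : ℝ) := by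
  have key : ∀ k : ℕ, ∃ X0 : ℕ, ∀ X : ℕ, X0 ≤ X →
      (k : ℝ) / 4 ≤ ∑ p ∈ PR X (b / 2 ^ k) b, 1 / (p : ℝ) := by
    intro k
    induction k with
    | zero =>
      refine ⟨0, fun X _ => ?_⟩
      simp only [Nat.cast_zero, zero_div]
      apply Finset.sum_nonneg
      intro p _
      positivity
    | succ k ih =>
      obtain ⟨X0, hX0⟩ := ih
      have hbk : 0 < b / 2 ^ k := by positivity
      have hbk1 : b / 2 ^ k ≤ b := by
        apply div_le_self hb.le
        exact one_le_pow₀ (by norm_num)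
      have hbk2 : b / 2 ^ (k + 1) = (b / 2 ^ k) / 2 := by
        rw [pow_succ, div_div]
      obtain ⟨X1, hX1⟩ := PR_lower (b / 2 ^ (k + 1)) (b / 2 ^ k) (1 / 4) (by positivity)
        (by rw [hbk2]; linarith) (by linarith) (by norm_num)
      refine ⟨max (max X0 X1) 2, fun X hX => ?_⟩
      have h0 := hX0 X (le_trans (le_trans (le_max_left _ _) (le_max_left _ _)) hX)
      have h1 := hX1 X (le_trans (le_trans (le_max_right _ _) (le_max_left _ _)) hX)
      have hX2 : 2 ≤ X := le_trans (le_max_right _ _) hX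
      have hL0 : 0 < Real.log X := Real.log_pos (by exact_mod_cast (by omega : 1 < X))
      have h2 : (b / 2 ^ k - b / 2 ^ (k + 1)) / (b / 2 ^ k) = 1 / 2 := by
        rw [hbk2]
        field_simp
        norm_num
      rw [h2] at h1
      have hdisj : Disjoint (PR X (b / 2 ^ (k + 1)) (b / 2 ^ k)) (PR X (b / 2 ^ k) b) := by
        rw [Finset.disjoint_left]
        intro p hp hp'
        simp only [PR, Finset.mem_filter] at hp hp'
        have := hp.2.2.2
        have := hp'.2.2.1
        linarith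
      have hsub : (PR X (b / 2 ^ (k + 1)) (b / 2 ^ k)) ∪ (PR X (b / 2 ^ k) b) ⊆
          PR X (b / 2 ^ (k + 1)) b := by
        intro p hp
        rw [Finset.mem_union] at hp
        simp only [PR, Finset.mem_filter] at hp ⊢
        rcases hp with hp | hp
        · refine ⟨hp.1, hp.2.1, hp.2.2.1, hp.2.2.2.trans ?_⟩
          exact mul_le_mul_of_nonneg_right hbk1 hL0.le
        · refine ⟨hp.1, hp.2.1, lt_of_le_of_lt ?_ hp.2.2.1, hp.2.2.2⟩
          apply mul_le_mul_of_nonneg_right _ hL0.le
          rw [hbk2]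
          linarith
      have h3 := Finset.sum_le_sum_of_subset_of_nonneg (f := fun p : ℕ => 1 / (p : ℝ)) hsub
        (fun p _ _ => by positivity)
      rw [Finset.sum_union hdisj] at h3
      push_cast
      linarith
  obtain ⟨k, hk⟩ := exists_nat_ge (4 * S)
  obtain ⟨X0, hX0⟩ := key (k + 1)
  refine ⟨b / 2 ^ (k + 1), by positivity, ?_, X0, fun X hX => ?_⟩
  · apply div_lt_self hb
    exact one_lt_pow₀ (by norm_num) (by omega)
  · refine le_trans ?_ (hX0 X hX)
    push_cast
    linarith

end Pool.Agent.Descents.J1
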