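import Mathlib
import Pool.Agent.Helper564.Desc.Defs
import Pool.Agent.Helper564.Desc.B3a
import Pool.Agent.Helper564.Desc.B3b
import Pool.Agent.Helper564.Desc.B1
import Pool.Agent.Helper564.Desc.J1

set_option autoImplicit false

open Finset Filter Topology

namespace Pool.Agent.Descents.B3c

open Pool.Agent.Descents
open Pool.Agent.Descents.B3a
open Pool.Agent.Descents.B3b
open Pool.Agent.Descents.B1
open Pool.Agent.Descents.J1












theorem mem_PR' {X : ℕ} {a b : ℝ} {p : ℕ} : p ∈ PR X a b ↔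
    (1 ≤ p ∧ p ≤ X) ∧ p.Prime ∧ a * Real.log X < Real.log p ∧ Real.log p ≤ b * Real.log X := by
  unfold PR; rw [mem_filter, mem_Icc]

theorem PR_le_rpow {X : ℕ} {a b : ℝ} {p : ℕ} (h : p ∈ PR X a b) : (p : ℝ) ≤ (X : ℝ) ^ b := by
  rw [mem_PR'] at h
  obtain ⟨⟨h1, h2⟩, -, -, h4⟩ := h
  have hX : (0 : ℝ) < X := by exact_mod_cast (by omega : 0 < X)
  have hp : (0 : ℝ) < p := by exact_mod_cast (by omega : 0 < p)
  rw [Real.rpow_def_of_pos hX, mul_comm]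
  calc (p : ℝ) = Real.exp (Real.log p) := (Real.exp_log hp).symm
    _ ≤ Real.exp (b * Real.log X) := Real.exp_le_exp.mpr h4

theorem PR_rpow_lt {X : ℕ} {a b : ℝ} {p : ℕ} (h : p ∈ PR X a b) : (X : ℝ) ^ a < (p : ℝ) := by
  rw [mem_PR'] at h
  obtain ⟨⟨h1, h2⟩, -, h3, -⟩ := h
  have hX : (0 : ℝ) < X := by exact_mod_cast (by omega : 0 < X)
  have hp : (0 : ℝ) < p := by exact_mod_cast (by omega : 0 < p)
  rw [Real.rpow_def_of_pos hX, mul_comm]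
  calc Real.exp (a * Real.log X) < Real.exp (Real.log p) := Real.exp_lt_exp.mpr h3
    _ = p := Real.exp_log hp

theorem card_class (Y d : ℕ) (hd : 1 ≤ d) (W : Finset ℕ) (hW : W ⊆ Icc 1 Y)
    (h : ∀ m ∈ W, ∀ m' ∈ W, m % d = m' % d) : (W.card : ℝ) ≤ (Y : ℝ) / d + 1 := by
  have h1 : W.card ≤ (Finset.range (Y / d + 1)).card := by
    apply Finset.card_le_card_of_injOn (fun m => m / d)
    · intro m hm
      have := mem_Icc.mp (hW hm)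
      simp only [Finset.coe_range, Set.mem_Iio]
      exact Nat.lt_succ_of_le (Nat.div_le_div_right this.2)
    · intro m hm m' hm' hmm
      have h2 := h m hm m' hm'
      simp only at hmm
      rw [← Nat.div_add_mod m d, ← Nat.div_add_mod m' d, hmm, h2]
  rw [Finset.card_range] at h1
  calc (W.card : ℝ) ≤ ((Y / d + 1 : ℕ) : ℝ) := by exact_mod_cast h1
    _ = ((Y / d : ℕ) : ℝ) + 1 := by push_cast; ring
    _ ≤ (Y : ℝ) / d + 1 := by gcongr; exact Nat.cast_div_le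

theorem cong_of_dvd (d a : ℕ) (c : ℤ) (hc : Nat.Coprime a d) (m m' : ℕ)
    (h : (d : ℤ) ∣ (a : ℤ) * m - c) (h' : (d : ℤ) ∣ (a : ℤ) * m' - c) : m % d = m' % d := by
  have h1 : (d : ℤ) ∣ (a : ℤ) * ((m' : ℤ) - m) := by
    have := dvd_sub h' h
    have e : (a : ℤ) * m' - c - ((a : ℤ) * m - c) = a * (m' - m) := by ring
    rwa [e] at this
  have h2 : (d : ℤ) ∣ (m' : ℤ) - m := by
    have hc' : IsCoprime (d : ℤ) (a : ℤ) := Nat.isCoprime_iff_coprime.mpr hc.symm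
    exact hc'.dvd_of_dvd_mul_left h1
  exact Int.natCast_modEq_iff.mp (Int.modEq_iff_dvd.mpr h2)

/-- number of `m ≤ X/q` with `f m ≤ t - f q` and `d ∣ q m - c` -/
noncomputable def aq (f : ℕ → ℝ) (X : ℕ) (t : ℝ) (c : ℤ) (d q : ℕ) : ℕ :=
  (((Icc 1 (X / q)).filter (fun m => f m ≤ t - f q)).filter
    (fun m : ℕ => (d : ℤ) ∣ (q : ℤ) * m - c)).card

theorem stepA (f : ℕ → ℝ) (X : ℕ) (t : ℝ) (c : ℤ) (I : Finset ℕ) (hI : ∀ q ∈ I, q.Prime)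
    (d : ℕ) (hd : 1 ≤ d) (hdX : d ≤ X) (hcop : ∀ q ∈ I, Nat.Coprime q d)
    (hS : 1 ≤ ∑ q ∈ I, 1 / (q : ℝ)) (hI2 : 5 * (I.card : ℝ) ^ 2 ≤ X / d) :
    |(∑ q ∈ I, 1 / (q : ℝ)) * (cntc f X t d c : ℝ) -
      ∑ n ∈ (Icc 1 X).filter (fun n : ℕ => (d : ℤ) ∣ (n : ℤ) - c ∧ f n ≤ t),
        ((I.filter (fun q => q ∣ n)).card : ℝ)| ≤
      2 * (X / d) * √(∑ q ∈ I, 1 / (q : ℝ)) := by
  obtain ⟨S, hSe⟩ : ∃ S, S = ∑ q ∈ I, 1 / (q : ℝ) := ⟨_, rfl⟩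
  have htk := tk I hI d hd hcop c X
  rw [← hSe] at hS htk ⊢
  have hd' : (0 : ℝ) < d := by exact_mod_cast hd
  have hXd : (1 : ℝ) ≤ X / d := by
    rw [le_div_iff₀ hd', one_mul]; exact_mod_cast hdX
  have hE : (((Icc 1 X).filter (fun n : ℕ => (d : ℤ) ∣ (n : ℤ) - c)).card : ℝ) ≤ 2 * (X / d) := by
    have := card_class X d hd ((Icc 1 X).filter (fun n : ℕ => (d : ℤ) ∣ (n : ℤ) - c))
      (filter_subset _ _) (by
        intro m hm m' hm'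
        rw [mem_filter] at hm hm'
        exact cong_of_dvd d 1 c (Nat.coprime_one_left d) m m' (by simpa using hm.2)
          (by simpa using hm'.2))
    linarith
  have h1 : |S * (cntc f X t d c : ℝ) -
      ∑ n ∈ (Icc 1 X).filter (fun n : ℕ => (d : ℤ) ∣ (n : ℤ) - c ∧ f n ≤ t),
        ((I.filter (fun q => q ∣ n)).card : ℝ)| ≤
      ∑ n ∈ (Icc 1 X).filter (fun n : ℕ => (d : ℤ) ∣ (n : ℤ) - c),
        |((I.filter (fun q => q ∣ n)).card : ℝ) - S| := by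
    have e : S * (cntc f X t d c : ℝ) -
      ∑ n ∈ (Icc 1 X).filter (fun n : ℕ => (d : ℤ) ∣ (n : ℤ) - c ∧ f n ≤ t),
        ((I.filter (fun q => q ∣ n)).card : ℝ) =
      ∑ n ∈ (Icc 1 X).filter (fun n : ℕ => (d : ℤ) ∣ (n : ℤ) - c ∧ f n ≤ t),
        (S - ((I.filter (fun q => q ∣ n)).card : ℝ)) := by
      rw [sum_sub_distrib, sum_const, nsmul_eq_mul]
      unfold cntc
      ring
    rw [e]
    refine (abs_sum_le_sum_abs _ _).trans ?_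
    calc ∑ n ∈ (Icc 1 X).filter (fun n : ℕ => (d : ℤ) ∣ (n : ℤ) - c ∧ f n ≤ t),
        |S - ((I.filter (fun q => q ∣ n)).card : ℝ)|
        = ∑ n ∈ (Icc 1 X).filter (fun n : ℕ => (d : ℤ) ∣ (n : ℤ) - c ∧ f n ≤ t),
        |((I.filter (fun q => q ∣ n)).card : ℝ) - S| := by
          apply sum_congr rfl
          intro n _
          rw [abs_sub_comm]
      _ ≤ _ := by
          apply sum_le_sum_of_subset_of_nonneg
          · intro n hn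
            rw [mem_filter] at hn ⊢
            exact ⟨hn.1, hn.2.1⟩
          · intro n _ _
            exact abs_nonneg _
  refine h1.trans ?_
  have h2 := sq_sum_le_card_mul_sum_sq (s := (Icc 1 X).filter (fun n : ℕ => (d : ℤ) ∣ (n : ℤ) - c))
    (f := fun n => |((I.filter (fun q => q ∣ n)).card : ℝ) - S|)
  simp only [sq_abs] at h2
  have h3 : (∑ n ∈ (Icc 1 X).filter (fun n : ℕ => (d : ℤ) ∣ (n : ℤ) - c),
        |((I.filter (fun q => q ∣ n)).card : ℝ) - S|) ^ 2 ≤ (2 * (X / d) * √S) ^ 2 := by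
    refine h2.trans ?_
    calc _ ≤ (2 * (X / d : ℝ)) * (S * X / d + 5 * (I.card : ℝ) ^ 2) := by
          gcongr
      _ ≤ (2 * (X / d : ℝ)) * (S * (X / d) + S * (X / d)) := by
          have : S * X / d = S * (X / d : ℝ) := by ring
          rw [this]
          have h4 : (5 : ℝ) * (I.card : ℝ) ^ 2 ≤ S * (X / d) := by nlinarith
          gcongr
      _ = (2 * (X / d)) ^ 2 * S := by ring
      _ = _ := by
          rw [mul_pow (2 * (X / d : ℝ)) (√S), Real.sq_sqrt (by linarith)]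
  exact le_of_sq_le_sq h3 (by positivity)

theorem stepB1 (f : ℕ → ℝ) (hf : Addi f) (X : ℕ) (t : ℝ) (c : ℤ) (d : ℕ) (hd : 1 ≤ d) (q : ℕ)
    (hq : q.Prime) (hcop : Nat.Coprime q d) :
    |((((Icc 1 X).filter (fun n : ℕ => (d : ℤ) ∣ (n : ℤ) - c ∧ f n ≤ t)).filter
      (fun n => q ∣ n)).card : ℝ) - (aq f X t c d q : ℝ)| ≤ (X / d : ℝ) / q ^ 2 + 1 := by
  have hq0 : 0 < q := hq.pos
  obtain ⟨B, hB⟩ : ∃ B, B = (Icc 1 (X / q)).filter
    (fun m : ℕ => (d : ℤ) ∣ (q : ℤ) * m - c ∧ f (q * m) ≤ t) := ⟨_, rfl⟩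
  obtain ⟨A, hA⟩ : ∃ A, A = ((Icc 1 (X / q)).filter (fun m => f m ≤ t - f q)).filter
    (fun m : ℕ => (d : ℤ) ∣ (q : ℤ) * m - c) := ⟨_, rfl⟩
  obtain ⟨E, hE⟩ : ∃ E, E = (Icc 1 (X / q)).filter
    (fun m : ℕ => q ∣ m ∧ (d : ℤ) ∣ (q : ℤ) * m - c) := ⟨_, rfl⟩
  have hBc : (((Icc 1 X).filter (fun n : ℕ => (d : ℤ) ∣ (n : ℤ) - c ∧ f n ≤ t)).filter
      (fun n => q ∣ n)).card = B.card := by
    symm
    apply Finset.card_bij (fun m _ => q * m)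
    · intro m hm
      rw [hB, mem_filter, mem_Icc] at hm
      rw [mem_filter, mem_filter, mem_Icc]
      refine ⟨⟨⟨?_, ?_⟩, ?_, hm.2.2⟩, dvd_mul_right _ _⟩
      · have := Nat.mul_pos hq0 hm.1.1
        omega
      · calc q * m ≤ q * (X / q) := Nat.mul_le_mul_left _ hm.1.2
          _ ≤ X := Nat.mul_div_le _ _
      · push_cast; exact hm.2.1
    · intro a _ b _ hab
      exact Nat.eq_of_mul_eq_mul_left hq0 hab
    · intro n hn
      rw [mem_filter, mem_filter, mem_Icc] at hn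
      obtain ⟨⟨⟨h1, h2⟩, h3, h4⟩, m, rfl⟩ := hn
      refine ⟨m, ?_, rfl⟩
      rw [hB, mem_filter, mem_Icc]
      refine ⟨⟨?_, ?_⟩, ?_, h4⟩
      · rcases Nat.eq_zero_or_pos m with h | h
        · subst h; simp at h1
        · exact h
      · rw [Nat.le_div_iff_mul_le hq0, mul_comm]; exact h2
      · push_cast at h3; exact h3
  have hkey : ∀ m : ℕ, 1 ≤ m → ¬ q ∣ m → f (q * m) = f q + f m := fun m hm hqm =>
    hf q m hq0 hm ((Nat.Prime.coprime_iff_not_dvd hq).mpr hqm)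
  have hBA : B ⊆ A ∪ E := by
    intro m hm
    rw [hB, mem_filter] at hm
    rw [mem_union]
    by_cases hqm : q ∣ m
    · right
      rw [hE, mem_filter]
      exact ⟨hm.1, hqm, hm.2.1⟩
    · left
      rw [hA, mem_filter, mem_filter]
      have := hkey m (mem_Icc.mp hm.1).1 hqm
      exact ⟨⟨hm.1, by linarith [hm.2.2]⟩, hm.2.1⟩
  have hAB : A ⊆ B ∪ E := by
    intro m hm
    rw [hA, mem_filter, mem_filter] at hm
    rw [mem_union]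
    by_cases hqm : q ∣ m
    · right
      rw [hE, mem_filter]
      exact ⟨hm.1.1, hqm, hm.2⟩
    · left
      rw [hB, mem_filter]
      have := hkey m (mem_Icc.mp hm.1.1).1 hqm
      exact ⟨hm.1.1, hm.2, by linarith [hm.1.2]⟩
  have hEc : (E.card : ℝ) ≤ (X / d : ℝ) / q ^ 2 + 1 := by
    have h1 := card_class (X / q) (q * d) (Nat.mul_pos hq0 hd) E
      (by rw [hE]; exact filter_subset _ _) (by
        intro m hm m' hm'
        rw [hE, mem_filter] at hm hm'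
        have h2 := cong_of_dvd d q c hcop m m' hm.2.2 hm'.2.2
        have h3 : m ≡ m' [MOD q] :=
          ((Nat.modEq_zero_iff_dvd).mpr hm.2.1).trans ((Nat.modEq_zero_iff_dvd).mpr hm'.2.1).symm
        exact (Nat.modEq_and_modEq_iff_modEq_mul hcop).mp ⟨h3, h2⟩)
    refine h1.trans ?_
    have hq' : (0 : ℝ) < q := by exact_mod_cast hq0
    have hd' : (0 : ℝ) < d := by exact_mod_cast hd
    have h4 : ((X / q : ℕ) : ℝ) ≤ (X : ℝ) / q := Nat.cast_div_le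
    calc ((X / q : ℕ) : ℝ) / ((q * d : ℕ) : ℝ) + 1 ≤ ((X : ℝ) / q) / ((q * d : ℕ) : ℝ) + 1 := by
          gcongr
      _ = (X / d : ℝ) / q ^ 2 + 1 := by
          push_cast
          field_simp
  rw [hBc]
  have h5 : (B.card : ℝ) ≤ A.card + E.card := by
    exact_mod_cast (card_le_card hBA).trans (card_union_le _ _)
  have h6 : (A.card : ℝ) ≤ B.card + E.card := by
    exact_mod_cast (card_le_card hAB).trans (card_union_le _ _)
  have h7 : (aq f X t c d q : ℝ) = A.card := by rw [hA]; rfl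
  rw [h7, abs_le]
  constructor <;> linarith

theorem stepB (f : ℕ → ℝ) (hf : Addi f) (X : ℕ) (t : ℝ) (c : ℤ) (I : Finset ℕ)
    (hI : ∀ q ∈ I, q.Prime) (g : ℝ) (hg : 0 < g) (hIg : ∀ q ∈ I, g ≤ q)
    (d : ℕ) (hd : 1 ≤ d) (hcop : ∀ q ∈ I, Nat.Coprime q d) :
    |∑ n ∈ (Icc 1 X).filter (fun n : ℕ => (d : ℤ) ∣ (n : ℤ) - c ∧ f n ≤ t),
        ((I.filter (fun q => q ∣ n)).card : ℝ) - ∑ q ∈ I, (aq f X t c d q : ℝ)| ≤
      (X / d) * (∑ q ∈ I, 1 / (q : ℝ)) / g + I.card := by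
  have h1 : ∑ n ∈ (Icc 1 X).filter (fun n : ℕ => (d : ℤ) ∣ (n : ℤ) - c ∧ f n ≤ t),
        ((I.filter (fun q => q ∣ n)).card : ℝ) =
      ∑ q ∈ I, ((((Icc 1 X).filter (fun n : ℕ => (d : ℤ) ∣ (n : ℤ) - c ∧ f n ≤ t)).filter
      (fun n => q ∣ n)).card : ℝ) := by
    have := Finset.sum_card_bipartiteAbove_eq_sum_card_bipartiteBelow
      (s := (Icc 1 X).filter (fun n : ℕ => (d : ℤ) ∣ (n : ℤ) - c ∧ f n ≤ t)) (t := I)
      (fun n q => q ∣ n)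
    exact_mod_cast this
  rw [h1, ← sum_sub_distrib]
  refine (abs_sum_le_sum_abs _ _).trans ?_
  calc _ ≤ ∑ q ∈ I, ((X / d : ℝ) * (1 / (q : ℝ)) / g + 1) := by
        apply sum_le_sum
        intro q hq
        refine (stepB1 f hf X t c d hd q (hI q hq) (hcop q hq)).trans ?_
        have hq' : (0 : ℝ) < q := by exact_mod_cast (hI q hq).pos
        have h2 := hIg q hq
        have : (X / d : ℝ) / q ^ 2 = (X / d : ℝ) * (1 / q) / q := by field_simp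
        rw [this]
        gcongr
    _ = _ := by
        rw [sum_add_distrib, ← sum_div, ← mul_sum, sum_const, nsmul_eq_mul, mul_one]

theorem sandwich (f : ℕ → ℝ) (t : ℝ) (X : ℕ) (c : ℤ) (I : Finset ℕ) (K : Finset (ℕ × ℕ))
    (cl : ℕ → ℕ × ℕ) (L V : ℕ × ℕ → Finset ℕ) (hcl : ∀ q ∈ I, cl q ∈ K)
    (hL : ∀ q ∈ I, L (cl q) ⊆ (Icc 1 (X / q)).filter (fun m => f m ≤ t - f q))
    (hV : ∀ q ∈ I, (Icc 1 (X / q)).filter (fun m => f m ≤ t - f q) ⊆ V (cl q))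
    (p : ℕ) (hp : 1 ≤ p) :
    |∑ q ∈ I, (aq f X t c p q : ℝ) - (∑ q ∈ I, (aq f X t c 1 q : ℝ)) / p| ≤
      (∑ q ∈ I, (((V (cl q)).card : ℝ) - (L (cl q)).card)) / p +
      ∑ κ ∈ K, (|∑ q ∈ I.filter (fun q => cl q = κ),
        ((((V κ).filter (fun m : ℕ => (p : ℤ) ∣ (q : ℤ) * m - c)).card : ℝ) - ((V κ).card : ℝ) / p)| +
        |∑ q ∈ I.filter (fun q => cl q = κ),
        ((((L κ).filter (fun m : ℕ => (p : ℤ) ∣ (q : ℤ) * m - c)).card : ℝ) - ((L κ).card : ℝ) / p)|) := by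
  have hp' : (0 : ℝ) < p := by exact_mod_cast hp
  have hW : ∀ W : ℕ × ℕ → Finset ℕ, |∑ q ∈ I, ((((W (cl q)).filter
      (fun m : ℕ => (p : ℤ) ∣ (q : ℤ) * m - c)).card : ℝ) - ((W (cl q)).card : ℝ) / p)| ≤
      ∑ κ ∈ K, |∑ q ∈ I.filter (fun q => cl q = κ),
        ((((W κ).filter (fun m : ℕ => (p : ℤ) ∣ (q : ℤ) * m - c)).card : ℝ) - ((W κ).card : ℝ) / p)| := by
    intro W
    rw [← sum_fiberwise_of_maps_to hcl]
    refine (abs_sum_le_sum_abs _ _).trans (le_of_eq ?_)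
    apply sum_congr rfl
    intro κ _
    congr 1
    apply sum_congr rfl
    intro q hq
    rw [(mem_filter.mp hq).2]
  have h1 := hW V
  have h2 := hW L
  have hup : ∑ q ∈ I, (aq f X t c p q : ℝ) ≤ ∑ q ∈ I, (((V (cl q)).filter
      (fun m : ℕ => (p : ℤ) ∣ (q : ℤ) * m - c)).card : ℝ) := by
    apply sum_le_sum
    intro q hq
    unfold aq
    exact_mod_cast card_le_card (filter_subset_filter _ (hV q hq))
  have hlo : ∑ q ∈ I, (((L (cl q)).filter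
      (fun m : ℕ => (p : ℤ) ∣ (q : ℤ) * m - c)).card : ℝ) ≤ ∑ q ∈ I, (aq f X t c p q : ℝ) := by
    apply sum_le_sum
    intro q hq
    unfold aq
    exact_mod_cast card_le_card (filter_subset_filter _ (hL q hq))
  have h1q : ∀ q, aq f X t c 1 q = ((Icc 1 (X / q)).filter (fun m => f m ≤ t - f q)).card := by
    intro q
    unfold aq
    simp
  have hA1 : ∑ q ∈ I, (aq f X t c 1 q : ℝ) ≤ ∑ q ∈ I, ((V (cl q)).card : ℝ) := by
    apply sum_le_sum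
    intro q hq
    rw [h1q]
    exact_mod_cast card_le_card (hV q hq)
  have hA2 : ∑ q ∈ I, ((L (cl q)).card : ℝ) ≤ ∑ q ∈ I, (aq f X t c 1 q : ℝ) := by
    apply sum_le_sum
    intro q hq
    rw [h1q]
    exact_mod_cast card_le_card (hL q hq)
  rw [sum_sub_distrib, ← sum_div] at h1 h2
  rw [abs_le] at h1 h2
  rw [sum_sub_distrib, sum_add_distrib, sub_div]
  have e1 : (∑ q ∈ I, (aq f X t c 1 q : ℝ)) / p ≤ (∑ q ∈ I, ((V (cl q)).card : ℝ)) / p := by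
    gcongr
  have e2 : (∑ q ∈ I, ((L (cl q)).card : ℝ)) / p ≤ (∑ q ∈ I, (aq f X t c 1 q : ℝ)) / p := by
    gcongr
  rw [abs_le]
  have n1 : 0 ≤ ∑ κ ∈ K, |∑ q ∈ I.filter (fun q => cl q = κ),
        ((((V κ).filter (fun m : ℕ => (p : ℤ) ∣ (q : ℤ) * m - c)).card : ℝ) - ((V κ).card : ℝ) / p)| :=
    sum_nonneg (fun _ _ => abs_nonneg _)
  have n2 : 0 ≤ ∑ κ ∈ K, |∑ q ∈ I.filter (fun q => cl q = κ),
        ((((L κ).filter (fun m : ℕ => (p : ℤ) ∣ (q : ℤ) * m - c)).card : ℝ) - ((L κ).card : ℝ) / p)| :=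
    sum_nonneg (fun _ _ => abs_nonneg _)
  constructor <;> linarith [h1.1, h1.2, h2.1, h2.2]

theorem combine (S r Np N1 Tp T1 Ap A1 X Y p g I G Err ε κ : ℝ) (hS : 1 ≤ S) (hr0 : 0 ≤ r)
    (hr : r ^ 2 = S) (hε : 0 < ε) (hεr : 80 ≤ ε * r) (hp : 1 ≤ p) (hY : Y = X / p) (hX : 0 ≤ X)
    (hg0 : 0 < g) (hg : 2 / g ≤ ε / 100) (hκ : κ ≤ ε / 40) (hI0 : 0 ≤ I)
    (hI : 4 * I ≤ ε / 100 * Y) (hErr : 0 ≤ Err)
    (hAp : |S * Np - Tp| ≤ 2 * Y * r) (hA1 : |S * N1 - T1| ≤ 2 * X * r)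
    (hBp : |Tp - Ap| ≤ Y * S / g + I) (hB1 : |T1 - A1| ≤ X * S / g + I)
    (hs : |Ap - A1 / p| ≤ G / p + Err) (hG : G ≤ κ * X * S + 2 * I) :
    |Np - N1 / p| ≤ ε / 2 * Y + Err := by
  have hp0 : 0 < p := by linarith
  have hY0 : 0 ≤ Y := by rw [hY]; positivity
  have hXp : X / p = Y := hY.symm
  have e1 : |(A1 - T1) / p| ≤ Y * S / g + I := by
    rw [abs_div, abs_of_pos hp0, abs_sub_comm]
    calc |T1 - A1| / p ≤ (X * S / g + I) / p := by gcongr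
      _ = (X / p) * S / g + I / p := by ring
      _ ≤ Y * S / g + I := by
          rw [hXp]
          have : I / p ≤ I := div_le_self hI0 hp
          linarith
  have e2 : |(T1 - S * N1) / p| ≤ 2 * Y * r := by
    rw [abs_div, abs_of_pos hp0, abs_sub_comm]
    calc |S * N1 - T1| / p ≤ (2 * X * r) / p := by gcongr
      _ = 2 * (X / p) * r := by ring
      _ = 2 * Y * r := by rw [hXp]
  have e3 : G / p ≤ κ * Y * S + 2 * I := by
    calc G / p ≤ (κ * X * S + 2 * I) / p := by gcongr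
      _ = κ * (X / p) * S + 2 * (I / p) := by ring
      _ ≤ κ * Y * S + 2 * I := by
          rw [hXp]
          have : I / p ≤ I := div_le_self hI0 hp
          linarith
  have e : S * (Np - N1 / p) = (S * Np - Tp) + (Tp - Ap) + (Ap - A1 / p) + (A1 - T1) / p +
      (T1 - S * N1) / p := by
    field_simp
    ring
  have e4 : |S * (Np - N1 / p)| ≤ 4 * Y * r + 2 * (Y * S / g) + κ * Y * S + 4 * I + Err := by
    rw [e]
    rw [abs_le] at hAp hBp hs e1 e2 ⊢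
    constructor <;> linarith [hAp.1, hAp.2, hBp.1, hBp.2, hs.1, hs.2, e1.1, e1.2, e2.1, e2.2]
  have e5 : 4 * Y * r ≤ ε / 20 * (Y * S) := by
    have : 4 * r ≤ ε / 20 * S := by
      rw [← hr]
      nlinarith
    calc 4 * Y * r = Y * (4 * r) := by ring
      _ ≤ Y * (ε / 20 * S) := by gcongr
      _ = ε / 20 * (Y * S) := by ring
  have e6 : 2 * (Y * S / g) ≤ ε / 100 * (Y * S) := by
    calc 2 * (Y * S / g) = (2 / g) * (Y * S) := by ring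
      _ ≤ ε / 100 * (Y * S) := by gcongr
  have e7 : κ * Y * S ≤ ε / 40 * (Y * S) := by
    calc κ * Y * S = κ * (Y * S) := by ring
      _ ≤ ε / 40 * (Y * S) := by gcongr
  have e8 : 4 * I ≤ ε / 100 * (Y * S) := by
    calc 4 * I ≤ ε / 100 * Y := hI
      _ = ε / 100 * (Y * 1) := by ring
      _ ≤ ε / 100 * (Y * S) := by gcongr
  have e9 : Err ≤ S * Err := by nlinarith
  have e10 : 0 ≤ ε * (Y * S) := by positivity
  have e11 : S * |Np - N1 / p| ≤ S * (ε / 2 * Y + Err) := by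
    have : |S * (Np - N1 / p)| = S * |Np - N1 / p| := by
      rw [abs_mul, abs_of_pos (by linarith)]
    rw [← this]
    calc |S * (Np - N1 / p)| ≤ 4 * Y * r + 2 * (Y * S / g) + κ * Y * S + 4 * I + Err := e4
      _ ≤ ε / 2 * (Y * S) + S * Err := by linarith
      _ = S * (ε / 2 * Y + Err) := by ring
  exact le_of_mul_le_mul_left e11 (by linarith)

/-- the error term -/
noncomputable def Er (I : Finset ℕ) (c : ℤ) (K : Finset (ℕ × ℕ)) (cl : ℕ → ℕ × ℕ)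
    (L V : ℕ × ℕ → Finset ℕ) (p : ℕ) : ℝ :=
  ∑ κ ∈ K, (|∑ q ∈ I.filter (fun q => cl q = κ),
        ((((V κ).filter (fun m : ℕ => (p : ℤ) ∣ (q : ℤ) * m - c)).card : ℝ) - ((V κ).card : ℝ) / p)| +
        |∑ q ∈ I.filter (fun q => cl q = κ),
        ((((L κ).filter (fun m : ℕ => (p : ℤ) ∣ (q : ℤ) * m - c)).card : ℝ) - ((L κ).card : ℝ) / p)|)

theorem Er_nonneg (I : Finset ℕ) (c : ℤ) (K : Finset (ℕ × ℕ)) (cl : ℕ → ℕ × ℕ)
    (L V : ℕ × ℕ → Finset ℕ) (p : ℕ) : 0 ≤ Er I c K cl L V p :=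
  sum_nonneg (fun _ _ => add_nonneg (abs_nonneg _) (abs_nonneg _))

theorem main_p (f : ℕ → ℝ) (hf : Addi f) (ε : ℝ) (hε : 0 < ε) (hε1 : ε ≤ 1) (γ : ℝ)
    (X : ℕ) (hX : 1 ≤ X) (t : ℝ) (c : ℤ)
    (hS : 6400 / ε ^ 2 ≤ ∑ q ∈ PR X γ 0.05, 1 / (q : ℝ))
    (ha : 5 * ((X : ℝ) ^ (0.05 : ℝ)) ^ 2 ≤ (X : ℝ) ^ (0.55 : ℝ))
    (hb : 2 / (X : ℝ) ^ γ ≤ ε / 100)
    (hc : 4 * (X : ℝ) ^ (0.05 : ℝ) ≤ ε / 100 * (X : ℝ) ^ (0.55 : ℝ))
    (K : Finset (ℕ × ℕ)) (cl : ℕ → ℕ × ℕ) (L V : ℕ × ℕ → Finset ℕ)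
    (hcl : ∀ q ∈ PR X γ 0.05, cl q ∈ K)
    (hL : ∀ q ∈ PR X γ 0.05, L (cl q) ⊆ (Icc 1 (X / q)).filter (fun m => f m ≤ t - f q))
    (hV : ∀ q ∈ PR X γ 0.05, (Icc 1 (X / q)).filter (fun m => f m ≤ t - f q) ⊆ V (cl q))
    (κ : ℝ) (hκ : κ ≤ ε / 40)
    (hG : ∑ q ∈ PR X γ 0.05, (((V (cl q)).card : ℝ) - (L (cl q)).card) ≤
        κ * X * (∑ q ∈ PR X γ 0.05, 1 / (q : ℝ)) + 2 * (PR X γ 0.05).card)
    (p : ℕ) (hp : p ∈ PR X 0.15 0.45) :
    |(cntc f X t p c : ℝ) - (cnt f X t : ℝ) / p| ≤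
      ε / 2 * (X / p) + Er (PR X γ 0.05) c K cl L V p := by
  have hX' : (1 : ℝ) ≤ X := by exact_mod_cast hX
  have hX0 : (0 : ℝ) < X := by linarith
  have hp1 := mem_PR'.mp hp
  have hp1' : (1 : ℝ) ≤ p := by exact_mod_cast hp1.1.1
  obtain ⟨I, hI⟩ : ∃ I, I = PR X γ 0.05 := ⟨_, rfl⟩
  rw [← hI] at hS hcl hL hV hG ⊢
  have hIp : ∀ q ∈ I, q.Prime := by
    intro q hq; rw [hI] at hq; exact (mem_PR'.mp hq).2.1
  have hIle : ∀ q ∈ I, (q : ℝ) ≤ (X : ℝ) ^ (0.05 : ℝ) := by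
    intro q hq; rw [hI] at hq; exact PR_le_rpow hq
  have hIge : ∀ q ∈ I, (X : ℝ) ^ γ ≤ q := by
    intro q hq; rw [hI] at hq; exact (PR_rpow_lt hq).le
  have hIc : (I.card : ℝ) ≤ (X : ℝ) ^ (0.05 : ℝ) := by
    have h1 : I ⊆ Icc 1 ⌊(X : ℝ) ^ (0.05 : ℝ)⌋₊ := by
      intro q hq
      rw [mem_Icc]
      exact ⟨(hIp q hq).pos, Nat.le_floor (hIle q hq)⟩
    have h2 := card_le_card h1
    rw [Nat.card_Icc, Nat.add_sub_cancel] at h2
    calc (I.card : ℝ) ≤ (⌊(X : ℝ) ^ (0.05 : ℝ)⌋₊ : ℝ) := by exact_mod_cast h2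
      _ ≤ _ := Nat.floor_le (by positivity)
  have hYp : (X : ℝ) ^ (0.55 : ℝ) ≤ X / p := by
    rw [le_div_iff₀ (by linarith)]
    calc (X : ℝ) ^ (0.55 : ℝ) * p ≤ (X : ℝ) ^ (0.55 : ℝ) * (X : ℝ) ^ (0.45 : ℝ) := by
          gcongr
          exact PR_le_rpow hp
      _ = X := by
          rw [← Real.rpow_add hX0]
          norm_num
  have hYX : (X : ℝ) / p ≤ X := div_le_self hX0.le hp1'
  have hIcp : 5 * (I.card : ℝ) ^ 2 ≤ X / p := by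
    calc 5 * (I.card : ℝ) ^ 2 ≤ 5 * ((X : ℝ) ^ (0.05 : ℝ)) ^ 2 := by gcongr
      _ ≤ _ := ha.trans hYp
  have hcop : ∀ q ∈ I, Nat.Coprime q p := by
    intro q hq
    rw [Nat.coprime_primes (hIp q hq) hp1.2.1]
    have h1 : (q : ℝ) < p := by
      calc (q : ℝ) ≤ (X : ℝ) ^ (0.05 : ℝ) := hIle q hq
        _ ≤ (X : ℝ) ^ (0.15 : ℝ) := Real.rpow_le_rpow_of_exponent_le hX' (by norm_num)
        _ < p := PR_rpow_lt hp
    intro h
    rw [h] at h1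
    exact lt_irrefl _ h1
  have hS1 : (1 : ℝ) ≤ ∑ q ∈ I, 1 / (q : ℝ) := by
    refine le_trans ?_ hS
    rw [le_div_iff₀ (by positivity)]
    nlinarith
  have hr : ∑ q ∈ I, 1 / (q : ℝ) = √(∑ q ∈ I, 1 / (q : ℝ)) ^ 2 := by
    rw [Real.sq_sqrt (by linarith)]
  have hεr : 80 ≤ ε * √(∑ q ∈ I, 1 / (q : ℝ)) := by
    have h1 : 80 / ε ≤ √(∑ q ∈ I, 1 / (q : ℝ)) := by
      apply Real.le_sqrt_of_sq_le
      calc (80 / ε) ^ 2 = 6400 / ε ^ 2 := by rw [div_pow]; norm_num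
        _ ≤ _ := hS
    rw [div_le_iff₀ hε] at h1
    linarith
  have hg0 : 0 < (X : ℝ) ^ γ := by positivity
  have A_p := stepA f X t c I hIp p hp1.1.1 hp1.1.2 hcop hS1 hIcp
  have A_1 := stepA f X t c I hIp 1 le_rfl hX (fun q _ => Nat.coprime_one_right q) hS1
    (by push_cast; rw [div_one]; exact hIcp.trans hYX)
  have B_p := stepB f hf X t c I hIp _ hg0 hIge p hp1.1.1 hcop
  have B_1 := stepB f hf X t c I hIp _ hg0 hIge 1 le_rfl (fun q _ => Nat.coprime_one_right q)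
  have s_p := sandwich f t X c I K cl L V hcl hL hV p hp1.1.1
  have hc1 : cntc f X t 1 c = cnt f X t := by
    unfold cntc cnt
    simp
  rw [hc1] at A_1
  simp only [Nat.cast_one, div_one] at A_1 B_1
  have hI4 : 4 * (I.card : ℝ) ≤ ε / 100 * (X / p) := by
    calc 4 * (I.card : ℝ) ≤ 4 * (X : ℝ) ^ (0.05 : ℝ) := by gcongr
        _ ≤ ε / 100 * (X : ℝ) ^ (0.55 : ℝ) := hc
        _ ≤ ε / 100 * (X / p) := by gcongr
  exact combine (∑ q ∈ I, 1 / (q : ℝ)) (√(∑ q ∈ I, 1 / (q : ℝ))) _ _ _ _ _ _ X (X / p) p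
    ((X : ℝ) ^ γ) I.card _ _ ε κ hS1 (Real.sqrt_nonneg _) hr.symm hε hεr hp1' rfl hX0.le hg0 hb hκ
    (Nat.cast_nonneg _) hI4
    (Er_nonneg _ _ _ _ _ _ _) A_p A_1 B_p B_1 s_p hG

theorem Er_sum (γ C : ℝ) (δ : ℝ) (hδ : 0 < δ) (hδ1 : δ ≤ 1) (X : ℕ) (hX : 1 ≤ X)
    (c : ℤ) (hC0 : 0 ≤ C)
    (hC : ∀ U : Finset ℕ, U ⊆ PR X γ 0.05 →
      (∀ q ∈ U, ∀ q' ∈ U, (q' : ℝ) ≤ 2 * q) → ∀ M : ℕ, (∀ q ∈ U, (q : ℝ) * M ≤ 2 * X) →
      ∀ W : Finset ℕ, W ⊆ Icc 1 M →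
      ∑ p ∈ PR X 0.15 0.45, |∑ q ∈ U,
        (((W.filter (fun m : ℕ => (p : ℤ) ∣ (q : ℤ) * m - c)).card : ℝ) - (W.card : ℝ) / p)| ≤
        C * (1 + Real.log X) * (X : ℝ) ^ (1 - γ / 2))
    (K : Finset (ℕ × ℕ)) (cl : ℕ → ℕ × ℕ) (L V : ℕ × ℕ → Finset ℕ) (M : ℕ × ℕ → ℕ)
    (hLV : ∀ q ∈ PR X γ 0.05, L (cl q) ⊆ V (cl q))
    (hVM : ∀ q ∈ PR X γ 0.05, V (cl q) ⊆ Icc 1 (M (cl q)))
    (hM : ∀ q ∈ PR X γ 0.05, (q : ℝ) * M (cl q) ≤ (1 + δ) * X)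
    (hqq : ∀ q ∈ PR X γ 0.05, ∀ q' ∈ PR X γ 0.05, cl q = cl q' → (q' : ℝ) ≤ (1 + δ) * q) :
    ∑ p ∈ PR X 0.15 0.45, Er (PR X γ 0.05) c K cl L V p ≤
      K.card * (2 * C * (1 + Real.log X) * (X : ℝ) ^ (1 - γ / 2)) := by
  unfold Er
  rw [sum_comm]
  rw [← nsmul_eq_mul]
  apply sum_le_card_nsmul
  intro κ _
  rw [sum_add_distrib]
  have hlog : 0 ≤ Real.log X := Real.log_natCast_nonneg X
  have hpos : 0 ≤ C * (1 + Real.log X) * (X : ℝ) ^ (1 - γ / 2) := by positivity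
  rcases ((PR X γ 0.05).filter (fun q => cl q = κ)).eq_empty_or_nonempty with h0 | ⟨q0, hq0⟩
  · rw [h0]
    simp only [sum_empty, abs_zero, sum_const_zero, add_zero]
    linarith
  · rw [mem_filter] at hq0
    have hU : (PR X γ 0.05).filter (fun q => cl q = κ) ⊆ PR X γ 0.05 := filter_subset _ _
    have hU1 : ∀ q ∈ (PR X γ 0.05).filter (fun q => cl q = κ),
        ∀ q' ∈ (PR X γ 0.05).filter (fun q => cl q = κ), (q' : ℝ) ≤ 2 * q := by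
      intro q hq q' hq'
      rw [mem_filter] at hq hq'
      have h1 := hqq q hq.1 q' hq'.1 (hq.2.trans hq'.2.symm)
      have h2 : (0 : ℝ) ≤ q := by positivity
      nlinarith
    have hU2 : ∀ q ∈ (PR X γ 0.05).filter (fun q => cl q = κ), (q : ℝ) * M κ ≤ 2 * X := by
      intro q hq
      rw [mem_filter] at hq
      have h1 := hM q hq.1
      rw [hq.2] at h1
      have h2 : (0 : ℝ) ≤ X := by positivity
      nlinarith
    have hV' : V κ ⊆ Icc 1 (M κ) := by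
      have := hVM q0 hq0.1
      rwa [hq0.2] at this
    have hL' : L κ ⊆ Icc 1 (M κ) := by
      have := hLV q0 hq0.1
      rw [hq0.2] at this
      exact this.trans hV'
    have k1 := hC _ hU hU1 (M κ) hU2 (V κ) hV'
    have k2 := hC _ hU hU1 (M κ) hU2 (L κ) hL'
    linarith

theorem large_X (γ : ℝ) (hγ : 0 < γ) (ε : ℝ) (hε : 0 < ε) (lam : ℝ) (hlam : 0 < lam) (R C : ℝ)
    (hR : 0 ≤ R) (hC : 0 ≤ C) :
    ∃ X0 : ℕ, ∀ X : ℕ, X0 ≤ X → 1 ≤ X ∧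
      5 * ((X : ℝ) ^ (0.05 : ℝ)) ^ 2 ≤ (X : ℝ) ^ (0.55 : ℝ) ∧
      2 / (X : ℝ) ^ γ ≤ ε / 100 ∧
      4 * (X : ℝ) ^ (0.05 : ℝ) ≤ ε / 100 * (X : ℝ) ^ (0.55 : ℝ) ∧
      ((Real.log X / lam + 1) * (R + 1)) * (2 * C * (1 + Real.log X) * (X : ℝ) ^ (1 - γ / 2)) ≤
        ε ^ 2 / 2 * X := by
  have t1 : ∀ s : ℝ, 0 < s → ∀ D : ℝ, ∀ᶠ X : ℕ in atTop, D ≤ (X : ℝ) ^ s := by
    intro s hs D
    exact ((tendsto_rpow_atTop hs).comp tendsto_natCast_atTop_atTop).eventually_ge_atTop D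
  obtain ⟨s, hs⟩ : ∃ s, s = γ / 8 := ⟨_, rfl⟩
  have hs0 : 0 < s := by rw [hs]; positivity
  obtain ⟨D, hD⟩ : ∃ D, D = (R + 1) * (2 * C) * (1 + 1 / s) * (1 + 1 / (s * lam)) * 2 / ε ^ 2 :=
    ⟨_, rfl⟩
  have ev : ∀ᶠ X : ℕ in atTop, 1 ≤ X ∧ (5 ≤ (X : ℝ) ^ (0.45 : ℝ)) ∧ (200 / ε ≤ (X : ℝ) ^ γ) ∧
      (400 / ε ≤ (X : ℝ) ^ (0.5 : ℝ)) ∧ D ≤ (X : ℝ) ^ (γ / 4) := by
    filter_upwards [eventually_ge_atTop 1, t1 0.45 (by norm_num) 5, t1 γ hγ (200 / ε),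
      t1 0.5 (by norm_num) (400 / ε), t1 (γ / 4) (by positivity) D] with X h1 h2 h3 h4 h5
    exact ⟨h1, h2, h3, h4, h5⟩
  obtain ⟨X0, hX0⟩ := eventually_atTop.mp ev
  refine ⟨X0, fun X hX => ?_⟩
  obtain ⟨h1, h2, h3, h4, h5⟩ := hX0 X hX
  have hX1 : (1 : ℝ) ≤ X := by exact_mod_cast h1
  have hXp : (0 : ℝ) < X := by linarith
  refine ⟨h1, ?_, ?_, ?_, ?_⟩
  · have e1 : ((X : ℝ) ^ (0.05 : ℝ)) ^ 2 = (X : ℝ) ^ (0.1 : ℝ) := by
      rw [← Real.rpow_natCast, ← Real.rpow_mul hXp.le]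
      norm_num
    have e2 : (X : ℝ) ^ (0.55 : ℝ) = (X : ℝ) ^ (0.45 : ℝ) * (X : ℝ) ^ (0.1 : ℝ) := by
      rw [← Real.rpow_add hXp]
      norm_num
    rw [e1, e2]
    gcongr
  · rw [div_le_iff₀ (by positivity)]
    rw [div_le_iff₀ hε] at h3
    linarith
  · have e2 : (X : ℝ) ^ (0.55 : ℝ) = (X : ℝ) ^ (0.5 : ℝ) * (X : ℝ) ^ (0.05 : ℝ) := by
      rw [← Real.rpow_add hXp]
      norm_num
    rw [e2, ← mul_assoc]
    gcongr
    rw [div_le_iff₀ hε] at h4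
    linarith
  · have l1 : Real.log X ≤ (X : ℝ) ^ s / s := Real.log_le_rpow_div hXp.le hs0
    have l2 : (1 : ℝ) ≤ (X : ℝ) ^ s := Real.one_le_rpow hX1 hs0.le
    have l0 : 0 ≤ Real.log X := Real.log_natCast_nonneg X
    have l3 : 1 + Real.log X ≤ (1 + 1 / s) * (X : ℝ) ^ s := by
      have : (1 + 1 / s) * (X : ℝ) ^ s = (X : ℝ) ^ s + (X : ℝ) ^ s / s := by ring
      linarith
    have l4 : Real.log X / lam + 1 ≤ (1 + 1 / (s * lam)) * (X : ℝ) ^ s := by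
      have e1 : (1 + 1 / (s * lam)) * (X : ℝ) ^ s = (X : ℝ) ^ s + (X : ℝ) ^ s / s / lam := by
        field_simp
      have e2 : Real.log X / lam ≤ (X : ℝ) ^ s / s / lam := by gcongr
      linarith
    calc ((Real.log X / lam + 1) * (R + 1)) * (2 * C * (1 + Real.log X) * (X : ℝ) ^ (1 - γ / 2))
        ≤ (((1 + 1 / (s * lam)) * (X : ℝ) ^ s) * (R + 1)) *
          (2 * C * ((1 + 1 / s) * (X : ℝ) ^ s) * (X : ℝ) ^ (1 - γ / 2)) := by gcongr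
      _ = ε ^ 2 / 2 * (D * ((X : ℝ) ^ s * (X : ℝ) ^ s * (X : ℝ) ^ (1 - γ / 2))) := by
          rw [hD]
          field_simp
      _ ≤ ε ^ 2 / 2 * ((X : ℝ) ^ (γ / 4) * ((X : ℝ) ^ s * (X : ℝ) ^ s * (X : ℝ) ^ (1 - γ / 2))) := by
          gcongr
      _ = ε ^ 2 / 2 * X := by
          rw [← Real.rpow_add hXp, ← Real.rpow_add hXp, ← Real.rpow_add hXp, hs]
          congr 1
          have : γ / 4 + (γ / 8 + γ / 8 + (1 - γ / 2)) = 1 := by ring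
          rw [this, Real.rpow_one]

theorem LD_small (f : ℕ → ℝ) (hf : Addi f) (ε : ℝ) (hε : 0 < ε) (hε1 : ε ≤ 1) :
    ∃ X0 : ℕ, ∀ X : ℕ, X0 ≤ X → ∀ t : ℝ, ∀ c : ℤ, (c = 1 ∨ c = -1) →
      ∑ p ∈ (PR X 0.15 0.45).filter
        (fun p => ε * X / p < |(cntc f X t p c : ℝ) - (cnt f X t : ℝ) / p|), 1 / (p : ℝ) ≤ ε := by
  obtain ⟨γ, hγ, hγ1, X1, hX1⟩ := PR_large 0.05 (6400 / ε ^ 2) (by norm_num) (by norm_num)
  obtain ⟨C, hC, X2, hX2⟩ := class_err γ hγ hγ1.le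
  obtain ⟨δ, hδ⟩ : ∃ δ, δ = ε / 100 := ⟨_, rfl⟩
  have hδ0 : 0 < δ := by rw [hδ]; positivity
  have hδ1 : δ ≤ 1 := by rw [hδ]; linarith
  have hlam : 0 < Real.log (1 + δ) := Real.log_pos (by linarith)
  obtain ⟨R, hR⟩ : ∃ R, R = ⌈100 / ε⌉₊ := ⟨_, rfl⟩
  have hR' : 100 / ε ≤ R := by rw [hR]; exact Nat.le_ceil _
  have hR0 : (0 : ℝ) < R := lt_of_lt_of_le (by positivity) hR'
  have hR1 : 1 ≤ R := by
    have : 0 < R := by exact_mod_cast hR0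
    omega
  obtain ⟨X3, hX3⟩ := large_X γ hγ ε hε (Real.log (1 + δ)) hlam R C hR0.le hC
  refine ⟨max X1 (max X2 X3), fun X hX t c hc => ?_⟩
  have hXX1 : X1 ≤ X := (le_max_left _ _).trans hX
  have hXX2 : X2 ≤ X := (le_max_left _ _).trans ((le_max_right _ _).trans hX)
  have hXX3 : X3 ≤ X := (le_max_right _ _).trans ((le_max_right _ _).trans hX)
  obtain ⟨g1, g2, g3, g4, g5⟩ := hX3 X hXX3
  have hXr : (0 : ℝ) < X := by exact_mod_cast g1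
  obtain ⟨K, cl, L, V, M, c1, c2, c3, c4, c5, c6, c7, c8⟩ := classes f t X (PR X γ 0.05)
    (fun q hq => (mem_PR'.mp hq).1) δ hδ0 hδ1 R hR1
  have hκ : (1 + δ) * (1 / R + δ) ≤ ε / 40 := by
    have h1 : (1 : ℝ) / R ≤ ε / 100 := by
      rw [div_le_div_iff₀ hR0 (by norm_num)]
      rw [div_le_iff₀ hε] at hR'
      linarith
    calc (1 + δ) * (1 / R + δ) ≤ (1 + 1 / 100) * (ε / 100 + ε / 100) := by
          have : δ ≤ 1 / 100 := by rw [hδ]; linarith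
          have h2 : δ ≤ ε / 100 := hδ.le
          gcongr
      _ ≤ ε / 40 := by linarith
  have hmain : ∀ p ∈ PR X 0.15 0.45, |(cntc f X t p c : ℝ) - (cnt f X t : ℝ) / p| ≤
      ε / 2 * (X / p) + Er (PR X γ 0.05) c K cl L V p := fun p hp =>
    main_p f hf ε hε hε1 γ X g1 t c (hX1 X hXX1) g2 g3 g4 K cl L V c2 c3 c4 _ hκ c8 p hp
  have hsum := Er_sum γ C δ hδ0 hδ1 X g1 c hC (fun U hU h1 M h2 W hW =>
    hX2 X hXX2 U hU h1 M h2 W hW c hc) K cl L V M (fun q hq => (c3 q hq).trans (c4 q hq)) c5 c6 c7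
  have l0 : 0 ≤ Real.log X := Real.log_natCast_nonneg X
  have hsum2 : ∑ p ∈ PR X 0.15 0.45, Er (PR X γ 0.05) c K cl L V p ≤ ε ^ 2 / 2 * X := by
    refine hsum.trans (le_trans ?_ g5)
    gcongr
  calc ∑ p ∈ (PR X 0.15 0.45).filter
        (fun p => ε * X / p < |(cntc f X t p c : ℝ) - (cnt f X t : ℝ) / p|), 1 / (p : ℝ)
      ≤ ∑ p ∈ (PR X 0.15 0.45).filter
        (fun p => ε * X / p < |(cntc f X t p c : ℝ) - (cnt f X t : ℝ) / p|),
          2 / (ε * X) * Er (PR X γ 0.05) c K cl L V p := by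
        apply sum_le_sum
        intro p hp
        rw [mem_filter] at hp
        have h1 := hmain p hp.1
        have h2 := hp.2
        have hp0 : (0 : ℝ) < p := by exact_mod_cast (mem_PR'.mp hp.1).1.1
        have h3 : ε * X / p = 2 * (ε / 2 * (X / p)) := by ring
        have h4 : ε / 2 * (X / p) ≤ Er (PR X γ 0.05) c K cl L V p := by
          rw [h3] at h2
          linarith
        calc 1 / (p : ℝ) = 2 / (ε * X) * (ε / 2 * (X / p)) := by field_simp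
          _ ≤ _ := by gcongr
    _ ≤ ∑ p ∈ PR X 0.15 0.45, 2 / (ε * X) * Er (PR X γ 0.05) c K cl L V p := by
        apply sum_le_sum_of_subset_of_nonneg (filter_subset _ _)
        intro p _ _
        exact mul_nonneg (by positivity) (Er_nonneg _ _ _ _ _ _ _)
    _ = 2 / (ε * X) * ∑ p ∈ PR X 0.15 0.45, Er (PR X γ 0.05) c K cl L V p := by
        rw [mul_sum]
    _ ≤ 2 / (ε * X) * (ε ^ 2 / 2 * X) := by gcongr
    _ = ε := by field_simp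

/-- TARGET: level sets of `f` are equidistributed in `c mod p`, `c = ±1`, for most primes `p` -/
theorem LD (f : ℕ → ℝ) (hf : Addi f) (ε : ℝ) (hε : 0 < ε) :
    ∃ X0 : ℕ, ∀ X : ℕ, X0 ≤ X → ∀ t : ℝ, ∀ c : ℤ, (c = 1 ∨ c = -1) →
      ∑ p ∈ (PR X 0.15 0.45).filter
        (fun p => ε * X / p < |(cntc f X t p c : ℝ) - (cnt f X t : ℝ) / p|), 1 / (p : ℝ) ≤ ε := by
  rcases le_or_gt ε 1 with h | h
  · exact LD_small f hf ε hε h
  · obtain ⟨X0, hX0⟩ := LD_small f hf 1 one_pos le_rfl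
    refine ⟨X0, fun X hX t c hc => ?_⟩
    refine le_trans ?_ ((hX0 X hX t c hc).trans h.le)
    apply sum_le_sum_of_subset_of_nonneg
    · intro p hp
      rw [mem_filter] at hp ⊢
      refine ⟨hp.1, lt_of_le_of_lt ?_ hp.2⟩
      gcongr
    · intro p _ _
      positivity

end Pool.Agent.Descents.B3c
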