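import Mathlib

/-! Copied from `Pool.Agent.Helper403.Cheb` (helper403). -/

set_option autoImplicit false

namespace Pool.Agent.Descents.Cheb

open Finset

theorem log_two_bounds : (0.6931 : ℝ) ≤ Real.log 2 ∧ Real.log 2 ≤ 0.6932 := by
  have h1 := Real.log_two_gt_d9
  have h2 := Real.log_two_lt_d9
  constructor <;> linarith

theorem cheb_diff {Y : ℝ} (hY : 10 ^ 8 ≤ Y) :
    Y / 4 ≤ Chebyshev.theta Y - Chebyshev.theta (Y / 4) := by
  have hY0 : 0 < Y := by linarith
  have hY1 : 1 ≤ Y := by linarith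
  obtain ⟨hl1, hl2⟩ := log_two_bounds
  have h1 := Chebyshev.theta_ge' hY1
  have h2 := Chebyshev.theta_le_log4_mul_x (x := Y / 4) (by linarith)
  have h4 : Real.log 4 = 2 * Real.log 2 := by
    rw [show (4 : ℝ) = 2 ^ 2 by norm_num, Real.log_pow]; norm_num
  rw [h4] at h2
  set s := Real.sqrt (Real.sqrt Y) with hs
  have hs2 : s * s = Real.sqrt Y := Real.mul_self_sqrt (Real.sqrt_nonneg _)
  have hs4 : Real.sqrt Y * Real.sqrt Y = Y := Real.mul_self_sqrt hY0.le
  have hs100 : 100 ≤ s := by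
    apply Real.le_sqrt_of_sq_le
    apply Real.le_sqrt_of_sq_le
    norm_num
    linarith
  have hY4 : Y = s ^ 4 := by
    rw [← hs4, ← hs2]; ring
  have hlogs : Real.log s ≤ s := (Real.log_le_sub_one_of_pos (by linarith)).trans (by linarith)
  have hlogY : Real.log Y ≤ 4 * s := by
    rw [hY4, Real.log_pow]
    push_cast
    linarith
  have hlogY2 : Real.log (Y + 2) ≤ 4 * s + 2 := by
    have h5 : Real.log (Y + 2) ≤ Real.log (3 * Y) := Real.log_le_log (by linarith) (by linarith)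
    have h6 : Real.log (3 * Y) = Real.log 3 + Real.log Y := Real.log_mul (by norm_num) hY0.ne'
    have h7 : Real.log 3 ≤ 2 := (Real.log_le_sub_one_of_pos (by norm_num)).trans (by norm_num)
    linarith
  have h8 : 2 * Real.sqrt Y * Real.log Y ≤ 8 * s ^ 3 := by
    rw [← hs2]
    have : 0 ≤ s * s := by positivity
    calc 2 * (s * s) * Real.log Y ≤ 2 * (s * s) * (4 * s) := by gcongr
      _ = 8 * s ^ 3 := by ring
  have h9 : (Y - 1) * Real.log 2 ≥ Y * Real.log 2 - 0.6932 := by nlinarith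
  have h10 : Y * Real.log 2 ≥ Y * 0.6931 := by nlinarith
  have h11 : 8 * s ^ 3 + (4 * s + 2) + 0.6932 ≤ 0.0965 * Y := by
    rw [hY4]
    have e1 : s ^ 4 = s * s ^ 3 := by ring
    have e2 : 100 ^ 2 * s ≤ s ^ 3 := by
      have : s ^ 3 = s ^ 2 * s := by ring
      rw [this]
      apply mul_le_mul_of_nonneg_right _ (by linarith)
      apply pow_le_pow_left₀ (by norm_num) hs100
    rw [e1]
    have e3 : 100 * s ^ 3 ≤ s * s ^ 3 := by
      apply mul_le_mul_of_nonneg_right hs100 (by positivity)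
    nlinarith
  nlinarith

theorem cheb_count {Y : ℝ} (hY : 10 ^ 8 ≤ Y) (S : Finset ℕ)
    (h : ∀ p : ℕ, p.Prime → Y / 4 < p → (p : ℝ) ≤ Y → p ∈ S)
    (h2 : ∀ p ∈ S, 1 ≤ p ∧ (p : ℝ) ≤ Y) : Y / 4 ≤ S.card * Real.log Y := by
  classical
  have hY0 : 0 < Y := by linarith
  refine (cheb_diff hY).trans ?_
  unfold Chebyshev.theta
  have hsub : (Ioc 0 ⌊Y / 4⌋₊).filter Nat.Prime ⊆ (Ioc 0 ⌊Y⌋₊).filter Nat.Prime := by
    apply Finset.filter_subset_filter
    apply Finset.Ioc_subset_Ioc_right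
    apply Nat.floor_le_floor
    linarith
  rw [← Finset.sum_sdiff hsub, add_sub_cancel_right]
  have hsub2 : (Ioc 0 ⌊Y⌋₊).filter Nat.Prime \ (Ioc 0 ⌊Y / 4⌋₊).filter Nat.Prime ⊆ S := by
    intro p hp
    rw [Finset.mem_sdiff, Finset.mem_filter, Finset.mem_filter, Finset.mem_Ioc,
      Finset.mem_Ioc] at hp
    obtain ⟨⟨⟨h3, h4⟩, h5⟩, h6⟩ := hp
    apply h p h5
    · by_contra hcon
      rw [not_lt] at hcon
      exact h6 ⟨⟨h3, Nat.le_floor hcon⟩, h5⟩
    · exact (Nat.cast_le.mpr h4).trans (Nat.floor_le hY0.le)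
  calc _ ≤ ∑ p ∈ S, Real.log p := by
        apply Finset.sum_le_sum_of_subset_of_nonneg hsub2
        intro p hp _
        exact Real.log_natCast_nonneg p
    _ ≤ ∑ p ∈ S, Real.log Y := by
        apply Finset.sum_le_sum
        intro p hp
        obtain ⟨h3, h4⟩ := h2 p hp
        exact Real.log_le_log (by exact_mod_cast h3) h4
    _ = _ := by rw [Finset.sum_const, nsmul_eq_mul]


end Pool.Agent.Descents.Cheb
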