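import Mathlib
import Pool.Agent.Helper564.Desc.Defs

set_option autoImplicit false

open Finset Filter Topology

namespace Pool.Agent.Descents.P

open Pool.Agent.Descents



/-- TARGET 1 -/
theorem pi_upper (x : ℕ) : (((Icc 1 x).filter Nat.Prime).card : ℝ) * Real.log x ≤ 6 * x := by
  rcases Nat.lt_or_ge x 2 with hx | hx
  · have h0 : Real.log x = 0 := by
      interval_cases x <;> simp
    rw [h0, mul_zero]
    positivity
  have hx1 : (1 : ℝ) < x := by exact_mod_cast hx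
  have hx0 : (0 : ℝ) < x := by linarith
  have hcard : ((Icc 1 x).filter Nat.Prime).card = Nat.primeCounting x := by
    unfold Nat.primeCounting Nat.primeCounting'
    rw [Nat.count_eq_card_filter_range]
    congr 1
    ext p
    simp only [mem_filter, mem_Icc, mem_range]
    constructor
    · rintro ⟨⟨_, h2⟩, h3⟩; exact ⟨by omega, h3⟩
    · rintro ⟨h2, h3⟩; exact ⟨⟨h3.one_lt.le, by omega⟩, h3⟩
  rw [hcard]
  have h := Chebyshev.pi_le_log4_mul_div hx1
  rw [Nat.floor_natCast] at h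
  have hs0 : 0 < √(x : ℝ) := Real.sqrt_pos.2 hx0
  have hs1 : 1 < √(x : ℝ) := by
    rw [Real.lt_sqrt (by norm_num)]
    linarith
  have hl : Real.log x = 2 * Real.log √(x : ℝ) := by
    rw [Real.log_sqrt hx0.le]; ring
  have hls : 0 < Real.log √(x : ℝ) := Real.log_pos hs1
  have hss : √(x : ℝ) * √(x : ℝ) = x := Real.mul_self_sqrt hx0.le
  have hlss : Real.log √(x : ℝ) ≤ √(x : ℝ) := by
    have := Real.log_le_sub_one_of_pos hs0
    linarith
  have h4 : Real.log 4 ≤ 2 := by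
    have h2 : Real.log 2 < 0.6931471808 := Real.log_two_lt_d9
    have : Real.log 4 = 2 * Real.log 2 := by
      rw [show (4 : ℝ) = 2 ^ 2 by norm_num, Real.log_pow]; norm_num
    rw [this]; linarith
  have hmul : (Nat.primeCounting x : ℝ) * Real.log x ≤
      (Real.log 4 * x / Real.log √(x : ℝ) + √(x : ℝ)) * Real.log x :=
    mul_le_mul_of_nonneg_right h (by rw [hl]; positivity)
  refine hmul.trans ?_
  have e1 : (Real.log 4 * x / Real.log √(x : ℝ) + √(x : ℝ)) * Real.log x =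
      2 * (Real.log 4 * x) + 2 * (√(x : ℝ) * Real.log √(x : ℝ)) := by
    rw [hl]; field_simp
  rw [e1]
  have e2 : √(x : ℝ) * Real.log √(x : ℝ) ≤ x := by
    calc √(x : ℝ) * Real.log √(x : ℝ) ≤ √(x : ℝ) * √(x : ℝ) :=
          mul_le_mul_of_nonneg_left hlss hs0.le
      _ = x := hss
  have e3 : Real.log 4 * x ≤ 2 * x := mul_le_mul_of_nonneg_right h4 hx0.le
  linarith

theorem prod_le_divisors (n : ℕ) (hn : n ≠ 0) :
    ∏ l ∈ n.primeFactors, (1 + 1 / (l : ℝ)) ≤ ∑ d ∈ n.divisors, 1 / (d : ℝ) := by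
  classical
  rw [Finset.prod_one_add]
  have hinj : Set.InjOn (fun t : Finset ℕ => ∏ l ∈ t, l) (n.primeFactors.powerset : Set (Finset ℕ)) := by
    intro s hs t ht h
    have hs' := Finset.mem_powerset.1 (Finset.mem_coe.1 hs)
    have ht' := Finset.mem_powerset.1 (Finset.mem_coe.1 ht)
    have h1 := Nat.primeFactors_prod (s := s) fun p hp => Nat.prime_of_mem_primeFactors (hs' hp)
    have h2 := Nat.primeFactors_prod (s := t) fun p hp => Nat.prime_of_mem_primeFactors (ht' hp)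
    simp only at h
    rw [← h1, ← h2, h]
  have e1 : ∑ t ∈ n.primeFactors.powerset, ∏ l ∈ t, 1 / (l : ℝ) =
      ∑ d ∈ n.primeFactors.powerset.image (fun t : Finset ℕ => ∏ l ∈ t, l), 1 / (d : ℝ) := by
    rw [Finset.sum_image hinj]
    refine Finset.sum_congr rfl fun t _ => ?_
    rw [Nat.cast_prod, Finset.prod_div_distrib, Finset.prod_const_one]
  rw [e1]
  refine Finset.sum_le_sum_of_subset_of_nonneg ?_ fun d _ _ => by positivity
  intro d hd
  obtain ⟨t, ht, rfl⟩ := Finset.mem_image.1 hd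
  have ht' := Finset.mem_powerset.1 ht
  rw [Nat.mem_divisors]
  refine ⟨?_, hn⟩
  exact (Finset.prod_dvd_prod_of_subset _ _ _ ht').trans (Nat.prod_primeFactors_dvd n)

theorem sum_inv_sq (Y : ℕ) (hY : 1 ≤ Y) :
    ∑ d ∈ Icc 1 Y, 1 / (d : ℝ) ^ 2 ≤ 2 - 1 / (Y : ℝ) := by
  induction Y, hY using Nat.le_induction with
  | base => norm_num
  | succ Y hY ih =>
    rw [Finset.sum_Icc_succ_top (by omega)]
    have hY0 : (0 : ℝ) < Y := by exact_mod_cast hY
    have h1 : 1 / ((Y + 1 : ℕ) : ℝ) ^ 2 ≤ 1 / (Y : ℝ) - 1 / ((Y + 1 : ℕ) : ℝ) := by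
      push_cast
      have h2 : 1 / (Y : ℝ) - 1 / ((Y : ℝ) + 1) = 1 / ((Y : ℝ) * ((Y : ℝ) + 1)) := by
        field_simp; ring
      rw [h2]
      apply one_div_le_one_div_of_le (by positivity)
      nlinarith
    linarith

/-- TARGET 2 -/
theorem nice_count (Y : ℕ) :
    ∑ n ∈ Icc 1 Y, ∏ l ∈ n.primeFactors, (1 + 1 / (l : ℝ)) ≤ 2 * (Y : ℝ) := by
  classical
  rcases Nat.eq_zero_or_pos Y with rfl | hY
  · simp
  have h1 : ∑ n ∈ Icc 1 Y, ∏ l ∈ n.primeFactors, (1 + 1 / (l : ℝ)) ≤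
      ∑ n ∈ Icc 1 Y, ∑ d ∈ n.divisors, 1 / (d : ℝ) :=
    Finset.sum_le_sum fun n hn => prod_le_divisors n (by
      have := Finset.mem_Icc.1 hn; omega)
  refine h1.trans ?_
  have h2 : ∑ n ∈ Icc 1 Y, ∑ d ∈ n.divisors, 1 / (d : ℝ) =
      ∑ d ∈ Icc 1 Y, ∑ n ∈ (Ioc 0 Y).filter (fun n => d ∣ n), 1 / (d : ℝ) := by
    apply Finset.sum_comm'
    intro n d
    simp only [mem_Icc, Nat.mem_divisors, mem_filter, mem_Ioc]
    constructor
    · rintro ⟨⟨a1, a2⟩, a3, a4⟩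
      have := Nat.le_of_dvd (by omega) a3
      have := Nat.pos_of_dvd_of_pos a3 (by omega)
      exact ⟨⟨⟨by omega, a2⟩, a3⟩, by omega, by omega⟩
    · rintro ⟨⟨⟨a1, a2⟩, a3⟩, a4⟩
      exact ⟨⟨by omega, a2⟩, a3, by omega⟩
  rw [h2]
  have h3 : ∀ d ∈ Icc 1 Y, ∑ n ∈ (Ioc 0 Y).filter (fun n => d ∣ n), 1 / (d : ℝ) ≤
      Y * (1 / (d : ℝ) ^ 2) := by
    intro d hd
    have hd0 : (0 : ℝ) < d := by exact_mod_cast (Finset.mem_Icc.1 hd).1
    rw [Finset.sum_const, Nat.Ioc_filter_dvd_card_eq_div, nsmul_eq_mul]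
    have h4 : ((Y / d : ℕ) : ℝ) ≤ (Y : ℝ) / d := Nat.cast_div_le
    calc ((Y / d : ℕ) : ℝ) * (1 / (d : ℝ)) ≤ (Y : ℝ) / d * (1 / (d : ℝ)) :=
          mul_le_mul_of_nonneg_right h4 (by positivity)
      _ = Y * (1 / (d : ℝ) ^ 2) := by field_simp
  refine (Finset.sum_le_sum h3).trans ?_
  rw [← Finset.mul_sum]
  have h5 := sum_inv_sq Y hY
  have hY0 : (0 : ℝ) < Y := by exact_mod_cast hY
  have h6 : 0 < 1 / (Y : ℝ) := by positivity
  nlinarith

end Pool.Agent.Descents.P
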