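import Mathlib
import Pool.Agent.Helper564.Desc.Defs
import Pool.Agent.Helper564.Desc.J1
import Pool.Agent.Helper564.Desc.P

set_option autoImplicit false

open Finset Filter Topology

namespace Pool.Agent.Descents.D

open Pool.Agent.Descents
open Pool.Agent.Descents.J1
open Pool.Agent.Descents.P






theorem dens_disj (Y : ℕ) (hY : 0 < Real.log Y) (p q n : ℕ) (hp : p ∈ PR Y 0.51 1)
    (hq : q ∈ PR Y 0.51 1) (hn : n ∈ Icc 1 Y) (hpn : p ∣ n) (hqn : q ∣ n) : p = q := by
  by_contra hne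
  simp only [PR, mem_filter, mem_Icc] at hp hq hn
  obtain ⟨⟨hp1, _⟩, hpp, hp2, _⟩ := hp
  obtain ⟨⟨hq1, _⟩, hqp, hq2, _⟩ := hq
  have hcop : Nat.Coprime p q := (Nat.coprime_primes hpp hqp).2 hne
  have hdvd : p * q ∣ n := hcop.mul_dvd_of_dvd_of_dvd hpn hqn
  have hle : p * q ≤ Y := (Nat.le_of_dvd (by omega) hdvd).trans hn.2
  have h1 : Real.log ((p * q : ℕ) : ℝ) ≤ Real.log Y := by
    apply Real.log_le_log
    · have : 0 < p * q := Nat.mul_pos hp1 hq1
      exact_mod_cast this
    · exact_mod_cast hle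
  rw [Nat.cast_mul, Real.log_mul (by positivity) (by positivity)] at h1
  norm_num at hp2 hq2
  linarith

theorem dens_PR (Y : ℕ) (hY : 0 < Real.log Y) :
    ∑ p ∈ PR Y 0.51 0.755, 1 / (p : ℝ) + ∑ p ∈ PR Y 0.755 1, 1 / (p : ℝ) ≤
      ∑ p ∈ PR Y 0.51 1, 1 / (p : ℝ) := by
  rw [← Finset.sum_union]
  · apply Finset.sum_le_sum_of_subset_of_nonneg
    · intro p hp
      simp only [PR, mem_union, mem_filter, mem_Icc] at hp ⊢
      rcases hp with hp | hp
      · refine ⟨hp.1, hp.2.1, hp.2.2.1, ?_⟩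
        have := hp.2.2.2
        norm_num at this ⊢
        linarith
      · refine ⟨hp.1, hp.2.1, ?_, hp.2.2.2⟩
        have := hp.2.2.1
        norm_num at this ⊢
        linarith
    · intro p _ _
      positivity
  · rw [Finset.disjoint_left]
    intro p hp hq
    simp only [PR, mem_filter, mem_Icc] at hp hq
    have h1 := hp.2.2.2
    have h2 := hq.2.2.1
    linarith

/-- TARGET -/
theorem dens : ∃ Y0 : ℕ, ∀ Y : ℕ, Y0 ≤ Y → ∃ T : Finset ℕ, T ⊆ Icc 1 Y ∧
    (∀ n ∈ T, ∃ p ∈ PR Y 0.51 1, p ∣ n) ∧ 0.56 * (Y : ℝ) ≤ T.card := by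
  obtain ⟨X1, hX1⟩ := PR_lower 0.51 0.755 0.001 (by norm_num) (by norm_num) (by norm_num)
    (by norm_num)
  obtain ⟨X2, hX2⟩ := PR_lower 0.755 1 0.001 (by norm_num) (by norm_num) (by norm_num)
    (by norm_num)
  refine ⟨max (max X1 X2) ⌈Real.exp 1000⌉₊, fun Y hY => ?_⟩
  have hYX1 : X1 ≤ Y := ((le_max_left _ _).trans (le_max_left _ _)).trans hY
  have hYX2 : X2 ≤ Y := ((le_max_right _ _).trans (le_max_left _ _)).trans hY
  have hYe : Real.exp 1000 ≤ (Y : ℝ) := by
    have h1 : ⌈Real.exp 1000⌉₊ ≤ Y := (le_max_right _ _).trans hY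
    exact (Nat.le_ceil _).trans (by exact_mod_cast h1)
  have hlog : 1000 ≤ Real.log Y := by
    rw [Real.le_log_iff_exp_le (lt_of_lt_of_le (Real.exp_pos _) hYe)]
    exact hYe
  have hY0 : (0 : ℝ) < Y := lt_of_lt_of_le (Real.exp_pos _) hYe
  have hlpos : 0 < Real.log Y := by linarith
  have hsum : 0.567 ≤ ∑ p ∈ PR Y 0.51 1, 1 / (p : ℝ) := by
    have h1 := hX1 Y hYX1
    have h2 := hX2 Y hYX2
    have h3 := dens_PR Y hlpos
    norm_num at h1 h2 h3 ⊢
    linarith
  refine ⟨(PR Y 0.51 1).biUnion (fun p => (Icc 1 Y).filter (fun n => p ∣ n)), ?_, ?_, ?_⟩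
  · intro n hn
    simp only [mem_biUnion, mem_filter] at hn
    obtain ⟨p, _, hn, _⟩ := hn
    exact hn
  · intro n hn
    simp only [mem_biUnion, mem_filter] at hn
    obtain ⟨p, hp, _, hpn⟩ := hn
    exact ⟨p, hp, hpn⟩
  · rw [Finset.card_biUnion]
    · have hcard : ∀ p : ℕ, ((Icc 1 Y).filter (fun n => p ∣ n)).card = Y / p := by
        intro p
        have := Nat.Ioc_filter_dvd_card_eq_div Y p
        have e : Icc 1 Y = Ioc 0 Y := by ext k; simp only [mem_Icc, mem_Ioc]; omega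
        rw [e]
        exact this
      simp only [hcard]
      push_cast
      have hP : ((PR Y 0.51 1).card : ℝ) ≤ 0.006 * Y := by
        have h1 : (PR Y 0.51 1).card ≤ ((Icc 1 Y).filter Nat.Prime).card := by
          apply Finset.card_le_card
          intro p hp
          simp only [PR, mem_filter] at hp ⊢
          exact ⟨hp.1, hp.2.1⟩
        have h2 := pi_upper Y
        have h3 : (((Icc 1 Y).filter Nat.Prime).card : ℝ) * 1000 ≤ 6 * Y := by
          refine le_trans ?_ h2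
          exact mul_le_mul_of_nonneg_left hlog (Nat.cast_nonneg _)
        have h4 : ((PR Y 0.51 1).card : ℝ) ≤ (((Icc 1 Y).filter Nat.Prime).card : ℝ) := by
          exact_mod_cast h1
        linarith
      have hfl : ∀ p ∈ PR Y 0.51 1, (Y : ℝ) * (1 / (p : ℝ)) - 1 ≤ ((Y / p : ℕ) : ℝ) := by
        intro p hp
        simp only [PR, mem_filter, mem_Icc] at hp
        have hp1 : (0 : ℝ) < p := by exact_mod_cast hp.1.1
        have h1 := Nat.lt_floor_add_one ((Y : ℝ) / (p : ℝ))
        rw [Nat.floor_div_natCast, Nat.floor_natCast] at h1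
        rw [mul_one_div]
        linarith
      have h5 := Finset.sum_le_sum hfl
      rw [Finset.sum_sub_distrib, ← Finset.mul_sum] at h5
      simp only [Finset.sum_const, nsmul_eq_mul, mul_one] at h5
      have h6 := mul_le_mul_of_nonneg_left hsum hY0.le
      refine le_trans ?_ h5
      linarith
    · intro p hp q hq hpq
      simp only [Function.onFun]
      rw [Finset.disjoint_left]
      intro n hn hn'
      simp only [mem_filter] at hn hn'
      exact hpq (dens_disj Y hlpos p q n hp hq hn.1 hn.2 hn'.2)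

end Pool.Agent.Descents.D
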