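import Mathlib
import Pool.Agent.Helper564.Desc.Defs
import Pool.Agent.Helper564.Desc.P
import Pool.Agent.Helper564.Desc.D
import Pool.Agent.Helper564.Desc.Cheb

set_option autoImplicit false

open Finset Filter Topology

namespace Pool.Agent.Descents.CL

open Pool.Agent.Descents
open Pool.Agent.Descents.P
open Pool.Agent.Descents.D
open Pool.Agent.Descents.Cheb
















theorem exp_ge_two_pow (n : ℕ) : (2 : ℝ) ^ n ≤ Real.exp n := by
  have h1 : (2 : ℝ) ≤ Real.exp 1 := by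
    have := Real.add_one_le_exp (1 : ℝ)
    linarith
  calc (2 : ℝ) ^ n ≤ (Real.exp 1) ^ n := by gcongr
    _ = Real.exp n := by rw [← Real.exp_nat_mul, mul_one]

theorem m_bound (Y : ℕ) (hY : Real.exp 400 ≤ (Y : ℝ)) (G : Finset ℕ) (m : ℕ) (hm1 : 1 ≤ m)
    (hm : Real.log m ≤ 0.49 * Real.log Y) (hAdm : ¬ Adm G Y m) :
    (((Icc 1 (Y / m)).filter Nat.Prime).card : ℝ) ≤
      96 * (((PR Y 0.505 1 \ G).filter (fun p => p * m ≤ Y)).card : ℝ) := by
  classical
  have hYpos : (0 : ℝ) < Y := (Real.exp_pos _).trans_le hY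
  have hmpos : (0 : ℝ) < m := by exact_mod_cast hm1
  have hL400 : 400 ≤ Real.log Y := (Real.le_log_iff_exp_le hYpos).2 hY
  have hm0 : 0 ≤ Real.log m := Real.log_nonneg (by exact_mod_cast hm1)
  have hAdm' : 8 * (m : ℝ) * Real.log Y * ((Pim G Y m).card : ℝ) < Y := by
    by_contra hcon
    exact hAdm ⟨hm1, hm, not_lt.1 hcon⟩
  generalize hL : Real.log Y = L at *
  set x0 : ℝ := (Y : ℝ) / m with hx0
  have hx0pos : 0 < x0 := div_pos hYpos hmpos
  have hlogx0 : Real.log x0 = L - Real.log m := by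
    rw [hx0, Real.log_div hYpos.ne' hmpos.ne', hL]
  have hx0L : Real.exp (0.51 * L) ≤ x0 := by
    rw [← Real.le_log_iff_exp_le hx0pos, hlogx0]
    linarith
  have hx0le : Real.log x0 ≤ L := by rw [hlogx0]; linarith
  -- upper bound
  have hx : Real.exp (0.5 * L) ≤ ((Y / m : ℕ) : ℝ) := by
    have h1 : x0 < ((Y / m : ℕ) : ℝ) + 1 := by
      rw [hx0, div_lt_iff₀ hmpos]
      have h2 : Y < (Y / m + 1) * m := by
        have h3 := Nat.div_add_mod Y m
        have h4 := Nat.mod_lt Y (show 0 < m by omega)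
        rw [add_mul, one_mul, mul_comm (Y / m) m]
        omega
      exact_mod_cast h2
    have h5 : Real.exp (0.51 * L) = Real.exp (0.5 * L) * Real.exp (0.01 * L) := by
      rw [← Real.exp_add]
      congr 1
      ring
    have h6 : (2 : ℝ) ≤ Real.exp (0.01 * L) := by
      have h7 := exp_ge_two_pow 1
      have h8 : Real.exp ((1 : ℕ) : ℝ) ≤ Real.exp (0.01 * L) := by
        apply Real.exp_le_exp.2
        push_cast
        linarith
      refine le_trans ?_ (h7.trans h8)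
      norm_num
    have h9 : 1 ≤ Real.exp (0.5 * L) := Real.one_le_exp (by linarith)
    nlinarith
  have hxpos : (0 : ℝ) < ((Y / m : ℕ) : ℝ) := (Real.exp_pos _).trans_le hx
  have hlogx : 0.5 * L ≤ Real.log ((Y / m : ℕ) : ℝ) := (Real.le_log_iff_exp_le hxpos).2 hx
  have hxx0 : ((Y / m : ℕ) : ℝ) ≤ x0 := Nat.cast_div_le
  have hup : (((Icc 1 (Y / m)).filter Nat.Prime).card : ℝ) * L ≤ 12 * x0 := by
    have h1 := pi_upper (Y / m)
    have h2 : (((Icc 1 (Y / m)).filter Nat.Prime).card : ℝ) * (0.5 * L) ≤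
        (((Icc 1 (Y / m)).filter Nat.Prime).card : ℝ) * Real.log ((Y / m : ℕ) : ℝ) :=
      mul_le_mul_of_nonneg_left hlogx (Nat.cast_nonneg _)
    nlinarith
  -- lower bound
  have hx08 : (10 : ℝ) ^ 8 ≤ x0 := by
    refine le_trans ?_ hx0L
    have h1 := exp_ge_two_pow 204
    have h2 : Real.exp ((204 : ℕ) : ℝ) ≤ Real.exp (0.51 * L) := by
      apply Real.exp_le_exp.2
      push_cast
      linarith
    refine le_trans ?_ (h1.trans h2)
    norm_num
  have hquart : Real.exp (0.505 * L) ≤ x0 / 4 := by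
    have h5 : Real.exp (0.51 * L) = Real.exp (0.505 * L) * Real.exp (0.005 * L) := by
      rw [← Real.exp_add]
      congr 1
      ring
    have h6 : (4 : ℝ) ≤ Real.exp (0.005 * L) := by
      have h7 := exp_ge_two_pow 2
      have h8 : Real.exp ((2 : ℕ) : ℝ) ≤ Real.exp (0.005 * L) := by
        apply Real.exp_le_exp.2
        push_cast
        linarith
      refine le_trans ?_ (h7.trans h8)
      norm_num
    have h9 : 0 < Real.exp (0.505 * L) := Real.exp_pos _
    nlinarith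
  set S : Finset ℕ := (PR Y 0.505 1).filter (fun p => x0 / 4 < (p : ℝ) ∧ (p : ℝ) ≤ x0) with hS
  have hx0Y : x0 ≤ Y := by
    rw [hx0, div_le_iff₀ hmpos]
    have : (1 : ℝ) ≤ m := by exact_mod_cast hm1
    nlinarith
  have hcheb := cheb_count hx08 S (by
    intro p hp h1 h2
    rw [hS, Finset.mem_filter]
    refine ⟨?_, h1, h2⟩
    unfold PR
    rw [Finset.mem_filter, Finset.mem_Icc]
    have hp0 : (0 : ℝ) < p := by exact_mod_cast hp.pos
    refine ⟨⟨hp.one_lt.le, by exact_mod_cast h2.trans hx0Y⟩, hp, ?_, ?_⟩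
    · rw [hL, Real.lt_log_iff_exp_lt hp0]
      exact hquart.trans_lt h1
    · rw [one_mul]
      exact Real.log_le_log hp0 (h2.trans hx0Y)) (by
    intro p hp
    rw [hS, Finset.mem_filter] at hp
    unfold PR at hp
    rw [Finset.mem_filter, Finset.mem_Icc] at hp
    exact ⟨hp.1.1.1, hp.2.2⟩)
  have hsub : S ⊆ ((PR Y 0.505 1 \ G).filter (fun p => p * m ≤ Y)) ∪ Pim G Y m := by
    intro p hp
    rw [hS, Finset.mem_filter] at hp
    obtain ⟨hp1, hp2, hp3⟩ := hp
    have hpm : p * m ≤ Y := by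
      rw [hx0, le_div_iff₀ hmpos] at hp3
      exact_mod_cast hp3
    rw [Finset.mem_union]
    by_cases hpG : p ∈ G
    · right
      unfold Pim
      rw [Finset.mem_filter]
      refine ⟨hpG, ?_, hpm⟩
      have h1 : (Y : ℝ) < 4 * (p * m) := by
        rw [hx0, div_div, div_lt_iff₀ (by positivity)] at hp2
        linarith
      have h2 : Y < 4 * (p * m) := by exact_mod_cast h1
      omega
    · left
      rw [Finset.mem_filter, Finset.mem_sdiff]
      exact ⟨⟨hp1, hpG⟩, hpm⟩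
  have hcard := (Finset.card_le_card hsub).trans (Finset.card_union_le _ _)
  have hcard' : (S.card : ℝ) ≤ (((PR Y 0.505 1 \ G).filter (fun p => p * m ≤ Y)).card : ℝ) +
      ((Pim G Y m).card : ℝ) := by exact_mod_cast hcard
  generalize (((PR Y 0.505 1 \ G).filter (fun p => p * m ≤ Y)).card : ℝ) = a at *
  generalize ((Pim G Y m).card : ℝ) = b at *
  generalize (((Icc 1 (Y / m)).filter Nat.Prime).card : ℝ) = π at *
  have hb : 8 * L * b < x0 := by
    rw [hx0, lt_div_iff₀ hmpos]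
    nlinarith
  have hS0 : (0 : ℝ) ≤ (S.card : ℝ) := Nat.cast_nonneg _
  have h1 : x0 / 4 ≤ (a + b) * L := by
    calc x0 / 4 ≤ (S.card : ℝ) * Real.log x0 := hcheb
      _ ≤ (S.card : ℝ) * L := mul_le_mul_of_nonneg_left hx0le hS0
      _ ≤ (a + b) * L := mul_le_mul_of_nonneg_right hcard' (by linarith)
  have h2 : x0 < 8 * L * a := by nlinarith
  have h3 : π * L ≤ (96 * a) * L := by nlinarith
  exact le_of_mul_le_mul_right h3 (by linarith)

theorem card_mul_le (Y p : ℕ) (hp : 1 ≤ p) :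
    (((Icc 1 Y).filter (fun m => p * m ≤ Y)).card : ℝ) ≤ (Y : ℝ) / p := by
  have h1 : (Icc 1 Y).filter (fun m => p * m ≤ Y) ⊆ Icc 1 (Y / p) := by
    intro m hm
    rw [Finset.mem_filter, Finset.mem_Icc] at hm
    rw [Finset.mem_Icc]
    exact ⟨hm.1.1, (Nat.le_div_iff_mul_le (by omega)).2 (by rw [mul_comm]; exact hm.2)⟩
  have h2 := Finset.card_le_card h1
  rw [Nat.card_Icc, Nat.add_sub_cancel] at h2
  calc (((Icc 1 Y).filter (fun m => p * m ≤ Y)).card : ℝ) ≤ ((Y / p : ℕ) : ℝ) := by exact_mod_cast h2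
    _ ≤ (Y : ℝ) / p := Nat.cast_div_le

theorem card_dvd_le (Y p : ℕ) (hp : 1 ≤ p) :
    (((Icc 1 Y).filter (fun n => p ∣ n)).card : ℝ) ≤ (Y : ℝ) / p := by
  have h1 : (Icc 1 Y).filter (fun n => p ∣ n) ⊆ (Icc 1 (Y / p)).image (fun m => p * m) := by
    intro n hn
    rw [Finset.mem_filter, Finset.mem_Icc] at hn
    obtain ⟨⟨h1, h2⟩, m, rfl⟩ := hn
    rw [Finset.mem_image]
    refine ⟨m, ?_, rfl⟩
    rw [Finset.mem_Icc]
    refine ⟨?_, (Nat.le_div_iff_mul_le (by omega)).2 (by rw [mul_comm]; exact h2)⟩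
    rcases Nat.eq_zero_or_pos m with h | h
    · rw [h, mul_zero] at h1; omega
    · exact h
  have h2 := (Finset.card_le_card h1).trans Finset.card_image_le
  rw [Nat.card_Icc, Nat.add_sub_cancel] at h2
  calc (((Icc 1 Y).filter (fun n => p ∣ n)).card : ℝ) ≤ ((Y / p : ℕ) : ℝ) := by exact_mod_cast h2
    _ ≤ (Y : ℝ) / p := Nat.cast_div_le

theorem Bf_one_le (S : Finset ℕ) : 1 ≤ ∏ l ∈ S, (1 + 1 / (l : ℝ)) := by
  have h1 : ∏ l ∈ S, (1 : ℝ) ≤ ∏ l ∈ S, (1 + 1 / (l : ℝ)) := by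
    apply Finset.prod_le_prod
    · intro i _; exact zero_le_one
    · intro i _
      have : (0 : ℝ) ≤ 1 / (i : ℝ) := by positivity
      linarith
  rwa [Finset.prod_const_one] at h1

theorem Bf_mono {m n : ℕ} (h : m ∣ n) (hn : n ≠ 0) : Bf m ≤ Bf n := by
  classical
  unfold Bf
  rw [← Finset.prod_sdiff (Nat.primeFactors_mono h hn)]
  have h1 := Bf_one_le (n.primeFactors \ m.primeFactors)
  have h2 := Bf_one_le m.primeFactors
  nlinarith

theorem PR_one_le {Y : ℕ} {a b : ℝ} {p : ℕ} (h : p ∈ PR Y a b) : 1 ≤ p := by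
  unfold PR at h
  rw [Finset.mem_filter, Finset.mem_Icc] at h
  exact h.1.1

/-- TARGET -/
theorem omega_lower : ∃ C : ℝ, 0 < C ∧ ∀ ε : ℝ, 0 < ε → ∃ Y0 : ℕ, ∀ Y : ℕ, Y0 ≤ Y →
    ∀ G : Finset ℕ, G ⊆ PR Y 0.505 1 → ∑ p ∈ PR Y 0.505 1 \ G, 1 / (p : ℝ) ≤ ε →
    ∃ T : Finset ℕ, T ⊆ Icc 1 Y ∧ (0.554 - C * ε) * (Y : ℝ) ≤ T.card ∧
      ∀ n ∈ T, ∃ p m : ℕ, p * m = n ∧ p ∈ Pim G Y m ∧ Adm G Y m ∧ Bf m ≤ 1000 := by
  classical
  obtain ⟨Y0, hY0⟩ := dens
  refine ⟨97, by norm_num, fun ε hε => ⟨max Y0 (⌈Real.exp 400⌉₊), fun Y hY G hG hsum => ?_⟩⟩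
  obtain ⟨T0, hT0, hT0p, hT0c⟩ := hY0 Y (le_trans (le_max_left _ _) hY)
  have hYe : Real.exp 400 ≤ (Y : ℝ) :=
    (Nat.le_ceil _).trans (by exact_mod_cast (le_max_right _ _).trans hY)
  have hYpos : (0 : ℝ) < Y := (Real.exp_pos _).trans_le hYe
  have hL400 : 400 ≤ Real.log Y := (Real.le_log_iff_exp_le hYpos).2 hYe
  set R : Finset ℕ := PR Y 0.505 1 \ G with hR
  have hR1 : ∀ p ∈ R, 1 ≤ p := fun p hp => PR_one_le (Finset.mem_sdiff.1 hp).1
  set M : Finset ℕ := (Icc 1 Y).filter (fun m => Real.log m ≤ 0.49 * Real.log Y ∧ ¬ Adm G Y m) with hM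
  set SA : Finset ℕ := (Icc 1 Y).filter (fun n => 256 * n ≤ Y) with hSA
  set SB : Finset ℕ := (Icc 1 Y).filter (fun n => 1000 < Bf n) with hSB
  set SC : Finset ℕ := R.biUnion (fun p => (Icc 1 Y).filter (fun n => p ∣ n)) with hSC
  set SD : Finset ℕ := M.biUnion (fun m => ((Icc 1 (Y / m)).filter Nat.Prime).image (fun p => p * m)) with hSD
  have cA : (SA.card : ℝ) ≤ (Y : ℝ) / 256 := by
    have := card_mul_le Y 256 (by norm_num)
    exact_mod_cast this
  have cB : (SB.card : ℝ) * 1000 ≤ 2 * Y := by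
    calc (SB.card : ℝ) * 1000 = ∑ n ∈ SB, (1000 : ℝ) := by
          rw [Finset.sum_const, nsmul_eq_mul]
      _ ≤ ∑ n ∈ SB, Bf n := Finset.sum_le_sum fun n hn => by
          rw [hSB, Finset.mem_filter] at hn
          exact hn.2.le
      _ ≤ ∑ n ∈ Icc 1 Y, Bf n := by
          apply Finset.sum_le_sum_of_subset_of_nonneg (Finset.filter_subset _ _)
          intro n _ _
          exact zero_le_one.trans (Bf_one_le _)
      _ ≤ 2 * Y := nice_count Y
  have hRY : ∑ p ∈ R, (Y : ℝ) / p ≤ ε * Y := by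
    calc ∑ p ∈ R, (Y : ℝ) / p = Y * ∑ p ∈ R, 1 / (p : ℝ) := by
          rw [Finset.mul_sum]
          apply Finset.sum_congr rfl
          intro p _
          ring
      _ ≤ Y * ε := mul_le_mul_of_nonneg_left hsum hYpos.le
      _ = ε * Y := mul_comm _ _
  have cC : (SC.card : ℝ) ≤ ε * Y := by
    refine le_trans ?_ hRY
    calc (SC.card : ℝ) ≤ ((∑ p ∈ R, ((Icc 1 Y).filter (fun n => p ∣ n)).card : ℕ) : ℝ) := by
          exact_mod_cast Finset.card_biUnion_le
      _ = ∑ p ∈ R, (((Icc 1 Y).filter (fun n => p ∣ n)).card : ℝ) := by push_cast; rfl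
      _ ≤ ∑ p ∈ R, (Y : ℝ) / p := Finset.sum_le_sum fun p hp => card_dvd_le Y p (hR1 p hp)
  have cD : (SD.card : ℝ) ≤ 96 * (ε * Y) := by
    calc (SD.card : ℝ) ≤ ((∑ m ∈ M, (((Icc 1 (Y / m)).filter Nat.Prime).image (fun p => p * m)).card : ℕ) : ℝ) := by
          exact_mod_cast Finset.card_biUnion_le
      _ = ∑ m ∈ M, ((((Icc 1 (Y / m)).filter Nat.Prime).image (fun p => p * m)).card : ℝ) := by
          push_cast; rfl
      _ ≤ ∑ m ∈ M, 96 * ((R.filter (fun p => p * m ≤ Y)).card : ℝ) := by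
          apply Finset.sum_le_sum
          intro m hm
          rw [hM, Finset.mem_filter, Finset.mem_Icc] at hm
          have h1 : ((((Icc 1 (Y / m)).filter Nat.Prime).image (fun p => p * m)).card : ℝ) ≤
              (((Icc 1 (Y / m)).filter Nat.Prime).card : ℝ) := by
            exact_mod_cast Finset.card_image_le
          exact h1.trans (m_bound Y hYe G m hm.1.1 hm.2.1 hm.2.2)
      _ ≤ ∑ m ∈ Icc 1 Y, 96 * ((R.filter (fun p => p * m ≤ Y)).card : ℝ) := by
          apply Finset.sum_le_sum_of_subset_of_nonneg (Finset.filter_subset _ _)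
          intro n _ _
          positivity
      _ = 96 * ∑ m ∈ Icc 1 Y, ((R.filter (fun p => p * m ≤ Y)).card : ℝ) := by
          rw [Finset.mul_sum]
      _ = 96 * ∑ p ∈ R, (((Icc 1 Y).filter (fun m => p * m ≤ Y)).card : ℝ) := by
          congr 1
          simp only [Finset.card_filter]
          push_cast
          exact Finset.sum_comm
      _ ≤ 96 * ∑ p ∈ R, (Y : ℝ) / p := by
          apply mul_le_mul_of_nonneg_left _ (by norm_num)
          exact Finset.sum_le_sum fun p hp => card_mul_le Y p (hR1 p hp)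
      _ ≤ 96 * (ε * Y) := by
          apply mul_le_mul_of_nonneg_left hRY (by norm_num)
  set T : Finset ℕ := T0 \ (((SA ∪ SB) ∪ SC) ∪ SD) with hT
  have hTT0 : T ⊆ T0 := Finset.sdiff_subset
  refine ⟨T, hTT0.trans hT0, ?_, ?_⟩
  · have h1 : T0.card ≤ T.card + ((SA.card + SB.card) + SC.card + SD.card) := by
      have h2 : T0 ⊆ T ∪ (((SA ∪ SB) ∪ SC) ∪ SD) := by
        intro n hn
        rw [hT, Finset.mem_union, Finset.mem_sdiff]
        tauto
      refine (Finset.card_le_card h2).trans ((Finset.card_union_le _ _).trans ?_)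
      have h3 := Finset.card_union_le ((SA ∪ SB) ∪ SC) SD
      have h4 := Finset.card_union_le (SA ∪ SB) SC
      have h5 := Finset.card_union_le SA SB
      omega
    have h2 : (T0.card : ℝ) ≤ T.card + ((SA.card + SB.card) + SC.card + SD.card) := by
      exact_mod_cast h1
    nlinarith
  · intro n hn
    rw [hT, Finset.mem_sdiff] at hn
    obtain ⟨hn0, hn1⟩ := hn
    simp only [Finset.mem_union, not_or] at hn1
    obtain ⟨⟨⟨hnA, hnB⟩, hnC⟩, hnD⟩ := hn1
    have hnY := hT0 hn0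
    rw [Finset.mem_Icc] at hnY
    obtain ⟨p, hp, m, rfl⟩ := hT0p n hn0
    have hp1 : 1 ≤ p := PR_one_le hp
    have hm1 : 1 ≤ m := by
      rcases Nat.eq_zero_or_pos m with h | h
      · rw [h, mul_zero] at hnY; omega
      · exact h
    have hp' := hp
    unfold PR at hp'
    rw [Finset.mem_filter, Finset.mem_Icc] at hp'
    obtain ⟨⟨_, hpY⟩, hpp, hpl, hpu⟩ := hp'
    have hpR : p ∈ PR Y 0.505 1 := by
      unfold PR
      rw [Finset.mem_filter, Finset.mem_Icc]
      refine ⟨⟨hp1, hpY⟩, hpp, ?_, hpu⟩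
      linarith
    have hpG : p ∈ G := by
      by_contra hpG
      apply hnC
      rw [hSC, Finset.mem_biUnion]
      refine ⟨p, Finset.mem_sdiff.2 ⟨hpR, hpG⟩, ?_⟩
      rw [Finset.mem_filter, Finset.mem_Icc]
      exact ⟨hnY, dvd_mul_right _ _⟩
    have hpos : (0 : ℝ) < p := by exact_mod_cast hp1
    have hmpos : (0 : ℝ) < m := by exact_mod_cast hm1
    have hlogm : Real.log m ≤ 0.49 * Real.log Y := by
      have h1 : Real.log ((p * m : ℕ) : ℝ) ≤ Real.log Y := by
        apply Real.log_le_log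
        · push_cast; positivity
        · exact_mod_cast hnY.2
      push_cast at h1
      rw [Real.log_mul hpos.ne' hmpos.ne'] at h1
      linarith
    have hmY : m ≤ Y := by nlinarith [hnY.2]
    refine ⟨p, m, rfl, ?_, ?_, ?_⟩
    · unfold Pim
      rw [Finset.mem_filter]
      refine ⟨hpG, ?_, hnY.2⟩
      by_contra hcon
      apply hnA
      rw [hSA, Finset.mem_filter, Finset.mem_Icc]
      exact ⟨hnY, not_lt.1 hcon⟩
    · by_contra hcon
      apply hnD
      rw [hSD, Finset.mem_biUnion]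
      refine ⟨m, ?_, ?_⟩
      · rw [hM, Finset.mem_filter, Finset.mem_Icc]
        exact ⟨⟨hm1, hmY⟩, hlogm, hcon⟩
      · rw [Finset.mem_image]
        refine ⟨p, ?_, rfl⟩
        rw [Finset.mem_filter, Finset.mem_Icc]
        exact ⟨⟨hp1, (Nat.le_div_iff_mul_le (by omega)).2 hnY.2⟩, hpp⟩
    · have h1 : Bf (p * m) ≤ 1000 := by
        by_contra hcon
        apply hnB
        rw [hSB, Finset.mem_filter, Finset.mem_Icc]
        exact ⟨hnY, not_le.1 hcon⟩
      exact (Bf_mono (dvd_mul_left m p) (by omega)).trans h1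

end Pool.Agent.Descents.CL
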