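import Mathlib
import Pool.Agent.Helper564.Desc.Defs
import Pool.Agent.Helper403.Pairs

set_option autoImplicit false

open Finset

namespace Pool.Agent.Descents.PBlib

open Pool.Agent.Descents

theorem pairs_sieve {N a b k k' Y : ℕ} (hN : 1 ≤ N) (ha : 0 < a) (hb : 0 < b) (hk : k ≠ k')
    (S : Finset (ℕ × ℕ))
    (hS : ∀ x ∈ S, a * x.1 + k = b * x.2 + k' ∧ x.1 ≤ Y)
    (hp : ∀ x ∈ S, x.1.Prime ∧ x.2.Prime ∧ 4 ^ (2 * N) < x.1 ∧ 4 ^ (2 * N) < x.2) :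
    (S.card : ℝ) ≤ (Y : ℝ) * Nat.gcd a b / b *
      (10 * (Bf a * Bf b * Bf (Int.natAbs ((k : ℤ) - k'))) ^ 2 / N ^ 2) + 1 + 2 * 4 ^ (8 * N) :=
  Pool.Agent.Helper403.pairs_sieve hN ha hb hk S hS hp

end Pool.Agent.Descents.PBlib
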