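import Mathlib
import Pool.Agent.Helper564.Desc.Defs
import Pool.Agent.Helper564.Desc.PBlib

set_option autoImplicit false

open Finset Filter Topology

namespace Pool.Agent.Descents.PB

open Pool.Agent.Descents
open Pool.Agent.Descents.PBlib







theorem hF_Bf_one : Bf 1 = 1 := by simp [Bf]

theorem hF_Bf_nonneg (n : ℕ) : 0 ≤ Bf n := by
  unfold Bf
  exact Finset.prod_nonneg fun l _ => by positivity

/-- TARGET -/
theorem pair_bound (C0 : ℝ) (hC0 : 1 ≤ C0) :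
    ∃ C1 : ℝ, 0 < C1 ∧ ∃ Y0 : ℕ, ∀ Y : ℕ, Y0 ≤ Y → ∀ m m' : ℕ, 1 ≤ m → 1 ≤ m' →
      Real.log m ≤ 0.49 * Real.log Y → Real.log m' ≤ 0.49 * Real.log Y →
      Bf m ≤ C0 → Bf m' ≤ C0 → ∀ S : Finset ℕ,
      (∀ p ∈ S, p.Prime ∧ 0.5 * Real.log Y < Real.log p ∧ p * m ≤ Y ∧
        ∃ p' : ℕ, p'.Prime ∧ 0.5 * Real.log Y < Real.log p' ∧ p * m + 1 = p' * m') →
      (S.card : ℝ) ≤ C1 * Y / (m * m' * (Real.log Y) ^ 2) := by
  classical
  refine ⟨10 * C0 ^ 4 * 2400 ^ 2 + 1, by positivity, ⌈Real.exp (2 * 10 ^ 7)⌉₊, ?_⟩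
  intro Y hY m m' hm hm' hlm hlm' hBm hBm' S hS
  have hY1 : Real.exp (2 * 10 ^ 7) ≤ (Y : ℝ) := (Nat.le_ceil _).trans (by exact_mod_cast hY)
  have hYpos : (0:ℝ) < Y := lt_of_lt_of_le (Real.exp_pos _) hY1
  set L := Real.log Y with hLdef
  have hL : 2 * 10 ^ 7 ≤ L := by
    rw [hLdef, Real.le_log_iff_exp_le hYpos]; exact hY1
  have hLpos : 0 < L := by linarith
  have hmpos : (0:ℝ) < m := by exact_mod_cast hm
  have hmpos' : (0:ℝ) < m' := by exact_mod_cast hm'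
  rcases S.eq_empty_or_nonempty with hSe | hSne
  · rw [hSe]; simp only [Finset.card_empty, Nat.cast_zero]; positivity
  -- the partner
  have hch : ∀ p : ℕ, ∃ p' : ℕ, p ∈ S → (p'.Prime ∧ 0.5 * L < Real.log p' ∧
      p * m + 1 = p' * m') := by
    intro p
    by_cases hp : p ∈ S
    · obtain ⟨_, _, _, p', h⟩ := hS p hp
      exact ⟨p', fun _ => h⟩
    · exact ⟨0, fun h => absurd h hp⟩
  choose g hg using hch
  set S' : Finset (ℕ × ℕ) := S.image (fun p => (p, g p)) with hS'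
  have hcard : S'.card = S.card := Finset.card_image_of_injOn (fun a _ b _ h => by
    simpa using congrArg Prod.fst h)
  -- N
  set N := ⌊L / 1200⌋₊ with hNdef
  have hNle : (N : ℝ) ≤ L / 1200 := Nat.floor_le (by positivity)
  have hNlt : L / 1200 < (N : ℝ) + 1 := Nat.lt_floor_add_one _
  have hNge : L / 2400 ≤ (N : ℝ) := by linarith
  have hN1 : 1 ≤ N := by
    have : (1:ℝ) ≤ (N : ℝ) := by linarith
    exact_mod_cast this
  have hlog4 : Real.log 4 ≤ 1.4 := by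
    have h2 : Real.log 4 = 2 * Real.log 2 := by
      rw [show (4:ℝ) = 2 ^ 2 by norm_num, Real.log_pow]; norm_num
    have := Real.log_two_lt_d9
    rw [h2]; linarith
  have hlog4pos : 0 < Real.log 4 := Real.log_pos (by norm_num)
  have hbig : ∀ q : ℕ, 0.5 * L < Real.log q → 4 ^ (2 * N) < q := by
    intro q hq
    have hq0 : (0:ℝ) < q := by
      rcases Nat.eq_zero_or_pos q with h0 | h0
      · rw [h0] at hq; simp at hq; linarith
      · exact_mod_cast h0
    have h1 : Real.log ((4:ℝ) ^ (2 * N)) < Real.log q := by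
      rw [Real.log_pow]
      refine lt_of_le_of_lt ?_ hq
      push_cast
      have h3 : 2 * (N:ℝ) * Real.log 4 ≤ 2 * (L / 1200) * 1.4 := by
        apply mul_le_mul _ hlog4 hlog4pos.le (by positivity)
        linarith
      linarith
    have h2 := (Real.log_lt_log_iff (by positivity) hq0).1 h1
    exact_mod_cast h2
  have hgcd : Nat.gcd m m' = 1 := by
    obtain ⟨p, hp⟩ := hSne
    have h := (hg p hp).2.2
    have h1 : Nat.gcd m m' ∣ p * m + 1 := by
      rw [h]; exact Dvd.dvd.mul_left (Nat.gcd_dvd_right m m') _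
    have h2 : Nat.gcd m m' ∣ p * m := Dvd.dvd.mul_left (Nat.gcd_dvd_left m m') _
    exact Nat.dvd_one.1 ((Nat.dvd_add_right h2).1 h1)
  have hsieve := pairs_sieve (N := N) (a := m) (b := m') (k := 1) (k' := 0) (Y := Y / m) hN1 hm hm'
    one_ne_zero S' (by
      intro x hx
      rw [hS', Finset.mem_image] at hx
      obtain ⟨p, hp, rfl⟩ := hx
      obtain ⟨_, _, hpm, _⟩ := hS p hp
      have h := (hg p hp).2.2
      refine ⟨?_, ?_⟩
      · show m * p + 1 = m' * g p + 0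
        rw [add_zero, mul_comm m p, mul_comm m' (g p)]; exact h
      · exact (Nat.le_div_iff_mul_le hm).2 hpm) (by
      intro x hx
      rw [hS', Finset.mem_image] at hx
      obtain ⟨p, hp, rfl⟩ := hx
      obtain ⟨hpp, hpl, _, _⟩ := hS p hp
      obtain ⟨hgp, hgl, _⟩ := hg p hp
      exact ⟨hpp, hgp, hbig p hpl, hbig _ hgl⟩)
  rw [hcard, hgcd] at hsieve
  have hB1 : Bf (Int.natAbs (((1:ℕ) : ℤ) - ((0:ℕ) : ℤ))) = 1 := by
    have : Int.natAbs (((1:ℕ) : ℤ) - ((0:ℕ) : ℤ)) = 1 := by simp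
    rw [this]; exact hF_Bf_one
  rw [hB1, mul_one] at hsieve
  have hBB : (Bf m * Bf m') ^ 2 ≤ C0 ^ 4 := by
    have h1 : Bf m * Bf m' ≤ C0 * C0 := mul_le_mul hBm hBm' (hF_Bf_nonneg _) (by linarith)
    calc (Bf m * Bf m') ^ 2 ≤ (C0 * C0) ^ 2 :=
          pow_le_pow_left₀ (mul_nonneg (hF_Bf_nonneg _) (hF_Bf_nonneg _)) h1 2
      _ = C0 ^ 4 := by ring
  have hN2 : (L / 2400) ^ 2 ≤ (N : ℝ) ^ 2 := pow_le_pow_left₀ (by positivity) hNge 2
  have hYm : ((Y / m : ℕ) : ℝ) ≤ (Y : ℝ) / m := Nat.cast_div_le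
  have hfirst : ((Y / m : ℕ) : ℝ) * ((1 : ℕ) : ℝ) / m' *
      (10 * (Bf m * Bf m') ^ 2 / N ^ 2) ≤ 10 * C0 ^ 4 * 2400 ^ 2 * Y / (m * m' * L ^ 2) := by
    have h1 : 10 * (Bf m * Bf m') ^ 2 / (N:ℝ) ^ 2 ≤ 10 * C0 ^ 4 / (L / 2400) ^ 2 := by
      apply div_le_div₀ (by positivity) _ (by positivity) hN2
      linarith
    have h2 : ((Y / m : ℕ) : ℝ) * ((1 : ℕ) : ℝ) / m' ≤ (Y : ℝ) / m / m' := by
      rw [Nat.cast_one, mul_one]
      exact div_le_div_of_nonneg_right hYm hmpos'.le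
    calc _ ≤ ((Y : ℝ) / m / m') * (10 * C0 ^ 4 / (L / 2400) ^ 2) :=
          mul_le_mul h2 h1 (by positivity) (by positivity)
      _ = _ := by field_simp
  have hYexp : (Y : ℝ) = Real.exp L := (Real.exp_log hYpos).symm
  have hm_exp : (m : ℝ) ≤ Real.exp (0.49 * L) := by
    rw [← Real.exp_log hmpos]; exact Real.exp_le_exp.2 hlm
  have hm_exp' : (m' : ℝ) ≤ Real.exp (0.49 * L) := by
    rw [← Real.exp_log hmpos']; exact Real.exp_le_exp.2 hlm'
  have hmm : (m : ℝ) * m' ≤ Real.exp (0.98 * L) := by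
    calc (m : ℝ) * m' ≤ Real.exp (0.49 * L) * Real.exp (0.49 * L) :=
          mul_le_mul hm_exp hm_exp' hmpos'.le (Real.exp_pos _).le
      _ = Real.exp (0.98 * L) := by rw [← Real.exp_add]; congr 1; ring
  have hexp3 : 3 * L ^ 2 ≤ Real.exp (0.01 * L) := by
    have h1 := Real.pow_div_factorial_le_exp (0.01 * L) (by positivity) 3
    refine le_trans ?_ h1
    have h2 : (Nat.factorial 3 : ℝ) = 6 := by norm_num [Nat.factorial]
    rw [h2, le_div_iff₀ (by norm_num)]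
    have h3 : (0.01 * L) ^ 3 = 0.000001 * L * L ^ 2 := by ring
    rw [h3]
    have h4 : (18:ℝ) ≤ 0.000001 * L := by linarith
    nlinarith [sq_nonneg L]
  have hsecond : 1 + 2 * (4:ℝ) ^ (8 * N) ≤ Y / (m * m' * L ^ 2) := by
    have h1 : (4:ℝ) ^ (8 * N) ≤ Real.exp (0.01 * L) := by
      rw [← Real.exp_log (show (0:ℝ) < 4 ^ (8 * N) by positivity), Real.log_pow]
      apply Real.exp_le_exp.2
      push_cast
      have h3 : 8 * (N:ℝ) * Real.log 4 ≤ 8 * (L / 1200) * 1.4 := by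
        apply mul_le_mul _ hlog4 hlog4pos.le (by positivity)
        linarith
      linarith
    have h2 : (1:ℝ) ≤ Real.exp (0.01 * L) := Real.one_le_exp (by positivity)
    rw [le_div_iff₀ (by positivity)]
    calc (1 + 2 * (4:ℝ) ^ (8 * N)) * (m * m' * L ^ 2)
        ≤ (3 * Real.exp (0.01 * L)) * (Real.exp (0.98 * L) * L ^ 2) := by
          apply mul_le_mul _ _ (by positivity) (by positivity)
          · linarith
          · exact mul_le_mul_of_nonneg_right hmm (by positivity)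
      _ = (3 * L ^ 2) * (Real.exp (0.01 * L) * Real.exp (0.98 * L)) := by ring
      _ ≤ Real.exp (0.01 * L) * (Real.exp (0.01 * L) * Real.exp (0.98 * L)) :=
          mul_le_mul_of_nonneg_right hexp3 (by positivity)
      _ = Y := by
          rw [← Real.exp_add, ← Real.exp_add, hYexp]; congr 1; ring
  have hfin : (S.card : ℝ) ≤ 10 * C0 ^ 4 * 2400 ^ 2 * Y / (m * m' * L ^ 2) +
      Y / (m * m' * L ^ 2) := by
    have h5 : (S.card : ℝ) ≤ ((Y / m : ℕ) : ℝ) * ((1 : ℕ) : ℝ) / m' *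
      (10 * (Bf m * Bf m') ^ 2 / N ^ 2) + 1 + 2 * 4 ^ (8 * N) := hsieve
    linarith
  refine hfin.trans (le_of_eq ?_)
  rw [← add_div]
  congr 1
  ring

end Pool.Agent.Descents.PB
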