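import Mathlib
import Pool.Agent.Helper564.Desc.Defs
import Pool.Agent.Helper564.Desc.PB

set_option autoImplicit false

open Finset Filter Topology

namespace Pool.Agent.Descents.CU

open Pool.Agent.Descents
open Pool.Agent.Descents.PB










theorem omega_upper : ∃ C : ℝ, 0 < C ∧ ∃ Y0 : ℕ, ∀ Y : ℕ, Y0 ≤ Y →
    ∀ G : Finset ℕ, G ⊆ PR Y 0.505 1 → ∀ (ix : ℕ → ℕ) (κ : ℝ), 0 ≤ κ →
    (∀ (j : ℕ) (S : Finset ℕ), (∀ m ∈ S, Adm G Y m ∧ ix m = j) →
      ∑ m ∈ S, 1 / (m : ℝ) ≤ κ * Real.log Y) →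
    ∀ Ω : Finset ℕ, Ω ⊆ Icc 1 Y →
      (∀ n ∈ Ω, ∃ p m p' m' : ℕ, p * m = n ∧ p ∈ Pim G Y m ∧ Adm G Y m ∧ Bf m ≤ 1000 ∧
        p' * m' = n + 1 ∧ p' ∈ Pim G Y m' ∧ Adm G Y m' ∧ Bf m' ≤ 1000 ∧
        ix m' ≤ ix m + 1 ∧ ix m ≤ ix m' + 1) →
      (Ω.card : ℝ) ≤ C * κ * Y := by
  classical
  obtain ⟨C1, hC1, Y0, hpb⟩ := pair_bound 1000 (by norm_num)
  refine ⟨6 * C1, by positivity, max Y0 3, ?_⟩
  intro Y hY G hG ix κ hκ hix Ω hΩ hΩ2
  have hY0 : Y0 ≤ Y := le_trans (le_max_left _ _) hY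
  have hY3 : 3 ≤ Y := le_trans (le_max_right _ _) hY
  have hL1 : 1 ≤ Real.log Y := by
    rw [Real.le_log_iff_exp_le (by positivity)]
    have h1 := Real.exp_one_lt_d9
    have h2 : (3 : ℝ) ≤ Y := by exact_mod_cast hY3
    linarith
  have hL0 : 0 < Real.log Y := by linarith
  set L := Real.log Y with hL
  have hGp : ∀ p ∈ G, p.Prime ∧ 0.505 * L < Real.log p := by
    intro p hp
    have := hG hp
    rw [PR, Finset.mem_filter] at this
    exact ⟨this.2.1, this.2.2.1⟩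
  set A : Finset ℕ := (Icc 1 Y).filter (fun m => Adm G Y m ∧ Bf m ≤ 1000) with hA
  set Am : ℕ → Finset ℕ := fun m => A.filter (fun m' => ix m' ≤ ix m + 1 ∧ ix m ≤ ix m' + 1) with hAm
  set S : ℕ → ℕ → Finset ℕ := fun m m' => (Pim G Y m).filter (fun p => ∃ p' ∈ Pim G Y m', p' * m' = p * m + 1) with hS
  have hPim : ∀ m p, p ∈ Pim G Y m → p ∈ G ∧ p * m ≤ Y := by
    intro m p hp
    rw [Pim, Finset.mem_filter] at hp
    exact ⟨hp.1, hp.2.2⟩
  have hmle : ∀ m p, p ∈ Pim G Y m → m ≤ Y := by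
    intro m p hp
    obtain ⟨h1, h2⟩ := hPim m p hp
    have h3 := (hGp p h1).1.one_lt.le
    calc m = 1 * m := (one_mul m).symm
      _ ≤ p * m := Nat.mul_le_mul_right m h3
      _ ≤ Y := h2
  have hcov : Ω ⊆ A.biUnion (fun m => (Am m).biUnion (fun m' => (S m m').image (fun p => p * m))) := by
    intro n hn
    obtain ⟨p, m, p', m', e1, hp, am, bm, e2, hp', am', bm', i1, i2⟩ := hΩ2 n hn
    rw [Finset.mem_biUnion]
    refine ⟨m, ?_, ?_⟩
    · rw [hA, Finset.mem_filter, Finset.mem_Icc]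
      exact ⟨⟨am.1, hmle m p hp⟩, am, bm⟩
    · rw [Finset.mem_biUnion]
      refine ⟨m', ?_, ?_⟩
      · rw [hAm, Finset.mem_filter, hA, Finset.mem_filter, Finset.mem_Icc]
        exact ⟨⟨⟨am'.1, hmle m' p' hp'⟩, am', bm'⟩, i1, i2⟩
      · rw [Finset.mem_image]
        refine ⟨p, ?_, e1⟩
        rw [hS, Finset.mem_filter]
        exact ⟨hp, p', hp', by rw [e1, e2]⟩
  have hSc : ∀ m ∈ A, ∀ m' ∈ A, ((S m m').card : ℝ) ≤ C1 * Y / (m * m' * L ^ 2) := by
    intro m hm m' hm'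
    rw [hA, Finset.mem_filter] at hm hm'
    apply hpb Y hY0 m m' hm.2.1.1 hm'.2.1.1 hm.2.1.2.1 hm'.2.1.2.1 hm.2.2 hm'.2.2
    intro p hp
    rw [hS, Finset.mem_filter] at hp
    obtain ⟨hp1, p', hp', e⟩ := hp
    obtain ⟨g1, g2⟩ := hPim m p hp1
    obtain ⟨g1', g2'⟩ := hPim m' p' hp'
    refine ⟨(hGp p g1).1, ?_, g2, p', (hGp p' g1').1, ?_, e.symm⟩
    · have := (hGp p g1).2
      linarith
    · have := (hGp p' g1').2
      linarith
  have hinner : ∀ m ∈ A, ∑ m' ∈ Am m, 1 / (m' : ℝ) ≤ 3 * κ * L := by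
    intro m hm
    have key : ∀ j : ℕ, ∑ m' ∈ A.filter (fun m' => ix m' = j), 1 / (m' : ℝ) ≤ κ * L := by
      intro j
      apply hix j
      intro m' hm'
      rw [Finset.mem_filter, hA, Finset.mem_filter] at hm'
      exact ⟨hm'.1.2.1, hm'.2⟩
    have h1 : ∑ m' ∈ Am m, 1 / (m' : ℝ) ≤ ∑ m' ∈ A, ((if ix m' = ix m - 1 then 1 / (m' : ℝ) else 0)
        + (if ix m' = ix m then 1 / (m' : ℝ) else 0) + (if ix m' = ix m + 1 then 1 / (m' : ℝ) else 0)) := by
      rw [hAm, Finset.sum_filter]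
      apply Finset.sum_le_sum
      intro m' _
      have hn : (0 : ℝ) ≤ 1 / (m' : ℝ) := by positivity
      by_cases hc : ix m' ≤ ix m + 1 ∧ ix m ≤ ix m' + 1
      · rw [if_pos hc]
        have h3 : ix m' = ix m - 1 ∨ ix m' = ix m ∨ ix m' = ix m + 1 := by omega
        have e1 : (0:ℝ) ≤ (if ix m' = ix m - 1 then 1 / (m' : ℝ) else 0) := by split_ifs <;> [exact hn; exact le_refl _]
        have e2 : (0:ℝ) ≤ (if ix m' = ix m then 1 / (m' : ℝ) else 0) := by split_ifs <;> [exact hn; exact le_refl _]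
        have e3 : (0:ℝ) ≤ (if ix m' = ix m + 1 then 1 / (m' : ℝ) else 0) := by split_ifs <;> [exact hn; exact le_refl _]
        rcases h3 with h | h | h
        · rw [if_pos h] at e1 ⊢; linarith
        · rw [if_pos h] at e2 ⊢; linarith
        · rw [if_pos h] at e3 ⊢; linarith
      · rw [if_neg hc]
        have e1 : (0:ℝ) ≤ (if ix m' = ix m - 1 then 1 / (m' : ℝ) else 0) := by split_ifs <;> [exact hn; exact le_refl _]
        have e2 : (0:ℝ) ≤ (if ix m' = ix m then 1 / (m' : ℝ) else 0) := by split_ifs <;> [exact hn; exact le_refl _]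
        have e3 : (0:ℝ) ≤ (if ix m' = ix m + 1 then 1 / (m' : ℝ) else 0) := by split_ifs <;> [exact hn; exact le_refl _]
        linarith
    rw [Finset.sum_add_distrib, Finset.sum_add_distrib, ← Finset.sum_filter, ← Finset.sum_filter,
      ← Finset.sum_filter] at h1
    have k1 := key (ix m - 1)
    have k2 := key (ix m)
    have k3 := key (ix m + 1)
    linarith
  have hharm : ∑ m ∈ A, 1 / (m : ℝ) ≤ 2 * L := by
    have h1 : ∑ m ∈ A, 1 / (m : ℝ) ≤ ∑ m ∈ Icc 1 Y, 1 / (m : ℝ) := by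
      apply Finset.sum_le_sum_of_subset_of_nonneg (Finset.filter_subset _ _)
      intro i _ _
      positivity
    have h2 : ∑ m ∈ Icc 1 Y, 1 / (m : ℝ) = ((harmonic Y : ℚ) : ℝ) := by
      rw [harmonic_eq_sum_Icc]
      push_cast
      simp only [one_div]
    have h3 := harmonic_le_one_add_log Y
    rw [← h2] at h3
    linarith
  have hfin : (Ω.card : ℝ) ≤ ∑ m ∈ A, ∑ m' ∈ Am m, C1 * Y / (m * m' * L ^ 2) := by
    have h1 : Ω.card ≤ ∑ m ∈ A, ∑ m' ∈ Am m, (S m m').card := by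
      refine (Finset.card_le_card hcov).trans (Finset.card_biUnion_le.trans ?_)
      apply Finset.sum_le_sum
      intro m _
      refine Finset.card_biUnion_le.trans ?_
      apply Finset.sum_le_sum
      intro m' _
      exact Finset.card_image_le
    have h2 : (Ω.card : ℝ) ≤ ∑ m ∈ A, ∑ m' ∈ Am m, ((S m m').card : ℝ) := by exact_mod_cast h1
    refine h2.trans ?_
    apply Finset.sum_le_sum
    intro m hm
    apply Finset.sum_le_sum
    intro m' hm'
    exact hSc m hm m' (Finset.mem_filter.1 hm').1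
  have hA1 : ∀ m ∈ A, (0 : ℝ) < m := by
    intro m hm
    rw [hA, Finset.mem_filter, Finset.mem_Icc] at hm
    exact_mod_cast hm.1.1
  have hstep : ∀ m ∈ A, ∑ m' ∈ Am m, C1 * Y / (m * m' * L ^ 2) ≤ (3 * C1 * κ * Y / L) * (1 / (m : ℝ)) := by
    intro m hm
    have hm0 := hA1 m hm
    have e1 : ∑ m' ∈ Am m, C1 * Y / (m * m' * L ^ 2) = (C1 * Y / (m * L ^ 2)) * ∑ m' ∈ Am m, 1 / (m' : ℝ) := by
      rw [Finset.mul_sum]
      apply Finset.sum_congr rfl
      intro m' hm'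
      have hm'0 := hA1 m' (Finset.mem_filter.1 hm').1
      field_simp
    rw [e1]
    calc (C1 * Y / (m * L ^ 2)) * ∑ m' ∈ Am m, 1 / (m' : ℝ) ≤ (C1 * Y / (m * L ^ 2)) * (3 * κ * L) := by
          apply mul_le_mul_of_nonneg_left (hinner m hm)
          positivity
      _ = (3 * C1 * κ * Y / L) * (1 / (m : ℝ)) := by
          field_simp
  calc (Ω.card : ℝ) ≤ ∑ m ∈ A, (3 * C1 * κ * Y / L) * (1 / (m : ℝ)) := hfin.trans (Finset.sum_le_sum hstep)
    _ = (3 * C1 * κ * Y / L) * ∑ m ∈ A, 1 / (m : ℝ) := by rw [Finset.mul_sum]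
    _ ≤ (3 * C1 * κ * Y / L) * (2 * L) := by
        apply mul_le_mul_of_nonneg_left hharm
        positivity
    _ = 6 * C1 * κ * Y := by
        field_simp
        ring

end Pool.Agent.Descents.CU
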