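import Mathlib
import Pool.Agent.Helper564.Desc.Defs
import Pool.Agent.Helper564.Desc.CL
import Pool.Agent.Helper564.Desc.CU

set_option autoImplicit false

open Finset Filter Topology

namespace Pool.Agent.Descents.Core

open Pool.Agent.Descents
open Pool.Agent.Descents.CL
open Pool.Agent.Descents.CU












/-- TARGET -/
theorem core : ∃ ε : ℝ, 0 < ε ∧ ε ≤ 1 ∧ ∃ Y0 : ℕ, ∀ Y : ℕ, Y0 ≤ Y → ∀ f : ℕ → ℝ, Addi f →
    ∀ G : Finset ℕ, G ⊆ PR Y 0.505 1 → ∑ p ∈ PR Y 0.505 1 \ G, 1 / (p : ℝ) ≤ ε →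
    ∀ Φ : ℝ → ℝ, Monotone Φ → (∀ x, 0 ≤ Φ x) → (∀ x, Φ x ≤ 1) →
    (∀ p ∈ G, ∀ q ∈ G, p ≤ 256 * q → q ≤ 256 * p → ∀ t, |Φ (t + f p - f q) - Φ t| ≤ 3 * ε) →
    (∀ (a b : ℝ) (S : Finset ℕ), a ≤ b → (∀ n ∈ S, n ∈ Icc 1 Y ∧ a ≤ Φ (f n) ∧ Φ (f n) ≤ b) →
      (S.card : ℝ) ≤ (b - a + 5 * ε) * Y) →
    ∑ n ∈ Icc 1 Y, |Φ (f (n + 1)) - Φ (f n)| ≤ ε ^ 2 * Y → False := by
  obtain ⟨C2, hC2, hlow⟩ := omega_lower
  obtain ⟨C3, hC3, Yu, hup⟩ := omega_upper
  obtain ⟨N, hN⟩ := exists_nat_gt (max 1000 (max (1000 * C2) (1000 * C3)))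
  have hN1 : (1000 : ℝ) < N := lt_of_le_of_lt (le_max_left _ _) hN
  have hN2 : 1000 * C2 < N :=
    lt_of_le_of_lt (le_trans (le_max_left _ _) (le_max_right _ _)) hN
  have hN3 : 1000 * C3 < N :=
    lt_of_le_of_lt (le_trans (le_max_right _ _) (le_max_right _ _)) hN
  have hN0 : (0 : ℝ) < N := by linarith
  set ε : ℝ := 1 / (7 * N) with hε
  have hε0 : 0 < ε := by positivity
  have hεN : 7 * ε * N = 1 := by rw [hε]; field_simp
  have hε1 : ε ≤ 0.001 := by
    by_contra hcon
    push Not at hcon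
    nlinarith
  have hεC2 : C2 * ε ≤ 0.001 := by
    by_contra hcon
    push Not at hcon
    have : C2 * ε * 1000 < N * ε := by nlinarith
    nlinarith
  have hεC3 : C3 * (144 * ε) ≤ 0.05 := by
    by_contra hcon
    push Not at hcon
    have : C3 * ε * 1000 < N * ε := by nlinarith
    nlinarith
  obtain ⟨Yl, hl⟩ := hlow ε hε0
  refine ⟨ε, hε0, by linarith, max (max Yl Yu) 1000, ?_⟩
  intro Y hY f hf G hG hGs Φ hΦm hΦ0 hΦ1 hlaw hdist hsum
  have hYl : Yl ≤ Y := le_trans (le_trans (le_max_left _ _) (le_max_left _ _)) hY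
  have hYu : Yu ≤ Y := le_trans (le_trans (le_max_right _ _) (le_max_left _ _)) hY
  have hY3 : 1000 ≤ Y := le_trans (le_max_right _ _) hY
  have hYR : (1000 : ℝ) ≤ Y := by exact_mod_cast hY3
  have hlogY : 0 < Real.log Y := Real.log_pos (by linarith)
  obtain ⟨T, hTs, hTc, hT⟩ := hl Y hYl G hG hGs
  classical
  -- primes in G are large
  have hGp : ∀ p ∈ G, p.Prime ∧ 0.505 * Real.log Y < Real.log p ∧ 1 ≤ p := by
    intro p hp
    have := hG hp
    simp only [PR, Finset.mem_filter, Finset.mem_Icc] at this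
    exact ⟨this.2.1, this.2.2.1, this.1.1⟩
  have hbig : ∀ p ∈ G, ∀ m, Adm G Y m → m < p := by
    intro p hp m hm
    have h1 := (hGp p hp).2.1
    have h2 := hm.2.1
    have h3 : Real.log m < Real.log p := by nlinarith
    have hm0 : (0 : ℝ) < m := by exact_mod_cast hm.1
    have hp0 : (0 : ℝ) < p := by exact_mod_cast (hGp p hp).2.2
    exact_mod_cast (Real.log_lt_log_iff hm0 hp0).1 h3
  have hndvd : ∀ p ∈ G, ∀ m, Adm G Y m → ¬ p ∣ m := by
    intro p hp m hm hd
    have := Nat.le_of_dvd hm.1 hd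
    have := hbig p hp m hm
    omega
  have hne : ∀ m, Adm G Y m → (Pim G Y m).Nonempty := by
    intro m hm
    rw [Finset.nonempty_iff_ne_empty]
    intro he
    have := hm.2.2
    rw [he] at this
    simp at this
    omega
  let ps : ℕ → ℕ := fun m => if h : (Pim G Y m).Nonempty then h.choose else 0
  have hps : ∀ m, Adm G Y m → ps m ∈ Pim G Y m := by
    intro m hm
    have h := hne m hm
    simp only [ps, dif_pos h]
    exact h.choose_spec
  let color : ℕ → ℝ := fun m => Φ (f m + f (ps m))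
  let ix : ℕ → ℕ := fun m => ⌊(N : ℝ) * color m⌋₊
  have hcol0 : ∀ m, 0 ≤ (N : ℝ) * color m := fun m => mul_nonneg hN0.le (hΦ0 _)
  -- (1)
  have hcol : ∀ m, Adm G Y m → ∀ p ∈ Pim G Y m, |Φ (f (p * m)) - color m| ≤ 3 * ε := by
    intro m hm p hp
    have hp' := hp
    have hq' := hps m hm
    simp only [Pim, Finset.mem_filter] at hp' hq'
    have hcop : Nat.Coprime p m :=
      ((hGp p hp'.1).1.coprime_iff_not_dvd).2 (hndvd p hp'.1 m hm)
    have hfm : f (p * m) = f p + f m := hf p m (hGp p hp'.1).2.2 hm.1 hcop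
    have hm1 : 0 < m := hm.1
    have h1 : p ≤ 256 * ps m := by
      have : p * m < 256 * ps m * m := by
        calc p * m ≤ Y := hp'.2.2
          _ < 256 * (ps m * m) := hq'.2.1
          _ = 256 * ps m * m := by ring
      exact (lt_of_mul_lt_mul_right this (Nat.zero_le _)).le
    have h2 : ps m ≤ 256 * p := by
      have : ps m * m < 256 * p * m := by
        calc ps m * m ≤ Y := hq'.2.2
          _ < 256 * (p * m) := hp'.2.1
          _ = 256 * p * m := by ring
      exact (lt_of_mul_lt_mul_right this (Nat.zero_le _)).le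
    have := hlaw p hp'.1 (ps m) hq'.1 h1 h2 (f m + f (ps m))
    rw [hfm]
    have he : f m + f (ps m) + f p - f (ps m) = f p + f m := by ring
    rw [he] at this
    exact this
  -- (2)
  have hidx : ∀ (j : ℕ) (S : Finset ℕ), (∀ m ∈ S, Adm G Y m ∧ ix m = j) →
      ∑ m ∈ S, 1 / (m : ℝ) ≤ (144 * ε) * Real.log Y := by
    intro j S hS
    -- the set of products
    let P : Finset (Σ _ : ℕ, ℕ) := S.sigma (fun m => Pim G Y m)
    have hinj : Set.InjOn (fun x : Σ _ : ℕ, ℕ => x.2 * x.1) (P : Set (Σ _ : ℕ, ℕ)) := by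
      rintro ⟨m, p⟩ h1 ⟨m', p'⟩ h2 h
      simp only [P, Finset.coe_sigma, Set.mem_sigma_iff, Finset.mem_coe] at h1 h2 h
      have hpG : p ∈ G := (Finset.mem_filter.1 h1.2).1
      have hpG' : p' ∈ G := (Finset.mem_filter.1 h2.2).1
      have hpd : p ∣ p' * m' := h ▸ Dvd.intro _ rfl
      have hpp : p = p' := by
        rcases ((hGp p hpG).1.dvd_mul).1 hpd with h3 | h3
        · exact (Nat.prime_dvd_prime_iff_eq (hGp p hpG).1 (hGp p' hpG').1).1 h3
        · exact absurd h3 (hndvd p hpG m' (hS m' h2.1).1)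
      subst hpp
      have : m = m' := Nat.eq_of_mul_eq_mul_left (hGp p hpG).2.2 h
      subst this
      rfl
    have hcard : (P.image (fun x : Σ _ : ℕ, ℕ => x.2 * x.1)).card = ∑ m ∈ S, (Pim G Y m).card := by
      rw [Finset.card_image_of_injOn hinj, Finset.card_sigma]
    have hb := hdist ((j : ℝ) / N - 3 * ε) (((j : ℝ) + 1) / N + 3 * ε)
      (P.image (fun x : Σ _ : ℕ, ℕ => x.2 * x.1)) (by
        have : (j : ℝ) / N ≤ ((j : ℝ) + 1) / N := by
          apply div_le_div_of_nonneg_right _ hN0.le; linarith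
        linarith) (by
        intro n hn
        simp only [Finset.mem_image, P, Finset.mem_sigma] at hn
        obtain ⟨⟨m, p⟩, ⟨hm, hp⟩, rfl⟩ := hn
        simp only at hm hp ⊢
        have hA := (hS m hm).1
        have hj := (hS m hm).2
        have hpm := Finset.mem_filter.1 hp
        have hc := abs_le.1 (hcol m hA p hp)
        have hfl1 : (j : ℝ) ≤ N * color m := by
          have := Nat.floor_le (hcol0 m)
          rw [← hj]; exact this
        have hfl2 : N * color m < (j : ℝ) + 1 := by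
          have := Nat.lt_floor_add_one ((N : ℝ) * color m)
          rw [← hj]; exact this
        have h1 : (j : ℝ) / N ≤ color m := by
          rw [div_le_iff₀ hN0]; linarith
        have h2 : color m ≤ ((j : ℝ) + 1) / N := by
          rw [le_div_iff₀ hN0]; linarith
        refine ⟨Finset.mem_Icc.2 ⟨Nat.mul_pos (hGp p hpm.1).2.2 hA.1, hpm.2.2⟩, ?_, ?_⟩
        · linarith [hc.1]
        · linarith [hc.2])
    rw [hcard] at hb
    have hNinv : ((j : ℝ) + 1) / N - (j : ℝ) / N = 7 * ε := by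
      rw [hε]; field_simp; ring
    have hb2 : ((∑ m ∈ S, (Pim G Y m).card : ℕ) : ℝ) ≤ 18 * ε * Y := by
      refine hb.trans (le_of_eq ?_)
      have : ((j : ℝ) + 1) / N + 3 * ε - ((j : ℝ) / N - 3 * ε) + 5 * ε = 18 * ε := by linarith
      rw [this]
    have hY0 : (0 : ℝ) < Y := by linarith
    calc ∑ m ∈ S, 1 / (m : ℝ) ≤ ∑ m ∈ S, 8 * Real.log Y / Y * ((Pim G Y m).card : ℝ) := by
          apply Finset.sum_le_sum
          intro m hm
          have hA := (hS m hm).1
          have hm0 : (0 : ℝ) < m := by exact_mod_cast hA.1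
          have h3 := hA.2.2
          rw [div_le_iff₀ hm0]
          rw [show 8 * Real.log Y / Y * ((Pim G Y m).card : ℝ) * m
            = (8 * m * Real.log Y * ((Pim G Y m).card : ℝ)) / Y by ring]
          rw [le_div_iff₀ hY0]
          linarith
      _ = 8 * Real.log Y / Y * ((∑ m ∈ S, (Pim G Y m).card : ℕ) : ℝ) := by
          rw [← Finset.mul_sum]; push_cast; rfl
      _ ≤ 8 * Real.log Y / Y * (18 * ε * Y) := by
          apply mul_le_mul_of_nonneg_left hb2; positivity
      _ = (144 * ε) * Real.log Y := by field_simp; ring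
  -- (3)
  let Ω : Finset ℕ := T.filter (fun n => n + 1 ∈ T ∧ |Φ (f (n + 1)) - Φ (f n)| ≤ ε)
  have hΩu : (Ω.card : ℝ) ≤ C3 * (144 * ε) * Y := by
    refine hup Y hYu G hG ix (144 * ε) (by positivity) hidx Ω ?_ ?_
    · exact (Finset.filter_subset _ _).trans hTs
    · intro n hn
      simp only [Ω, Finset.mem_filter] at hn
      obtain ⟨hn1, hn2, hn3⟩ := hn
      obtain ⟨p, m, hpm, hp, hA, hB⟩ := hT n hn1
      obtain ⟨p', m', hpm', hp', hA', hB'⟩ := hT (n + 1) hn2
      refine ⟨p, m, p', m', hpm, hp, hA, hB, hpm', hp', hA', hB', ?_⟩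
      have h1 := abs_le.1 (hcol m hA p hp)
      have h2 := abs_le.1 (hcol m' hA' p' hp')
      rw [hpm] at h1
      rw [hpm'] at h2
      have h3 := abs_le.1 hn3
      have h4 : color m' ≤ color m + 7 * ε := by linarith [h1.1, h1.2, h2.1, h2.2, h3.1, h3.2]
      have h5 : color m ≤ color m' + 7 * ε := by linarith [h1.1, h1.2, h2.1, h2.2, h3.1, h3.2]
      have h6 : (N : ℝ) * color m' ≤ N * color m + 1 := by nlinarith
      have h7 : (N : ℝ) * color m ≤ N * color m' + 1 := by nlinarith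
      constructor
      · calc ix m' ≤ ⌊(N : ℝ) * color m + 1⌋₊ := Nat.floor_mono h6
          _ = ix m + 1 := Nat.floor_add_one (hcol0 m)
      · calc ix m ≤ ⌊(N : ℝ) * color m' + 1⌋₊ := Nat.floor_mono h7
          _ = ix m' + 1 := Nat.floor_add_one (hcol0 m')
  -- lower bound for Ω
  let B : Finset ℕ := (Icc 1 Y).filter (fun n => ε < |Φ (f (n + 1)) - Φ (f n)|)
  have hB : (B.card : ℝ) ≤ ε * Y := by
    have h1 : (B.card : ℝ) * ε ≤ ∑ n ∈ Icc 1 Y, |Φ (f (n + 1)) - Φ (f n)| := by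
      calc (B.card : ℝ) * ε = ∑ _n ∈ B, ε := by rw [Finset.sum_const, nsmul_eq_mul]
        _ ≤ ∑ n ∈ B, |Φ (f (n + 1)) - Φ (f n)| := by
            apply Finset.sum_le_sum
            intro n hn
            exact (Finset.mem_filter.1 hn).2.le
        _ ≤ ∑ n ∈ Icc 1 Y, |Φ (f (n + 1)) - Φ (f n)| := by
            apply Finset.sum_le_sum_of_subset_of_nonneg (Finset.filter_subset _ _)
            intro i _ _; exact abs_nonneg _
    have h2 : (B.card : ℝ) * ε ≤ (ε * Y) * ε := by
      calc (B.card : ℝ) * ε ≤ ε ^ 2 * Y := h1.trans hsum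
        _ = (ε * Y) * ε := by ring
    exact le_of_mul_le_mul_right h2 hε0
  let T' : Finset ℕ := T.filter (fun n => n + 1 ∈ T)
  have hT' : 2 * T.card ≤ T'.card + (Y + 1) := by
    -- T and its shift inside range (Y+1)
    let U : Finset ℕ := T.image (fun n => n - 1)
    have hUc : U.card = T.card := by
      apply Finset.card_image_of_injOn
      intro a ha b hb hab
      have h1 := Finset.mem_Icc.1 (hTs ha)
      have h2 := Finset.mem_Icc.1 (hTs hb)
      simp only at hab
      omega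
    have hint : T ∩ U ⊆ T' := by
      intro n hn
      rw [Finset.mem_inter] at hn
      obtain ⟨hn1, hn2⟩ := hn
      obtain ⟨k, hk, hkn⟩ := Finset.mem_image.1 hn2
      have h1 := Finset.mem_Icc.1 (hTs hk)
      have : k = n + 1 := by omega
      subst this
      exact Finset.mem_filter.2 ⟨hn1, hk⟩
    have hun : T ∪ U ⊆ Finset.range (Y + 1) := by
      intro n hn
      rw [Finset.mem_union] at hn
      rcases hn with h | h
      · have := Finset.mem_Icc.1 (hTs h)
        exact Finset.mem_range.2 (by omega)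
      · obtain ⟨k, hk, hkn⟩ := Finset.mem_image.1 h
        have h1 := Finset.mem_Icc.1 (hTs hk)
        exact Finset.mem_range.2 (by omega)
    have h1 := Finset.card_union_add_card_inter T U
    have h2 := Finset.card_le_card hint
    have h3 := Finset.card_le_card hun
    rw [Finset.card_range] at h3
    omega
  have hsub : T' ⊆ Ω ∪ B := by
    intro n hn
    obtain ⟨h1, h2⟩ := Finset.mem_filter.1 hn
    rw [Finset.mem_union]
    by_cases h : |Φ (f (n + 1)) - Φ (f n)| ≤ ε
    · left; exact Finset.mem_filter.2 ⟨h1, h2, h⟩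
    · right; exact Finset.mem_filter.2 ⟨hTs h1, not_le.1 h⟩
  have hc1 : T'.card ≤ Ω.card + B.card := (Finset.card_le_card hsub).trans (Finset.card_union_le _ _)
  have hT'R : 2 * (T.card : ℝ) ≤ (T'.card : ℝ) + ((Y : ℝ) + 1) := by exact_mod_cast hT'
  have hc1R : (T'.card : ℝ) ≤ (Ω.card : ℝ) + B.card := by exact_mod_cast hc1
  have hY0 : (0 : ℝ) < Y := by linarith
  have hTc2 : 0.553 * (Y : ℝ) ≤ T.card := by
    refine le_trans ?_ hTc
    apply mul_le_mul_of_nonneg_right _ hY0.le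
    linarith
  have hB2 : (B.card : ℝ) ≤ 0.001 * Y := hB.trans (mul_le_mul_of_nonneg_right hε1 hY0.le)
  have hΩ2 : (Ω.card : ℝ) ≤ 0.05 * Y := hΩu.trans (mul_le_mul_of_nonneg_right hεC3 hY0.le)
  linarith


end Pool.Agent.Descents.Core
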