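import Mathlib
import Pool.Agent.Helper564.Desc.Defs
import Pool.Agent.Helper564.Desc.B3c

set_option autoImplicit false

open Finset Filter Topology

namespace Pool.Agent.Descents.Law

open Pool.Agent.Descents
open Pool.Agent.Descents.B3c






/-- descent at `n` or just before `n` -/
def Dn (f : ℕ → ℝ) (n : ℕ) : Prop := f (n + 1) < f n ∨ f n < f (n - 1)

open Classical in
/-- number of multiples of `p` up to `X` next to a descent -/
noncomputable def dc (f : ℕ → ℝ) (X p : ℕ) : ℕ := ((Icc 1 X).filter (fun n => p ∣ n ∧ Dn f n)).card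

theorem cnt_mono (f : ℕ → ℝ) (X : ℕ) {t t' : ℝ} (h : t ≤ t') : cnt f X t ≤ cnt f X t' := by
  unfold cnt
  apply card_le_card
  intro n hn
  rw [mem_filter] at hn ⊢
  exact ⟨hn.1, hn.2.trans h⟩

theorem cntc_mono (f : ℕ → ℝ) (X : ℕ) {t t' : ℝ} (h : t ≤ t') (p : ℕ) (c : ℤ) :
    cntc f X t p c ≤ cntc f X t' p c := by
  unfold cntc
  apply card_le_card
  intro n hn
  rw [mem_filter] at hn ⊢
  exact ⟨hn.1, hn.2.1, hn.2.2.trans h⟩

theorem F_mono (f : ℕ → ℝ) (X : ℕ) {t t' : ℝ} (h : t ≤ t') : F f X t ≤ F f X t' := by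
  unfold F
  have := cnt_mono f X h
  have h2 : (cnt f X t : ℝ) ≤ cnt f X t' := by exact_mod_cast this
  exact div_le_div_of_nonneg_right h2 (Nat.cast_nonneg X)

theorem cnt_le (f : ℕ → ℝ) (X : ℕ) (t : ℝ) : cnt f X t ≤ X := by
  unfold cnt
  refine (card_filter_le _ _).trans ?_
  simp

theorem F_nonneg (f : ℕ → ℝ) (X : ℕ) (t : ℝ) : 0 ≤ F f X t := by
  unfold F; positivity

theorem F_le_one (f : ℕ → ℝ) (X : ℕ) (t : ℝ) : F f X t ≤ 1 := by
  unfold F
  have h : (cnt f X t : ℝ) ≤ X := by exact_mod_cast cnt_le f X t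
  exact div_le_one_of_le₀ h (Nat.cast_nonneg X)

theorem net (f : ℕ → ℝ) (X : ℕ) (hX : 1 ≤ X) (δ : ℝ)
    (hδ : ∀ t : ℝ, F f X (t + 1) - F f X t ≤ δ) (y : ℝ) (hy : 0 < y) (hy1 : y ≤ 1) :
    ∃ t : ℝ, y ≤ F f X t ∧ F f X t ≤ y + δ := by
  obtain ⟨M, hM⟩ : ∃ M : ℤ, ∀ n ∈ Icc 1 X, |f n| < M := by
    obtain ⟨B, hB⟩ := ((Icc 1 X).image (fun n => |f n|)).bddAbove
    obtain ⟨M, hM⟩ := exists_int_gt B
    refine ⟨M, fun n hn => lt_of_le_of_lt (hB ?_) hM⟩
    exact mem_coe.mpr (mem_image_of_mem _ hn)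
  have hX0 : (0 : ℝ) < X := by exact_mod_cast hX
  have h1 : F f X (M : ℝ) = 1 := by
    unfold F cnt
    rw [filter_true_of_mem (fun n hn => (le_abs_self _).trans (hM n hn).le)]
    simp [hX0.ne']
  have h0 : ∀ k : ℤ, k ≤ -M → F f X (k : ℝ) = 0 := by
    intro k hk
    unfold F cnt
    rw [filter_false_of_mem]
    · simp
    · intro n hn hle
      have h2 := hM n hn
      have h3 : (k : ℝ) ≤ -M := by exact_mod_cast hk
      have h4 := neg_abs_le (f n)
      linarith
  obtain ⟨k, hk, hmin⟩ := Int.exists_least_of_bdd (P := fun k : ℤ => y ≤ F f X (k : ℝ))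
    ⟨-M, fun z hz => by
      by_contra hlt
      push Not at hlt
      have hz' : y ≤ F f X (z : ℝ) := hz
      rw [h0 z hlt.le] at hz'
      linarith⟩ ⟨M, by show y ≤ F f X (M : ℝ); rw [h1]; exact hy1⟩
  refine ⟨k, hk, ?_⟩
  have h5 : ¬ y ≤ F f X ((k - 1 : ℤ) : ℝ) := by
    intro h6
    have := hmin (k - 1) h6
    omega
  push Not at h5
  have h7 := hδ ((k - 1 : ℤ) : ℝ)
  have h8 : ((k - 1 : ℤ) : ℝ) + 1 = k := by push_cast; ring
  rw [h8] at h7
  linarith

theorem six (X : ℕ) (hX : 2 ≤ X) (n : ℕ) (hn : n ∈ Icc 1 X) :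
    ((PR X 0.15 0.45).filter (fun p => p ∣ n)).card ≤ 6 := by
  set S := (PR X 0.15 0.45).filter (fun p => p ∣ n) with hS
  rw [mem_Icc] at hn
  have hlog : 0 < Real.log X := Real.log_pos (by exact_mod_cast hX)
  have hmem : ∀ p ∈ S, p.Prime ∧ 0.15 * Real.log X < Real.log p ∧ p ∣ n := by
    intro p hp
    rw [hS, mem_filter, PR, mem_filter] at hp
    exact ⟨hp.1.2.1, hp.1.2.2.1, hp.2⟩
  have hdvd : ∏ p ∈ S, p ∣ n :=
    Finset.prod_primes_dvd n (fun a ha => (hmem a ha).1.prime) (fun a ha => (hmem a ha).2.2)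
  have hle : ∏ p ∈ S, p ≤ X := (Nat.le_of_dvd (by omega) hdvd).trans hn.2
  have hpos : ∀ p ∈ S, (0 : ℝ) < (p : ℝ) := fun p hp => by
    exact_mod_cast (hmem p hp).1.pos
  have hlogprod : ∑ p ∈ S, Real.log p ≤ Real.log X := by
    rw [← Real.log_prod (fun p hp => (hpos p hp).ne')]
    apply Real.log_le_log
    · exact prod_pos hpos
    · rw [← Nat.cast_prod]
      exact_mod_cast hle
  have hsum : (S.card : ℝ) * (0.15 * Real.log X) ≤ ∑ p ∈ S, Real.log p := by
    rw [← nsmul_eq_mul, ← sum_const]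
    exact sum_le_sum (fun p hp => (hmem p hp).2.1.le)
  by_contra hcon
  push Not at hcon
  have h7 : (7 : ℝ) ≤ S.card := by exact_mod_cast hcon
  have : (7 : ℝ) * (0.15 * Real.log X) ≤ (S.card : ℝ) * (0.15 * Real.log X) :=
    mul_le_mul_of_nonneg_right h7 (by positivity)
  nlinarith

open Classical in
theorem sum_dc (f : ℕ → ℝ) (X : ℕ) (hX : 2 ≤ X) :
    ∑ p ∈ PR X 0.15 0.45, dc f X p ≤ 6 * (2 * ex f X + 1) := by
  have h1 : ∑ p ∈ PR X 0.15 0.45, dc f X p =
      ∑ n ∈ (Icc 1 X).filter (fun n => Dn f n),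
        ((PR X 0.15 0.45).filter (fun p => p ∣ n)).card := by
    unfold dc
    simp_rw [card_filter]
    rw [sum_comm]
    rw [sum_filter]
    apply sum_congr rfl
    intro n _
    by_cases hD : Dn f n
    · simp [hD]
    · simp [hD]
  have h2 : ((Icc 1 X).filter (fun n => Dn f n)).card ≤ 2 * ex f X + 1 := by
    have h3 : (Icc 1 X).filter (fun n => Dn f n) ⊆
        (Icc 1 X).filter (fun n => f (n + 1) < f n) ∪
          (Icc 1 X).filter (fun n => f n < f (n - 1)) := by
      intro n hn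
      rw [mem_filter] at hn
      rw [mem_union, mem_filter, mem_filter]
      rcases hn.2 with h | h
      · exact Or.inl ⟨hn.1, h⟩
      · exact Or.inr ⟨hn.1, h⟩
    have h4 : ((Icc 1 X).filter (fun n => f n < f (n - 1))).card ≤ ex f X + 1 := by
      unfold ex
      have h5 : ((Icc 1 X).filter (fun n => f n < f (n - 1))).card ≤
          (insert 0 ((Icc 1 X).filter (fun n => f (n + 1) < f n))).card := by
        apply card_le_card_of_injOn (fun n => n - 1)
        · intro n hn
          rw [mem_coe, mem_filter, mem_Icc] at hn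
          rw [mem_coe, mem_insert, mem_filter, mem_Icc]
          by_cases h0 : n - 1 = 0
          · exact Or.inl h0
          · right
            refine ⟨⟨by show 1 ≤ n - 1; omega, by show n - 1 ≤ X; omega⟩, ?_⟩
            have : n - 1 + 1 = n := by omega
            show f (n - 1 + 1) < f (n - 1)
            rw [this]
            exact hn.2
        · intro a ha b hb hab
          rw [mem_coe, mem_filter, mem_Icc] at ha hb
          have : a - 1 = b - 1 := hab
          omega
      exact h5.trans (card_insert_le _ _)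
    calc ((Icc 1 X).filter (fun n => Dn f n)).card ≤ _ := card_le_card h3
      _ ≤ ex f X + (ex f X + 1) := (card_union_le _ _).trans (Nat.add_le_add_left h4 _)
      _ = 2 * ex f X + 1 := by ring
  rw [h1]
  calc ∑ n ∈ (Icc 1 X).filter (fun n => Dn f n),
        ((PR X 0.15 0.45).filter (fun p => p ∣ n)).card
      ≤ ∑ n ∈ (Icc 1 X).filter (fun n => Dn f n), 6 :=
        sum_le_sum (fun n hn => six X hX n (mem_filter.mp hn).1)
    _ = ((Icc 1 X).filter (fun n => Dn f n)).card * 6 := by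
        rw [sum_const, smul_eq_mul]
    _ ≤ (2 * ex f X + 1) * 6 := Nat.mul_le_mul_right 6 h2
    _ = 6 * (2 * ex f X + 1) := mul_comm _ _

theorem card_mult (Y p : ℕ) : ((Icc 1 Y).filter (fun m => p ∣ m)).card = Y / p := by
  have : Icc 1 Y = Ioc 0 Y := by
    ext; simp; omega
  rw [this]
  exact Nat.Ioc_filter_dvd_card_eq_div Y p

theorem addi_mul (f : ℕ → ℝ) (hf : Addi f) (p m : ℕ) (hp : p.Prime) (hm : 1 ≤ m)
    (h : ¬ p ∣ m) : f (p * m) = f p + f m :=
  hf p m hp.one_le hm ((Nat.Prime.coprime_iff_not_dvd hp).mpr h)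

theorem mul_le_X {X p m : ℕ} (hm : m ∈ Icc 1 (X / p)) : p * m ≤ X := by
  rw [mem_Icc] at hm
  calc p * m ≤ p * (X / p) := Nat.mul_le_mul_left p hm.2
    _ ≤ X := Nat.mul_div_le X p

open Classical in
theorem core_upper (f : ℕ → ℝ) (hf : Addi f) (X p : ℕ) (hp : p.Prime) (t : ℝ) :
    cnt f (X / p) (t - f p) ≤ cntc f X t p (-1) + dc f X p + X / p / p := by
  have hsub : (Icc 1 (X / p)).filter (fun m => f m ≤ t - f p) ⊆
      ((Icc 1 (X / p)).filter (fun m => f (p * m - 1) ≤ t) ∪
        (Icc 1 (X / p)).filter (fun m => f (p * m) < f (p * m - 1))) ∪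
        (Icc 1 (X / p)).filter (fun m => p ∣ m) := by
    intro m hm
    rw [mem_filter] at hm
    rw [mem_union, mem_union, mem_filter, mem_filter, mem_filter]
    by_cases hd : p ∣ m
    · exact Or.inr ⟨hm.1, hd⟩
    · left
      have h1 := addi_mul f hf p m hp (mem_Icc.mp hm.1).1 hd
      by_cases h2 : f (p * m) < f (p * m - 1)
      · exact Or.inr ⟨hm.1, h2⟩
      · left
        refine ⟨hm.1, ?_⟩
        push Not at h2
        linarith [hm.2]
  have hA : ((Icc 1 (X / p)).filter (fun m => f (p * m - 1) ≤ t)).card ≤ cntc f X t p (-1) := by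
    unfold cntc
    apply card_le_card_of_injOn (fun m => p * m - 1)
    · intro m hm
      rw [mem_coe, mem_filter] at hm
      have h1 := mul_le_X hm.1
      have h2 := (mem_Icc.mp hm.1).1
      have h3 : 2 ≤ p * m := le_trans hp.two_le (Nat.le_mul_of_pos_right p h2)
      rw [mem_coe, mem_filter, mem_Icc]
      refine ⟨⟨by show 1 ≤ p * m - 1; omega, by show p * m - 1 ≤ X; omega⟩, ?_, hm.2⟩
      refine ⟨m, ?_⟩
      have : ((p * m - 1 : ℕ) : ℤ) = (p : ℤ) * m - 1 := by
        rw [Nat.cast_sub (by omega)]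
        push_cast
        ring
      show ((p * m - 1 : ℕ) : ℤ) - (-1) = (p : ℤ) * m
      rw [this]
      ring
    · intro a ha b hb hab
      rw [mem_coe, mem_filter, mem_Icc] at ha hb
      have h3 : 1 ≤ p * a := Nat.mul_pos hp.pos ha.1.1
      have h4 : 1 ≤ p * b := Nat.mul_pos hp.pos hb.1.1
      have h5 : p * a - 1 = p * b - 1 := hab
      have h6 : p * a = p * b := by omega
      exact Nat.eq_of_mul_eq_mul_left hp.pos h6
  have hB : ((Icc 1 (X / p)).filter (fun m => f (p * m) < f (p * m - 1))).card ≤ dc f X p := by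
    unfold dc
    apply card_le_card_of_injOn (fun m => p * m)
    · intro m hm
      rw [mem_coe, mem_filter] at hm
      have h1 := mul_le_X hm.1
      have h2 := (mem_Icc.mp hm.1).1
      rw [mem_coe, mem_filter, mem_Icc]
      exact ⟨⟨Nat.mul_pos hp.pos h2, h1⟩, Dvd.intro m rfl, Or.inr hm.2⟩
    · intro a ha b hb hab
      exact Nat.eq_of_mul_eq_mul_left hp.pos hab
  calc cnt f (X / p) (t - f p) ≤ _ := card_le_card hsub
    _ ≤ _ := card_union_le _ _
    _ ≤ (cntc f X t p (-1) + dc f X p) + X / p / p := by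
        refine Nat.add_le_add ((card_union_le _ _).trans (Nat.add_le_add hA hB)) ?_
        rw [card_mult]

open Classical in
theorem core_lower (f : ℕ → ℝ) (hf : Addi f) (X p : ℕ) (hp : p.Prime) (t : ℝ) :
    cntc f X t p 1 ≤ cnt f (X / p) (t - f p) + dc f X p + X / p / p + 1 := by
  have h0 : cntc f X t p 1 ≤
      (insert 0 ((Icc 1 (X / p)).filter (fun m => f (p * m + 1) ≤ t))).card := by
    unfold cntc
    have key : ∀ n ∈ (Icc 1 X).filter (fun n : ℕ => (p : ℤ) ∣ (n : ℤ) - 1 ∧ f n ≤ t),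
        n = p * ((n - 1) / p) + 1 := by
      intro n hn
      rw [mem_filter, mem_Icc] at hn
      have h1 : p ∣ n - 1 := by
        have := hn.2.1
        have h2 : ((n - 1 : ℕ) : ℤ) = (n : ℤ) - 1 := by
          rw [Nat.cast_sub hn.1.1]; simp
        rw [← h2] at this
        exact_mod_cast this
      have h3 := Nat.mul_div_cancel' h1
      have := hn.1.1
      omega
    apply card_le_card_of_injOn (fun n => (n - 1) / p)
    · intro n hn
      rw [mem_coe] at hn
      have hk := key n hn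
      rw [mem_filter, mem_Icc] at hn
      rw [mem_coe, mem_insert, mem_filter, mem_Icc]
      by_cases hz : (n - 1) / p = 0
      · exact Or.inl hz
      · right
        refine ⟨⟨Nat.one_le_iff_ne_zero.mpr hz, Nat.div_le_div_right (by omega)⟩, ?_⟩
        show f (p * ((n - 1) / p) + 1) ≤ t
        rw [← hk]
        exact hn.2.2
    · intro a ha b hb hab
      rw [mem_coe] at ha hb
      have h1 := key a ha
      have h2 := key b hb
      have h3 : (a - 1) / p = (b - 1) / p := hab
      rw [h1, h2, h3]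
  have hsub : (Icc 1 (X / p)).filter (fun m => f (p * m + 1) ≤ t) ⊆
      ((Icc 1 (X / p)).filter (fun m => f m ≤ t - f p) ∪
        (Icc 1 (X / p)).filter (fun m => f (p * m + 1) < f (p * m))) ∪
        (Icc 1 (X / p)).filter (fun m => p ∣ m) := by
    intro m hm
    rw [mem_filter] at hm
    rw [mem_union, mem_union, mem_filter, mem_filter, mem_filter]
    by_cases hd : p ∣ m
    · exact Or.inr ⟨hm.1, hd⟩
    · left
      have h1 := addi_mul f hf p m hp (mem_Icc.mp hm.1).1 hd
      by_cases h2 : f (p * m + 1) < f (p * m)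
      · exact Or.inr ⟨hm.1, h2⟩
      · left
        refine ⟨hm.1, ?_⟩
        push Not at h2
        linarith [hm.2]
  have hB : ((Icc 1 (X / p)).filter (fun m => f (p * m + 1) < f (p * m))).card ≤ dc f X p := by
    unfold dc
    apply card_le_card_of_injOn (fun m => p * m)
    · intro m hm
      rw [mem_coe, mem_filter] at hm
      have h1 := mul_le_X hm.1
      have h2 := (mem_Icc.mp hm.1).1
      rw [mem_coe, mem_filter, mem_Icc]
      exact ⟨⟨Nat.mul_pos hp.pos h2, h1⟩, Dvd.intro m rfl, Or.inl hm.2⟩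
    · intro a ha b hb hab
      exact Nat.eq_of_mul_eq_mul_left hp.pos hab
  have h5 : ((Icc 1 (X / p)).filter (fun m => f (p * m + 1) ≤ t)).card ≤
      (cnt f (X / p) (t - f p) + dc f X p) + X / p / p := by
    calc ((Icc 1 (X / p)).filter (fun m => f (p * m + 1) ≤ t)).card ≤ _ := card_le_card hsub
      _ ≤ _ := card_union_le _ _
      _ ≤ (cnt f (X / p) (t - f p) + dc f X p) + X / p / p := by
          refine Nat.add_le_add ((card_union_le _ _).trans (Nat.add_le_add le_rfl hB)) ?_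
          rw [card_mult]
  calc cntc f X t p 1 ≤ _ := h0
    _ ≤ _ := card_insert_le _ _
    _ ≤ _ := Nat.add_le_add_right h5 1

theorem sum_union_le' (A B : Finset ℕ) (g : ℕ → ℝ) (hg : ∀ p, 0 ≤ g p) :
    ∑ p ∈ A ∪ B, g p ≤ ∑ p ∈ A, g p + ∑ p ∈ B, g p := by
  rw [← sum_union_inter]
  have : 0 ≤ ∑ p ∈ A ∩ B, g p := sum_nonneg (fun p _ => hg p)
  linarith

theorem sum_biUnion_le' (s : Finset ℕ) (T : ℕ → Finset ℕ) (g : ℕ → ℝ) (hg : ∀ p, 0 ≤ g p)
    (c : ℝ) (hc : ∀ j ∈ s, ∑ p ∈ T j, g p ≤ c) :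
    ∑ p ∈ s.biUnion T, g p ≤ s.card * c := by
  classical
  induction s using Finset.induction_on with
  | empty => simp
  | insert a s ha ih =>
    rw [biUnion_insert, card_insert_of_notMem ha]
    have h1 := sum_union_le' (T a) (s.biUnion T) g hg
    have h2 := ih (fun j hj => hc j (mem_insert_of_mem hj))
    have h3 := hc a (mem_insert_self a s)
    push_cast
    linarith

theorem law_aux (f : ℕ → ℝ) (hf : Addi f) (hd : DZ f)
    (hsp : ∀ s ε : ℝ, 0 < ε → ∃ X0 : ℕ, ∀ X : ℕ, X0 ≤ X → ∀ t : ℝ, F f X (t + s) - F f X t ≤ ε)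
    (ε : ℝ) (hε : 0 < ε) (hε1 : ε ≤ 1) :
    ∃ X0 : ℕ, ∀ X : ℕ, X0 ≤ X → ∃ Bad : Finset ℕ, ∑ p ∈ Bad, 1 / (p : ℝ) ≤ ε ∧
      ∀ p ∈ PR X 0.15 0.45, p ∉ Bad → ∀ t : ℝ, |F f (X / p) (t - f p) - F f X t| ≤ ε := by
  classical
  set J : ℕ := ⌊8 / ε⌋₊ with hJ
  set e1 : ℝ := ε ^ 2 / 200 with he1
  have he1pos : 0 < e1 := by positivity
  have he1le : e1 ≤ ε / 200 := by rw [he1]; nlinarith
  set η : ℝ := ε ^ 2 / 400 with hη
  have hηpos : 0 < η := by positivity
  obtain ⟨X1, hX1⟩ := LD f hf e1 he1pos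
  obtain ⟨X2, hX2⟩ := hsp 1 (ε / 8) (by positivity)
  have hd' : ∀ᶠ X : ℕ in atTop, (ex f X : ℝ) / X < η := by
    have := hd
    unfold DZ at this
    exact this.eventually (gt_mem_nhds hηpos)
  have hlogT : Tendsto (fun X : ℕ => Real.log (X : ℝ)) atTop atTop :=
    Real.tendsto_log_atTop.comp tendsto_natCast_atTop_atTop
  have hlog' : ∀ᶠ X : ℕ in atTop, Real.log (64 / ε) / 0.15 ≤ Real.log (X : ℝ) :=
    hlogT.eventually_ge_atTop _
  have hη' : ∀ᶠ X : ℕ in atTop, 1 / η ≤ (X : ℝ) :=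
    tendsto_natCast_atTop_atTop.eventually_ge_atTop _
  obtain ⟨X3, hX3⟩ := eventually_atTop.mp (hd'.and (hlog'.and hη'))
  refine ⟨max (max X1 X2) (max X3 2), fun X hX => ?_⟩
  have hXX1 : X1 ≤ X := le_trans (le_trans (le_max_left _ _) (le_max_left _ _)) hX
  have hXX2 : X2 ≤ X := le_trans (le_trans (le_max_right _ _) (le_max_left _ _)) hX
  have hXX3 : X3 ≤ X := le_trans (le_trans (le_max_left _ _) (le_max_right _ _)) hX
  have hXX4 : 2 ≤ X := le_trans (le_trans (le_max_right _ _) (le_max_right _ _)) hX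
  obtain ⟨hex, hlogX, hηX⟩ := hX3 X hXX3
  have hX0 : (0 : ℝ) < X := by
    have : 0 < X := by omega
    exact_mod_cast this
  have hlogpos : 0 < Real.log X := Real.log_pos (by exact_mod_cast hXX4)
  have hex' : (ex f X : ℝ) ≤ η * X := by
    rw [div_lt_iff₀ hX0] at hex
    exact hex.le
  have hηX' : 1 ≤ η * X := by
    rw [div_le_iff₀ hηpos] at hηX
    linarith
  have hlogX' : Real.log (64 / ε) ≤ 0.15 * Real.log X := by
    rw [div_le_iff₀ (by norm_num)] at hlogX
    linarith
  have hTex : ∀ j : ℕ, 1 ≤ j → j ≤ J → ∃ t : ℝ, (j : ℝ) * ε / 8 ≤ F f X t ∧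
      F f X t ≤ (j : ℝ) * ε / 8 + ε / 8 := by
    intro j hj1 hj2
    apply net f X (by omega) (ε / 8) (hX2 X hXX2)
    · have : (0 : ℝ) < j := by exact_mod_cast hj1
      positivity
    · have h1 : (j : ℝ) ≤ 8 / ε := by
        calc (j : ℝ) ≤ J := by exact_mod_cast hj2
          _ ≤ 8 / ε := Nat.floor_le (by positivity)
      rw [le_div_iff₀ hε] at h1
      linarith
  choose! T hT using hTex
  set LB : ℝ → ℤ → Finset ℕ := fun t c => (PR X 0.15 0.45).filter
        (fun p => e1 * X / p < |(cntc f X t p c : ℝ) - (cnt f X t : ℝ) / p|) with hLB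
  set EB : Finset ℕ := (PR X 0.15 0.45).filter (fun p => ε / 8 * X / p < (dc f X p : ℝ)) with hEB
  have hg : ∀ p : ℕ, 0 ≤ 1 / (p : ℝ) := fun p => by positivity
  have hprpos : ∀ p ∈ PR X 0.15 0.45, (0 : ℝ) < (p : ℝ) := by
    intro p hp
    rw [PR, mem_filter] at hp
    exact_mod_cast hp.2.1.pos
  refine ⟨(Icc 1 J).biUnion (fun j => LB (T j) 1 ∪ LB (T j) (-1)) ∪ EB, ?_, ?_⟩
  · have h1 : ∑ p ∈ (Icc 1 J).biUnion (fun j => LB (T j) 1 ∪ LB (T j) (-1)), 1 / (p : ℝ) ≤
        (Icc 1 J).card * (e1 + e1) := by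
      apply sum_biUnion_le' _ _ _ hg
      intro j _
      exact (sum_union_le' _ _ _ hg).trans
        (add_le_add (hX1 X hXX1 (T j) 1 (Or.inl rfl)) (hX1 X hXX1 (T j) (-1) (Or.inr rfl)))
    have h2 : ((Icc 1 J).card : ℝ) ≤ 8 / ε := by
      rw [Nat.card_Icc, Nat.add_sub_cancel]
      exact Nat.floor_le (by positivity)
    have h3 : ((Icc 1 J).card : ℝ) * (e1 + e1) ≤ 8 / ε * (e1 + e1) :=
      mul_le_mul_of_nonneg_right h2 (by positivity)
    have h4 : 8 / ε * (e1 + e1) = 16 * ε / 200 := by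
      rw [he1]; field_simp; ring
    have h5 : ∑ p ∈ EB, 1 / (p : ℝ) ≤ ε / 2 := by
      have h6 : ∑ p ∈ EB, 1 / (p : ℝ) ≤ ∑ p ∈ EB, 8 / (ε * X) * (dc f X p : ℝ) := by
        apply sum_le_sum
        intro p hp
        rw [hEB, mem_filter] at hp
        have hp0 := hprpos p hp.1
        have h7 := hp.2
        rw [div_lt_iff₀ hp0] at h7
        rw [div_le_iff₀ hp0, div_mul_eq_mul_div, div_mul_eq_mul_div, le_div_iff₀ (by positivity)]
        linarith
      have h7 : ∑ p ∈ EB, 8 / (ε * X) * (dc f X p : ℝ) ≤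
          8 / (ε * X) * ∑ p ∈ PR X 0.15 0.45, (dc f X p : ℝ) := by
        rw [← mul_sum]
        apply mul_le_mul_of_nonneg_left _ (by positivity)
        apply sum_le_sum_of_subset_of_nonneg (filter_subset _ _)
        intro p _ _
        positivity
      have h8 : ∑ p ∈ PR X 0.15 0.45, (dc f X p : ℝ) ≤ 6 * (2 * (ex f X : ℝ) + 1) := by
        have := sum_dc f X hXX4
        exact_mod_cast this
      have h9 : 8 / (ε * X) * ∑ p ∈ PR X 0.15 0.45, (dc f X p : ℝ) ≤
          8 / (ε * X) * (18 * (η * X)) := by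
        apply mul_le_mul_of_nonneg_left _ (by positivity)
        linarith
      have h10 : 8 / (ε * X) * (18 * (η * X)) = 144 * ε / 400 := by
        rw [hη]; field_simp; ring
      linarith
    have h6 := sum_union_le' ((Icc 1 J).biUnion (fun j => LB (T j) 1 ∪ LB (T j) (-1))) EB
      (fun p => 1 / (p : ℝ)) hg
    linarith
  · intro p hp hpB t
    rw [mem_union, not_or] at hpB
    obtain ⟨hpL, hpE⟩ := hpB
    have hp0 := hprpos p hp
    have hpp : p.Prime := by
      rw [PR, mem_filter] at hp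
      exact hp.2.1
    have hplog1 : 0.15 * Real.log X < Real.log p := by
      rw [PR, mem_filter] at hp
      exact hp.2.2.1
    have hplog2 : Real.log p ≤ 0.45 * Real.log X := by
      rw [PR, mem_filter] at hp
      exact hp.2.2.2
    set R : ℝ := (X : ℝ) / p with hR
    have hRpos : 0 < R := by positivity
    have h64 : 0 < 64 / ε := by positivity
    have hpbig : 64 / ε < p := by
      rw [← Real.log_lt_log_iff h64 hp0]
      linarith
    have hRbig : 64 / ε ≤ R := by
      rw [← Real.log_le_log_iff h64 hRpos, hR, Real.log_div hX0.ne' hp0.ne']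
      linarith
    have hεR : 64 ≤ ε * R := by
      rw [div_le_iff₀ hε] at hRbig
      linarith
    set Y : ℕ := X / p with hY
    have hYR : (Y : ℝ) ≤ R := by
      rw [hY, hR]
      exact Nat.cast_div_le
    have hRY : R - 1 < Y := by
      have h1 : X < p * (Y + 1) := by
        have := Nat.div_add_mod X p
        have h2 := Nat.mod_lt X hpp.pos
        rw [← hY] at this
        rw [mul_add]
        omega
      have h2 : (X : ℝ) < p * (Y + 1) := by exact_mod_cast h1
      have h3 : R < Y + 1 := by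
        rw [hR, div_lt_iff₀ hp0]
        linarith
      linarith
    have hYp : ((Y / p : ℕ) : ℝ) ≤ ε / 64 * R := by
      have h1 : ((Y / p : ℕ) : ℝ) ≤ (Y : ℝ) / p := Nat.cast_div_le
      have h2 : (Y : ℝ) / p ≤ R / p := div_le_div_of_nonneg_right hYR hp0.le
      have h3 : R / p ≤ ε / 64 * R := by
        rw [div_le_iff₀ hp0]
        rw [div_lt_iff₀ hε] at hpbig
        have h4 : (1 : ℝ) ≤ ε / 64 * p := by linarith
        nlinarith
      linarith
    have hdc : (dc f X p : ℝ) ≤ ε / 8 * R := by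
      by_contra hlt
      push Not at hlt
      apply hpE
      rw [hEB, mem_filter]
      refine ⟨hp, ?_⟩
      rw [mul_div_assoc]
      exact hlt
    have hcF : ∀ s : ℝ, (cnt f X s : ℝ) / p = F f X s * R := by
      intro s
      rw [F, hR]
      field_simp
    have hLD : ∀ j : ℕ, 1 ≤ j → j ≤ J → ∀ c : ℤ, (c = 1 ∨ c = -1) →
        |(cntc f X (T j) p c : ℝ) - F f X (T j) * R| ≤ e1 * R := by
      intro j hj1 hj2 c hc
      by_contra hlt
      push Not at hlt
      apply hpL
      rw [mem_biUnion]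
      refine ⟨j, mem_Icc.mpr ⟨hj1, hj2⟩, ?_⟩
      rw [mem_union]
      have h1 : p ∈ LB (T j) c := by
        rw [hLB, mem_filter]
        refine ⟨hp, ?_⟩
        rw [mul_div_assoc, hcF]
        exact hlt
      rcases hc with rfl | rfl
      · exact Or.inl h1
      · exact Or.inr h1
    have hF0 := F_nonneg f X t
    have hF1 := F_le_one f X t
    set Ft : ℝ := F f X t with hFt
    set j : ℕ := ⌊8 * Ft / ε⌋₊ with hj
    have hj1 : (j : ℝ) * ε / 8 ≤ Ft := by
      have : (j : ℝ) ≤ 8 * Ft / ε := Nat.floor_le (by positivity)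
      rw [le_div_iff₀ hε] at this
      linarith
    have hj2 : Ft < ((j : ℝ) + 1) * ε / 8 := by
      have : 8 * Ft / ε < (j : ℝ) + 1 := Nat.lt_floor_add_one _
      rw [div_lt_iff₀ hε] at this
      linarith
    have hjJ : j ≤ J := by
      rw [hj, hJ]
      apply Nat.floor_le_floor
      apply div_le_div_of_nonneg_right _ hε.le
      linarith
    have hup : (cnt f Y (t - f p) : ℝ) ≤ (Ft + 25 * ε / 64 + e1) * R := by
      by_cases hc : j + 1 ≤ J
      · obtain ⟨hTa, hTb⟩ := hT (j + 1) (by omega) hc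
        have htT : t ≤ T (j + 1) := by
          by_contra hlt
          push Not at hlt
          have h1 := F_mono f X hlt.le
          push_cast at hTa
          linarith
        have h1 : (cnt f Y (t - f p) : ℝ) ≤ cntc f X t p (-1) + dc f X p + (Y / p : ℕ) := by
          exact_mod_cast core_upper f hf X p hpp t
        have h2 : (cntc f X t p (-1) : ℝ) ≤ cntc f X (T (j + 1)) p (-1) := by
          exact_mod_cast cntc_mono f X htT p (-1)
        have h3 := hLD (j + 1) (by omega) hc (-1) (Or.inr rfl)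
        have h4 := (abs_le.mp h3).2
        have h5 : F f X (T (j + 1)) * R ≤ (Ft + ε / 4) * R := by
          apply mul_le_mul_of_nonneg_right _ hRpos.le
          push_cast at hTb
          linarith
        have h6 : (Ft + 25 * ε / 64 + e1) * R = (Ft + ε / 4) * R + e1 * R + ε / 8 * R +
          ε / 64 * R := by ring
        rw [h6]
        linarith
      · have h1 : (cnt f Y (t - f p) : ℝ) ≤ Y := by exact_mod_cast cnt_le f Y (t - f p)
        have h2 : (1 : ℝ) ≤ Ft + ε / 8 := by
          have h3 : 8 / ε < (J : ℝ) + 1 := Nat.lt_floor_add_one _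
          have h4 : (J : ℝ) + 1 ≤ (j : ℝ) + 1 := by
            have : J ≤ j := by omega
            have : (J : ℝ) ≤ j := by exact_mod_cast this
            linarith
          rw [div_lt_iff₀ hε] at h3
          have h6 := mul_le_mul_of_nonneg_right h4 hε.le
          linarith
        have h5 : R ≤ (Ft + 25 * ε / 64 + e1) * R := by
          have : 1 ≤ Ft + 25 * ε / 64 + e1 := by linarith
          exact le_mul_of_one_le_left hRpos.le this
        linarith
    have hlo : (Ft - 33 * ε / 64 - e1) * R - 1 ≤ (cnt f Y (t - f p) : ℝ) := by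
      by_cases hc : 3 ≤ j
      · obtain ⟨hTa, hTb⟩ := hT (j - 2) (by omega) (by omega)
        have hcast : ((j - 2 : ℕ) : ℝ) = (j : ℝ) - 2 := by
          rw [Nat.cast_sub (by omega)]
          simp
        rw [hcast] at hTa hTb
        have htT : T (j - 2) ≤ t := by
          by_contra hlt
          push Not at hlt
          have h1 := F_mono f X hlt.le
          linarith
        have h1 : (cntc f X t p 1 : ℝ) ≤ cnt f Y (t - f p) + dc f X p + (Y / p : ℕ) + 1 := by
          exact_mod_cast core_lower f hf X p hpp t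
        have h2 : (cntc f X (T (j - 2)) p 1 : ℝ) ≤ cntc f X t p 1 := by
          exact_mod_cast cntc_mono f X htT p 1
        have h3 := hLD (j - 2) (by omega) (by omega) 1 (Or.inl rfl)
        have h4 := (abs_le.mp h3).1
        have h5 : (Ft - 3 * ε / 8) * R ≤ F f X (T (j - 2)) * R := by
          apply mul_le_mul_of_nonneg_right _ hRpos.le
          linarith
        have h6 : (Ft - 33 * ε / 64 - e1) * R = (Ft - 3 * ε / 8) * R - e1 * R - ε / 8 * R -
          ε / 64 * R := by ring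
        rw [h6]
        linarith
      · have h1 : (0 : ℝ) ≤ cnt f Y (t - f p) := Nat.cast_nonneg _
        have h2 : (j : ℝ) ≤ 2 := by
          have : j ≤ 2 := by omega
          exact_mod_cast this
        have h5 := mul_le_mul_of_nonneg_right h2 hε.le
        have h3 : Ft - 33 * ε / 64 - e1 ≤ 0 := by linarith
        have h4 := mul_nonpos_of_nonpos_of_nonneg h3 hRpos.le
        linarith
    have hYpos : (0 : ℝ) < Y := by
      have h1 : ε * R ≤ 1 * R := mul_le_mul_of_nonneg_right hε1 hRpos.le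
      linarith
    have hG : F f Y (t - f p) = (cnt f Y (t - f p) : ℝ) / Y := rfl
    rw [hG, abs_le]
    have he1R : e1 * R ≤ ε / 200 * R := mul_le_mul_of_nonneg_right he1le hRpos.le
    constructor
    · have h1 : (Ft - ε) * Y ≤ (cnt f Y (t - f p) : ℝ) := by
        by_cases hc : Ft - ε ≤ 0
        · have h2 := mul_nonpos_of_nonpos_of_nonneg hc hYpos.le
          have h3 : (0 : ℝ) ≤ cnt f Y (t - f p) := Nat.cast_nonneg _
          linarith
        · push Not at hc
          have h2 : (Ft - ε) * Y ≤ (Ft - ε) * R := mul_le_mul_of_nonneg_left hYR hc.le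
          have h3 : (Ft - 33 * ε / 64 - e1) * R - 1 - (Ft - ε) * R =
            31 / 64 * (ε * R) - e1 * R - 1 := by ring
          have h4 : ε / 200 * R = 1 / 200 * (ε * R) := by ring
          linarith
      have h2 : Ft - ε ≤ (cnt f Y (t - f p) : ℝ) / Y := by
        rw [le_div_iff₀ hYpos]
        exact h1
      linarith
    · have h1 : (cnt f Y (t - f p) : ℝ) ≤ (Ft + ε) * Y := by
        have h2 : (Ft + ε) * (R - 1) ≤ (Ft + ε) * Y :=
          mul_le_mul_of_nonneg_left hRY.le (by linarith)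
        have h3 : (Ft + ε) * (R - 1) - (Ft + 25 * ε / 64 + e1) * R =
          39 / 64 * (ε * R) - e1 * R - (Ft + ε) := by ring
        have h4 : ε / 200 * R = 1 / 200 * (ε * R) := by ring
        linarith
      have h2 : (cnt f Y (t - f p) : ℝ) / Y ≤ Ft + ε := by
        rw [div_le_iff₀ hYpos]
        exact h1
      linarith

/-- TARGET: law relation for most primes -/
theorem law (f : ℕ → ℝ) (hf : Addi f) (hd : DZ f)
    (hsp : ∀ s ε : ℝ, 0 < ε → ∃ X0 : ℕ, ∀ X : ℕ, X0 ≤ X → ∀ t : ℝ, F f X (t + s) - F f X t ≤ ε)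
    (ε : ℝ) (hε : 0 < ε) :
    ∃ X0 : ℕ, ∀ X : ℕ, X0 ≤ X → ∃ Bad : Finset ℕ, ∑ p ∈ Bad, 1 / (p : ℝ) ≤ ε ∧
      ∀ p ∈ PR X 0.15 0.45, p ∉ Bad → ∀ t : ℝ, |F f (X / p) (t - f p) - F f X t| ≤ ε := by
  obtain ⟨X0, hX0⟩ := law_aux f hf hd hsp (min ε 1) (lt_min hε one_pos) (min_le_right _ _)
  refine ⟨X0, fun X hX => ?_⟩
  obtain ⟨Bad, hB, hlaw⟩ := hX0 X hX
  exact ⟨Bad, hB.trans (min_le_left _ _), fun p hp hpB t =>
    (hlaw p hp hpB t).trans (min_le_left _ _)⟩

end Pool.Agent.Descents.Law
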