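import Mathlib
import Pool.Agent.Helper564.Desc.Defs
import Pool.Agent.Helper564.Desc.J1

set_option autoImplicit false

open Finset Filter Topology

namespace Pool.Agent.Descents.Red

open Pool.Agent.Descents
open Pool.Agent.Descents.J1




/-- TARGET 1: total variation -/
theorem sum_var (f : ℕ → ℝ) (Φ : ℝ → ℝ) (hΦ : Monotone Φ) (h0 : ∀ x, 0 ≤ Φ x) (h1 : ∀ x, Φ x ≤ 1)
    (X : ℕ) : ∑ n ∈ Icc 1 X, |Φ (f (n + 1)) - Φ (f n)| ≤ 1 + 2 * (ex f X : ℝ) := by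
  have htel : ∀ X : ℕ, ∑ n ∈ Icc 1 X, (Φ (f (n + 1)) - Φ (f n)) = Φ (f (X + 1)) - Φ (f 1) := by
    intro X
    induction X with
    | zero => simp
    | succ X ih =>
      rw [Finset.sum_Icc_succ_top (by omega), ih]
      ring
  have hex : (ex f X : ℝ) = ∑ n ∈ Icc 1 X, (if f (n + 1) < f n then (1 : ℝ) else 0) := by
    unfold ex
    rw [Finset.sum_ite, Finset.sum_const_zero, add_zero, Finset.sum_const, nsmul_eq_mul, mul_one]
  have hterm : ∀ n ∈ Icc 1 X, |Φ (f (n + 1)) - Φ (f n)| ≤ (Φ (f (n + 1)) - Φ (f n)) +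
      2 * (if f (n + 1) < f n then (1 : ℝ) else 0) := by
    intro n _
    by_cases h : f (n + 1) < f n
    · rw [if_pos h]
      have a1 := h0 (f (n + 1))
      have a2 := h1 (f n)
      have a3 := h0 (f n)
      have a4 := h1 (f (n + 1))
      have a5 := hΦ h.le
      rw [abs_of_nonpos (by linarith)]
      linarith
    · rw [if_neg h]
      have a5 := hΦ (not_lt.1 h)
      rw [abs_of_nonneg (by linarith)]
      linarith
  calc _ ≤ _ := Finset.sum_le_sum hterm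
    _ = (Φ (f (X + 1)) - Φ (f 1)) + 2 * (ex f X : ℝ) := by
      rw [Finset.sum_add_distrib, htel, ← Finset.mul_sum, hex]
    _ ≤ _ := by
      have a1 := h0 (f 1)
      have a2 := h1 (f (X + 1))
      linarith

theorem divlog (X p : ℕ) (hp : 1 ≤ p) (h : p ≤ X) :
    1 ≤ X / p ∧ Real.log ((X / p : ℕ) : ℝ) ≤ Real.log X - Real.log p ∧
      Real.log X - Real.log p - 1 ≤ Real.log ((X / p : ℕ) : ℝ) ∧ (X : ℝ) ≤ 2 * p * ((X / p : ℕ) : ℝ) := by
  have h1 : 1 ≤ X / p := (Nat.le_div_iff_mul_le hp).2 (by omega)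
  have hp0 : (0 : ℝ) < p := by exact_mod_cast hp
  have hX0 : (0 : ℝ) < X := by
    have : 1 ≤ X := le_trans hp h
    exact_mod_cast this
  have hq0 : (0 : ℝ) < ((X / p : ℕ) : ℝ) := by exact_mod_cast h1
  have h2 : ((X / p : ℕ) : ℝ) ≤ (X : ℝ) / p := Nat.cast_div_le
  have h3 : X ≤ 2 * p * (X / p) := by
    have h4 : X < p * (X / p + 1) := Nat.lt_mul_div_succ X hp
    have h5 : p * (X / p + 1) ≤ p * (2 * (X / p)) := Nat.mul_le_mul_left p (by omega)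
    have h6 : p * (2 * (X / p)) = 2 * p * (X / p) := by ring
    omega
  have h3' : (X : ℝ) ≤ 2 * p * ((X / p : ℕ) : ℝ) := by exact_mod_cast h3
  refine ⟨h1, ?_, ?_, h3'⟩
  · rw [← Real.log_div hX0.ne' hp0.ne']
    exact Real.log_le_log hq0 h2
  · have h4 : Real.log X ≤ Real.log (2 * p * ((X / p : ℕ) : ℝ)) := Real.log_le_log hX0 h3'
    rw [Real.log_mul (by positivity) hq0.ne', Real.log_mul (by norm_num) hp0.ne'] at h4
    have h5 : Real.log 2 ≤ 1 := by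
      have := Real.log_two_lt_d9
      linarith
    linarith

theorem PR_mono {X : ℕ} {a b a' b' : ℝ} (ha : a' ≤ a) (hb : b ≤ b') (hL : 0 ≤ Real.log X) :
    PR X a b ⊆ PR X a' b' := by
  intro p hp
  unfold PR at *
  rw [Finset.mem_filter] at *
  obtain ⟨h1, h2, h3, h4⟩ := hp
  refine ⟨h1, h2, lt_of_le_of_lt ?_ h3, h4.trans ?_⟩
  · exact mul_le_mul_of_nonneg_right ha hL
  · exact mul_le_mul_of_nonneg_right hb hL

theorem mem_PR {X p : ℕ} {a b : ℝ} : p ∈ PR X a b ↔ (1 ≤ p ∧ p ≤ X) ∧ p.Prime ∧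
    a * Real.log X < Real.log p ∧ Real.log p ≤ b * Real.log X := by
  unfold PR
  rw [Finset.mem_filter, Finset.mem_Icc]

theorem pick {A B : Finset ℕ} (h : ∑ p ∈ B, 1 / (p : ℝ) < ∑ p ∈ A, 1 / (p : ℝ)) :
    ∃ p ∈ A, p ∉ B := by
  by_contra hcon
  push Not at hcon
  have : ∑ p ∈ A, 1 / (p : ℝ) ≤ ∑ p ∈ B, 1 / (p : ℝ) :=
    Finset.sum_le_sum_of_subset_of_nonneg hcon (fun p _ _ => by positivity)
  linarith

theorem F_mono (f : ℕ → ℝ) (X : ℕ) : Monotone (F f X) := by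
  intro s t hst
  unfold F
  apply div_le_div_of_nonneg_right _ (Nat.cast_nonneg X)
  unfold cnt
  have h1 : (Icc 1 X).filter (fun n => f n ≤ s) ⊆ (Icc 1 X).filter (fun n => f n ≤ t) := by
    intro n hn
    rw [Finset.mem_filter] at hn ⊢
    exact ⟨hn.1, hn.2.trans hst⟩
  exact_mod_cast Finset.card_le_card h1

theorem F_nonneg (f : ℕ → ℝ) (X : ℕ) (t : ℝ) : 0 ≤ F f X t := by
  unfold F; positivity

theorem F_le_one (f : ℕ → ℝ) (X : ℕ) (t : ℝ) : F f X t ≤ 1 := by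
  unfold F
  apply div_le_one_of_le₀ _ (Nat.cast_nonneg X)
  unfold cnt
  have h1 := Finset.card_filter_le (Icc 1 X) (fun n => f n ≤ t)
  rw [Nat.card_Icc] at h1
  exact_mod_cast (by omega : ((Icc 1 X).filter (fun n => f n ≤ t)).card ≤ X)

/-- TARGET 2 -/
theorem reduce (f : ℕ → ℝ) (hd : DZ f)
    (hsp : ∀ s ε : ℝ, 0 < ε → ∃ X0 : ℕ, ∀ X : ℕ, X0 ≤ X → ∀ t : ℝ, F f X (t + s) - F f X t ≤ ε)
    (hsl : ∀ (K : ℕ) (ε : ℝ), 0 < ε → ∃ X0 : ℕ, ∀ X Y : ℕ, X0 ≤ X → X0 ≤ Y → X ≤ K * Y →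
      Y ≤ K * X → ∀ t : ℝ, |F f X t - F f Y t| ≤ ε)
    (hlaw : ∀ ε : ℝ, 0 < ε → ∃ X0 : ℕ, ∀ X : ℕ, X0 ≤ X → ∃ Bad : Finset ℕ,
      ∑ p ∈ Bad, 1 / (p : ℝ) ≤ ε ∧
      ∀ p ∈ PR X 0.15 0.45, p ∉ Bad → ∀ t : ℝ, |F f (X / p) (t - f p) - F f X t| ≤ ε)
    (ε : ℝ) (hε : 0 < ε) (Y0 : ℕ) :
    ∃ Y : ℕ, Y0 ≤ Y ∧ ∃ G : Finset ℕ, G ⊆ PR Y 0.505 1 ∧
      ∑ p ∈ PR Y 0.505 1 \ G, 1 / (p : ℝ) ≤ ε ∧
      ∃ Φ : ℝ → ℝ, Monotone Φ ∧ (∀ x, 0 ≤ Φ x) ∧ (∀ x, Φ x ≤ 1) ∧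
      (∀ p ∈ G, ∀ q ∈ G, p ≤ 256 * q → q ≤ 256 * p → ∀ t, |Φ (t + f p - f q) - Φ t| ≤ 3 * ε) ∧
      (∀ (a b : ℝ) (S : Finset ℕ), a ≤ b → (∀ n ∈ S, n ∈ Icc 1 Y ∧ a ≤ Φ (f n) ∧ Φ (f n) ≤ b) →
        (S.card : ℝ) ≤ (b - a + 5 * ε) * Y) ∧
      ∑ n ∈ Icc 1 Y, |Φ (f (n + 1)) - Φ (f n)| ≤ ε ^ 2 * Y := by
  obtain ⟨δ, hδdef⟩ : ∃ δ : ℝ, δ = min ε 0.01 := ⟨_, rfl⟩
  have hδε : δ ≤ ε := by rw [hδdef]; exact min_le_left _ _
  have hδ1 : δ ≤ 0.01 := by rw [hδdef]; exact min_le_right _ _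
  have hδ0 : 0 < δ := by rw [hδdef]; exact lt_min hε (by norm_num)
  obtain ⟨XL, hXL⟩ := hlaw δ hδ0
  obtain ⟨Xs, hXs⟩ := hsl 512 δ hδ0
  obtain ⟨Xp, hXp⟩ := hsp 1 δ hδ0
  obtain ⟨XR, hXR⟩ := PR_lower 0.29 0.31 0.01 (by norm_num) (by norm_num) (by norm_num) (by norm_num)
  -- descents
  obtain ⟨Y1, hY1⟩ : ∃ Y1 : ℕ, ∀ Y : ℕ, Y1 ≤ Y → 1 + 2 * (ex f Y : ℝ) ≤ ε ^ 2 * Y := by
    have hε2 : 0 < ε ^ 2 / 4 := by positivity
    have h1 : ∀ᶠ X : ℕ in atTop, (ex f X : ℝ) / X < ε ^ 2 / 4 := hd.eventually (gt_mem_nhds hε2)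
    have h2 : ∀ᶠ X : ℕ in atTop, 2 / ε ^ 2 ≤ (X : ℝ) :=
      tendsto_natCast_atTop_atTop.eventually_ge_atTop _
    obtain ⟨Y1, hY1⟩ := eventually_atTop.1 (h1.and (h2.and (eventually_ge_atTop 1)))
    refine ⟨Y1, fun Y hY => ?_⟩
    obtain ⟨a1, a2, a3⟩ := hY1 Y hY
    have hYp : (0 : ℝ) < Y := by exact_mod_cast a3
    rw [div_lt_iff₀ hYp] at a1
    rw [div_le_iff₀ (by positivity)] at a2
    nlinarith
  obtain ⟨M, hM⟩ : ∃ M : ℕ, M = Y0 + XL + Xs + Xp + XR + Y1 + 1 := ⟨_, rfl⟩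
  have hM0 : (0 : ℝ) < M := by
    have : 0 < M := by omega
    exact_mod_cast this
  -- choice of X
  obtain ⟨X, hX1, hX2⟩ : ∃ X : ℕ, 1000 ≤ Real.log X ∧ Real.log M ≤ 0.38 * Real.log X - 2 := by
    have h1 : Tendsto (fun X : ℕ => Real.log X) atTop atTop :=
      Real.tendsto_log_atTop.comp tendsto_natCast_atTop_atTop
    obtain ⟨X, h2, h3⟩ := ((h1.eventually_ge_atTop 1000).and
      (h1.eventually_ge_atTop ((Real.log M + 2) / 0.38))).exists
    refine ⟨X, h2, ?_⟩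
    rw [div_le_iff₀ (by norm_num)] at h3
    linarith
  have big : ∀ Z : ℕ, 0.38 * Real.log X - 2 ≤ Real.log Z → M ≤ Z := by
    intro Z hZ
    have h1 : Real.log M ≤ Real.log Z := hX2.trans hZ
    have hZ0 : (0 : ℝ) < Z := by
      rcases Nat.eq_zero_or_pos Z with h0 | h0
      · subst h0
        simp at hZ
        linarith
      · exact_mod_cast h0
    have h2 := (Real.log_le_log_iff hM0 hZ0).1 h1
    exact_mod_cast h2
  have hXM : M ≤ X := big X (by linarith)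
  obtain ⟨Bad1, hB1, hL1⟩ := hXL X (by omega)
  have hsum := hXR X (by omega)
  have hsum' : (0.01 : ℝ) < ∑ p ∈ PR X 0.29 0.31, 1 / (p : ℝ) := by
    refine lt_of_lt_of_le ?_ hsum
    norm_num
  obtain ⟨p1, hp1, hp1B⟩ := pick (lt_of_le_of_lt (hB1.trans hδ1) hsum')
  have hp1' := hp1
  rw [mem_PR] at hp1'
  obtain ⟨⟨hp11, hp12⟩, hp13, hp14, hp15⟩ := hp1'
  obtain ⟨X', hX'⟩ : ∃ X' : ℕ, X' = X / p1 := ⟨_, rfl⟩
  have hdiv1 := divlog X p1 hp11 hp12
  rw [← hX'] at hdiv1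
  obtain ⟨a1, a2, a3, a4⟩ := hdiv1
  have hX'M : M ≤ X' := big X' (by linarith)
  obtain ⟨Bad2, hB2, hL2⟩ := hXL X' (by omega)
  obtain ⟨p2, hp2, hp2B⟩ := pick (lt_of_le_of_lt (hB2.trans hδ1) hsum')
  have hp2' := hp2
  rw [mem_PR] at hp2'
  obtain ⟨⟨hp21, hp22⟩, hp23, hp24, hp25⟩ := hp2'
  have hp21' : (0 : ℝ) < p2 := by exact_mod_cast hp21
  have hX'0 : (0 : ℝ) < X' := by exact_mod_cast a1
  have hp2X' : p2 ≤ X' := by
    have h1 : Real.log p2 ≤ Real.log X' := by linarith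
    have h2 := (Real.log_le_log_iff hp21' hX'0).1 h1
    exact_mod_cast h2
  obtain ⟨Y, hY⟩ : ∃ Y : ℕ, Y = X' / p2 := ⟨_, rfl⟩
  have hdiv2 := divlog X' p2 hp21 hp2X'
  rw [← hY] at hdiv2
  obtain ⟨b1, b2, b3, b4⟩ := hdiv2
  have hYM : M ≤ Y := big Y (by linarith)
  have hYX : Y ≤ X := by
    rw [hY, hX']
    exact (Nat.div_le_self _ _).trans (Nat.div_le_self _ _)
  have hp2PR : p2 ∈ PR X' 0.15 0.45 := by
    rw [mem_PR]
    refine ⟨⟨hp21, hp2X'⟩, hp23, ?_, ?_⟩ <;> linarith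
  have hp1PR : p1 ∈ PR X 0.15 0.45 := PR_mono (by norm_num) (by norm_num) (by linarith) hp1
  have hPRsub : PR Y 0.505 1 ⊆ PR X 0.15 0.45 := by
    intro q hq
    rw [mem_PR] at hq ⊢
    obtain ⟨⟨c1, c2⟩, c3, c4, c5⟩ := hq
    refine ⟨⟨c1, c2.trans hYX⟩, c3, ?_, ?_⟩ <;> linarith
  -- closeness to F Y
  have hclose : ∀ t, |F f X (t + f p1 + f p2) - F f Y t| ≤ 2 * δ := by
    intro t
    have g1 := hL1 p1 hp1PR hp1B (t + f p1 + f p2)
    have g2 := hL2 p2 hp2PR hp2B (t + f p2)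
    rw [← hX'] at g1
    rw [← hY] at g2
    have e1 : t + f p1 + f p2 - f p1 = t + f p2 := by ring
    have e2 : t + f p2 - f p2 = t := by ring
    rw [e1] at g1
    rw [e2] at g2
    rw [abs_le] at g1 g2 ⊢
    constructor <;> linarith [g1.1, g1.2, g2.1, g2.2]
  have hY0 : (0 : ℝ) < Y := by exact_mod_cast b1
  refine ⟨Y, by omega, PR Y 0.505 1 \ Bad1, Finset.sdiff_subset, ?_,
    fun t => F f X (t + f p1 + f p2), ?_, ?_, ?_, ?_, ?_, ?_⟩
  · refine le_trans ?_ (hB1.trans hδε)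
    apply Finset.sum_le_sum_of_subset_of_nonneg
    · intro p hp
      rw [Finset.mem_sdiff, Finset.mem_sdiff] at hp
      by_contra hcon
      exact hp.2 ⟨hp.1, hcon⟩
    · intro p _ _
      positivity
  · intro s t hst
    apply F_mono
    linarith
  · intro x
    exact F_nonneg _ _ _
  · intro x
    exact F_le_one _ _ _
  · intro p hp q hq hpq hqp t
    rw [Finset.mem_sdiff] at hp hq
    have hp' := hPRsub hp.1
    have hq' := hPRsub hq.1
    have hpY := (mem_PR.1 hp.1)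
    have hqY := (mem_PR.1 hq.1)
    obtain ⟨⟨p01, p02⟩, _, _, p05⟩ := hpY
    obtain ⟨⟨q01, q02⟩, _, _, q05⟩ := hqY
    obtain ⟨d1, d2, d3, d4⟩ := divlog X p p01 (p02.trans hYX)
    obtain ⟨e1, e2, e3, e4⟩ := divlog X q q01 (q02.trans hYX)
    have hpM : M ≤ X / p := big _ (by linarith)
    have hqM : M ≤ X / q := big _ (by linarith)
    -- ratio bounds
    have ratio : ∀ p q : ℕ, 1 ≤ p → 1 ≤ q → q ≤ X → q ≤ 256 * p → X / p ≤ 512 * (X / q) := by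
      intro p q hp0 hq0 hqX hqp
      obtain ⟨_, _, _, e4⟩ := divlog X q hq0 hqX
      have e4' : X ≤ 2 * q * (X / q) := by exact_mod_cast e4
      have h1 : X ≤ 512 * (X / q) * p := by
        calc X ≤ 2 * q * (X / q) := e4'
          _ ≤ 2 * (256 * p) * (X / q) := by
            apply Nat.mul_le_mul_right
            omega
          _ = 512 * (X / q) * p := by ring
      exact Nat.div_le_of_le_mul (by linarith [mul_comm p (512 * (X / q))])
    have r1 := ratio p q p01 q01 (q02.trans hYX) hqp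
    have r2 := ratio q p q01 p01 (p02.trans hYX) hpq
    have g1 := hL1 p hp' hp.2 (t + f p - f q + f p1 + f p2)
    have g2 := hL1 q hq' hq.2 (t + f p1 + f p2)
    have g3 := hXs (X / p) (X / q) (by omega) (by omega) r1 r2 (t - f q + f p1 + f p2)
    have e5 : t + f p - f q + f p1 + f p2 - f p = t - f q + f p1 + f p2 := by ring
    have e6 : t + f p1 + f p2 - f q = t - f q + f p1 + f p2 := by ring
    rw [e5] at g1
    rw [e6] at g2
    simp only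
    rw [abs_le] at g1 g2 g3 ⊢
    constructor <;> linarith [g1.1, g1.2, g2.1, g2.2, g3.1, g3.2]
  · intro a b S hab hS
    rcases S.eq_empty_or_nonempty with rfl | hne
    · simp only [Finset.card_empty, Nat.cast_zero]
      apply mul_nonneg _ hY0.le
      linarith
    · obtain ⟨n1, hn1, hmin⟩ := Finset.exists_min_image S f hne
      obtain ⟨n2, hn2, hmax⟩ := Finset.exists_max_image S f hne
      have hsub : S ⊆ ((Icc 1 Y).filter (fun n => f n ≤ f n2)) \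
          ((Icc 1 Y).filter (fun n => f n ≤ f n1 - 1)) := by
        intro n hn
        rw [Finset.mem_sdiff, Finset.mem_filter, Finset.mem_filter]
        refine ⟨⟨(hS n hn).1, hmax n hn⟩, ?_⟩
        rintro ⟨_, h⟩
        have := hmin n hn
        linarith
      have hsub2 : ((Icc 1 Y).filter (fun n => f n ≤ f n1 - 1)) ⊆
          ((Icc 1 Y).filter (fun n => f n ≤ f n2)) := by
        intro n hn
        rw [Finset.mem_filter] at hn ⊢
        have := hmin n2 hn2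
        exact ⟨hn.1, by linarith [hn.2]⟩
      have hcard := Finset.card_le_card hsub
      rw [Finset.card_sdiff_of_subset hsub2] at hcard
      have hcard2 := Finset.card_le_card hsub2
      have hcard3 : S.card + ((Icc 1 Y).filter (fun n => f n ≤ f n1 - 1)).card ≤
          ((Icc 1 Y).filter (fun n => f n ≤ f n2)).card := by omega
      have hcard4 : (S.card : ℝ) + (cnt f Y (f n1 - 1) : ℝ) ≤ (cnt f Y (f n2) : ℝ) := by
        unfold cnt
        exact_mod_cast hcard3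
      have hF : ∀ t, (cnt f Y t : ℝ) = F f Y t * Y := by
        intro t
        unfold F
        field_simp
      rw [hF, hF] at hcard4
      have h1 := hclose (f n2)
      have h2 := hclose (f n1)
      have h3 := hXp Y (by omega) (f n1 - 1)
      rw [sub_add_cancel] at h3
      have h4 := (hS n1 hn1).2.1
      have h5 := (hS n2 hn2).2.2
      simp only at h4 h5
      rw [abs_le] at h1 h2
      have h6 : F f Y (f n2) - F f Y (f n1 - 1) ≤ b - a + 5 * ε := by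
        linarith [h1.1, h1.2, h2.1, h2.2]
      have h7 := mul_le_mul_of_nonneg_right h6 hY0.le
      linarith
  · refine (sum_var f (fun t => F f X (t + f p1 + f p2)) ?_ (fun x => F_nonneg _ _ _)
      (fun x => F_le_one _ _ _) Y).trans (hY1 Y (by omega))
    intro s t hst
    apply F_mono
    linarith

end Pool.Agent.Descents.Red
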