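import Mathlib
import Pool.Agent.Helper564.Desc.Defs
import Pool.Agent.Helper564.Desc.A4
import Pool.Agent.Helper564.Desc.A5
import Pool.Agent.Helper564.Desc.Law
import Pool.Agent.Helper564.Desc.Red
import Pool.Agent.Helper564.Desc.Core

set_option autoImplicit false

open Finset Filter Topology

namespace Pool.Agent.Descents.Main

open Pool.Agent.Descents

theorem is_log (f : ℕ → ℝ) (hf : Addi f)
    (h : ∀ r₁ r₂ : ℕ, IsPrimePow r₁ → IsPrimePow r₂ → f r₁ * Real.log r₂ = f r₂ * Real.log r₁) :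
    ∃ c : ℝ, ∀ n : ℕ, 1 ≤ n → f n = c * Real.log (n : ℝ) := by
  have h1 : f 1 = 0 := by
    have := hf 1 1 le_rfl le_rfl (by norm_num)
    simp only [mul_one] at this
    linarith
  refine ⟨f 2 / Real.log 2, ?_⟩
  have hl2 : 0 < Real.log 2 := Real.log_pos (by norm_num)
  intro n
  induction n using Nat.recOnPosPrimePosCoprime with
  | prime_pow p k hp hk =>
    intro _
    have h2 := h (p ^ k) 2 (hp.isPrimePow.pow (by omega)) Nat.prime_two.isPrimePow
    rw [div_mul_eq_mul_div, eq_div_iff hl2.ne']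
    exact_mod_cast h2
  | zero => intro h0; omega
  | one => intro _; simp [h1]
  | coprime a b ha hb hab iha ihb =>
    intro _
    rw [hf a b (by omega) (by omega) hab, iha (by omega), ihb (by omega)]
    push_cast
    rw [Real.log_mul (by positivity) (by positivity)]
    ring

/-- An additive function whose set of descents has natural density zero is `c log n`. -/
theorem main (f : ℕ → ℝ) (hf : Addi f) (hd : DZ f) :
    ∃ c : ℝ, ∀ n : ℕ, 1 ≤ n → f n = c * Real.log (n : ℝ) := by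
  by_contra hcon
  have hne : ∃ r₁ r₂ : ℕ, IsPrimePow r₁ ∧ IsPrimePow r₂ ∧
      f r₁ * Real.log r₂ ≠ f r₂ * Real.log r₁ := by
    by_contra h
    push Not at h
    exact hcon (is_log f hf h)
  have hsp : ∀ s ε : ℝ, 0 < ε → ∃ X0 : ℕ, ∀ X : ℕ, X0 ≤ X → ∀ t : ℝ, F f X (t + s) - F f X t ≤ ε :=
    fun s ε hε => A4.spread f hf hd hne s ε hε
  have hsl := fun (K : ℕ) (ε : ℝ) (hε : 0 < ε) => A5.slow f hf hd hsp K ε hε
  have hlaw := fun (ε : ℝ) (hε : 0 < ε) => Law.law f hf hd hsp ε hε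
  obtain ⟨ε, hε, hε1, Y0, hcore⟩ := Core.core
  obtain ⟨Y, hY, G, hG, hs, Φ, hm, h0, h1, H1, H2, H3⟩ := Red.reduce f hd hsp hsl hlaw ε hε Y0
  exact hcore Y hY f hf G hG hs Φ hm h0 h1 H1 H2 H3

end Pool.Agent.Descents.Main
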